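import Mathlib
import Pool.Agent.Y703.CQ.Stm
import Pool.Agent.NH1.Defs

/-!
# Project PR (helper5): the exact proportion of the nonsingular matrices, all types of primes

`D` runs over the squarefree numbers prime to `14 b`, `D = r mod 8`, with as many prime factors of type
`A` (`± 1` modulo `8`, not a square modulo `7`) as of type `B` (`± 3` modulo `8`, a square modulo `7`).
The matrix over `𝔽₂` has the rows `p | D`, `p` a square modulo `7`, and the columns `q | D`,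
`q = ± 1 mod 8`; the entries are the symbols `(p / q)`, on the diagonal the sum over all symbols
`(p / t)`, `t ≠ p`, plus an arbitrary function. It is nonsingular for exactly the proportion
`∏_{i ≥ 1} (1 - 2^{-i}) = 0.28878…`, and the number of the `D ≤ X` of the class is at least
`c X (log log X)^{-1/2}`. Statements of the parts. The template is project CQ
(`Pool.Agent.Y703.CQ.Stm`, `Asy`, `Key` etc.).
-/

set_option autoImplicit false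
set_option linter.unusedVariables false

open scoped Classical

namespace Pool.Agent.NH5.PR

open Finset
open Pool.Agent.NH1 (sq2 sq7 sS sI sA sB)
open Pool.Agent.Y703.CX (sm la jj XX eL zz kk S_SIE)
open Pool.Agent.Y703.CQ (nr sg prs HB S_EQ S_MER S_CHE HD)

/-- the class of the sets of primes -/
def Cl (b r : ℕ) (S : Finset ℕ) : Prop :=
  (∀ p ∈ S, p.Prime ∧ ¬ p ∣ 14 * b) ∧ (sA S).card = (sB S).card ∧ (∏ p ∈ S, p) % 8 = r

/-- the parameters -/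
def Ok (b r : ℕ) : Prop := 0 < b ∧ (r = 1 ∨ r = 3 ∨ r = 5 ∨ r = 7)

/-- the sets of the class with product at most `X` -/
noncomputable def SS (b r X : ℕ) : Finset (Finset ℕ) :=
  (range (X + 1)).powerset.filter fun S => Cl b r S ∧ ∏ p ∈ S, p ≤ X

/-- all sets of odd primes `≠ 7` with product at most `X` -/
noncomputable def AA (X : ℕ) : Finset (Finset ℕ) :=
  (range (X + 1)).powerset.filter fun S => (∀ p ∈ S, p.Prime ∧ p ≠ 2 ∧ p ≠ 7) ∧ ∏ p ∈ S, p ≤ X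

/-- the kernel of the matrix -/
def Sol (f : ℕ → ZMod 2) (S : Finset ℕ) (x : ℕ → ZMod 2) : Prop :=
  (∀ p ∈ S, ¬ sq2 p → x p = 0) ∧
  ∀ p ∈ S, sq7 p → ∑ q ∈ S, nr q p * (x q + x p) + f p * x p = 0

/-- the good sets: the matrix is nonsingular -/
def Gd (f : ℕ → ZMod 2) (S : Finset ℕ) : Prop := ∀ x, Sol f S x → ∀ p ∈ S, x p = 0

/-- the limit `(1 - 1/2) (1 - 1/4) (1 - 1/8) ⋯` -/
noncomputable def eta : ℝ := ∏' i : ℕ, (1 - (1 / 2 : ℝ) ^ (i + 1))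

/-- FINAL: the proportion of the good sets -/
def S_DQ : Prop := ∀ (b r : ℕ) (f : ℕ → ZMod 2), Ok b r → Filter.Tendsto
  (fun X : ℕ => (((SS b r X).filter (Gd f)).card : ℝ) / ((SS b r X).card : ℝ))
  Filter.atTop (nhds eta)

/-- PR-ETA: the infinite product. -/
def S_ETA : Prop := (∀ n : ℕ, |∏ i ∈ range n, (1 - (1 / 2 : ℝ) ^ (i + 1)) - eta| ≤ (1 / 2 : ℝ) ^ n) ∧
  0 < eta ∧ eta < 1 ∧ 0.2887 < eta ∧ eta < 0.2888

/-- PR-BIL: bilinear sums of quadratic symbols, the primes of each set in a fixed class modulo 4. -/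
def S_BIL : Prop := ∃ C : ℝ, 1 ≤ C ∧ ∀ (P Q : Finset ℕ) (A B z s t : ℕ) (c d : ℕ → ℂ),
  (∀ p ∈ P, p.Prime ∧ p ≠ 2 ∧ p % 4 = s ∧ p ≤ A) →
  (∀ q ∈ Q, q.Prime ∧ q ≠ 2 ∧ q % 4 = t ∧ q ≤ B) →
  Disjoint P Q → 1 ≤ z → z ≤ A → z ≤ B → (∀ p, ‖c p‖ ≤ 1) → (∀ q, ‖d q‖ ≤ 1) →
  ‖∑ p ∈ P, ∑ q ∈ Q, c p * d q * sg (nr p q)‖ ^ 12 * z ≤ C * ((A : ℝ) * B) ^ 12

/-- the symbols `[k / l]` of a tuple from the free ones, `t` the correction of the reciprocity law -/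
noncomputable def ex2 {J : Type} [Fintype J] [LinearOrder J] (t : J → J → ZMod 2)
    (α : prs (univ : Finset J) → ZMod 2) (k l : J) : ZMod 2 :=
  if h : (l, k) ∈ prs (univ : Finset J) then α ⟨(l, k), h⟩
  else if h' : (k, l) ∈ prs (univ : Finset J) then α ⟨(k, l), h'⟩ + t k l else 0

/-- the block system has only the zero solution; `UR`, `JR` are the rows, `UC`, `JC` the columns -/
def GdA {U J : Type} [Fintype U] [Fintype J] (UR UC : Finset U) (JR JC : Finset J)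
    (A : U → U → ZMod 2) (B : U → J → ZMod 2) (C : J → U → ZMod 2) (R : J → J → ZMod 2)
    (f : U → ZMod 2) (g : J → ZMod 2) : Prop :=
  ∀ (x : U → ZMod 2) (y : J → ZMod 2), (∀ u, u ∉ UC → x u = 0) → (∀ k, k ∉ JC → y k = 0) →
    (∀ u ∈ UR, ∑ v, A u v * (x v + x u) + ∑ l, B u l * (y l + x u) + f u * x u = 0) →
    (∀ k ∈ JR, ∑ u, C k u * (x u + y k) + ∑ l, R k l * (y l + y k) + g k * y k = 0) →
    (∀ u, x u = 0) ∧ ∀ l, y l = 0

/-- PR-LA: the probability that a random completion is good. -/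
def S_LA : Prop := ∀ (U J : Type) [Fintype U] [Fintype J] [LinearOrder J] (UR UC : Finset U)
  (JR JC : Finset J) (t : J → J → ZMod 2), UC.card + JC.card = UR.card + JR.card →
  (∃ l, l ∉ JR ∧ l ∉ JC) → ∀ (A : U → U → ZMod 2) (B : U → J → ZMod 2)
  (C : J → U → ZMod 2) (f : U → ZMod 2) (g : J → ZMod 2),
  (∀ w : U → ZMod 2, (∃ u, w u ≠ 0) → ∃ k ∈ JR, k ∈ JC ∧ ∑ u, w u * C k u ≠ 0) →
  (∀ w : U → ZMod 2, (∃ u, w u ≠ 0) → ∃ k ∈ JR, k ∈ JC ∧ ∑ u, w u * B u k ≠ 0) →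
  |((univ.filter fun α : prs (univ : Finset J) → ZMod 2 =>
      GdA UR UC JR JC A B C (ex2 t α) f g).card : ℝ) / 2 ^ (prs (univ : Finset J)).card - eta| ≤
    2 ^ Fintype.card U / 2 ^ (JC \ JR).card + 1 / 2 ^ (JR \ JC).card

/-- the labels of the large primes with respect to the small ones are not degenerate -/
def Nd (S₀ S₁ : Finset ℕ) : Prop :=
  ∀ w : ℕ → ZMod 2, (∃ u ∈ S₀, w u ≠ 0) →
    ∃ p ∈ S₁, p % 8 = 1 ∧ sq7 p ∧ ∑ u ∈ S₀, w u * nr p u ≠ 0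

/-- PR-BOX: the count in a box. -/
def S_BOX : Prop := S_EQ → S_LA → ∀ (f : ℕ → ZMod 2) (ι : Type) [Fintype ι] [LinearOrder ι]
  (JR JC J3 : Finset ι) (C : ι → Finset ℕ) (X : ι → ℕ) (κ : ℝ) (S₀ : Finset ℕ), 0 ≤ κ →
  (∀ i, (C i).card ≤ X i) → HB (univ : Finset ι) C X κ → (∀ u ∈ S₀, u.Prime ∧ u ≠ 2 ∧ u ≠ 7) →
  (∀ i, ∀ p ∈ C i, p.Prime ∧ p ≠ 2 ∧ p ≠ 7 ∧ p ∉ S₀ ∧ (i ∈ JR ↔ sq7 p) ∧ (i ∈ JC ↔ sq2 p) ∧
    (i ∈ J3 ↔ p % 4 = 3)) →
  (∀ i l, i ≠ l → Disjoint (C i) (C l)) → (∃ i, i ∉ JR ∧ i ∉ JC) →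
  (S₀.filter sq2).card + JC.card = (S₀.filter sq7).card + JR.card →
  |(((Fintype.piFinset C).filter fun p => Nd S₀ (univ.image p) ∧ Gd f (S₀ ∪ univ.image p)).card : ℝ) -
      eta * (((Fintype.piFinset C).filter fun p => Nd S₀ (univ.image p)).card : ℝ)| ≤
    (2 ^ S₀.card / 2 ^ (JC \ JR).card + 1 / 2 ^ (JR \ JC).card) *
      (((Fintype.piFinset C).filter fun p => Nd S₀ (univ.image p)).card : ℝ) +
    2 ^ ((2 * S₀.card + 1) * Fintype.card ι + (prs (univ : Finset ι)).card) *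
      (κ * ∏ j, (X j : ℝ))

/-- the regular sets -/
noncomputable def RR (b r X z H k V : ℕ) : Finset (Finset ℕ) :=
  (SS b r X).filter fun S => Set.InjOn (jj H) (la z S : Set ℕ) ∧ S.card ≤ k ∧
    (∏ p ∈ sm z S, p) * ∏ p ∈ la z S, XX H (jj H p) ≤ X ∧
    (sm z S).card + V < (sA (la z S)).card ∧ (sm z S).card + V < (sB (la z S)).card ∧
    (sI (la z S)).Nonempty

/-- PR-KEY: the sum over the boxes. -/
def S_KEY : Prop := S_BIL → S_EQ → S_LA → S_BOX → S_ETA → ∃ C : ℝ, 1 ≤ C ∧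
  ∀ (b r : ℕ) (f : ℕ → ZMod 2) (X z H k V N : ℕ) (κ : ℝ), Ok b r → 1 ≤ X → 1 ≤ H → 2 ≤ z →
  0 ≤ κ → C ≤ κ ^ 12 * z → (H : ℝ) * Real.log X < N →
  |(((RR b r X z H k V).filter fun S => Nd (sm z S) (la z S) ∧ Gd f S).card : ℝ) -
      eta * (((RR b r X z H k V).filter fun S => Nd (sm z S) (la z S)).card : ℝ)| ≤
    2 * (1 / 2 : ℝ) ^ V * ((RR b r X z H k V).card : ℝ) +
    (56 * N + 56 : ℝ) ^ k * (3 ^ (3 * k ^ 2) * κ) * (X * (1 + Real.log X))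

/-- PR-CNT: sets with many primes, sets near the boundary, sets with two primes in a block. -/
structure CntP : Prop where
  many : ∀ (X k : ℕ), 1 ≤ X →
    (((AA X).filter fun S => k < S.card).card : ℝ) * 2 ^ k ≤ X * (1 + Real.log X)
  cut : ∀ (X z H k : ℕ), 1 ≤ X → 1 ≤ H →
    (((AA X).filter fun S => S.card ≤ k ∧
      X < (∏ p ∈ sm z S, p) * ∏ p ∈ la z S, XX H (jj H p)).card : ℝ) ≤ X * k / H + 1
  coll : ∀ (X z H : ℕ), 1 ≤ X → 1 ≤ H → (((AA X).filter fun S =>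
    ¬ Set.InjOn (jj H) (la z S : Set ℕ)).card : ℝ) ≤ 4 * X * (1 + Real.log X) / H

/-- PR-HAL: the logarithmic density for a nontrivial quadratic character. -/
def S_HAL : Prop := ∃ C : ℝ, 1 ≤ C ∧ ∀ (W : Finset ℕ) (T : ℕ), W.Nonempty →
  (∀ u ∈ W, u.Prime ∧ u ≠ 2 ∧ u ≠ 7) → 2 ≤ T →
  ∑ S ∈ HD W T, (1 : ℝ) / ((∏ p ∈ S, p : ℕ) : ℝ) ≤
    C * (Real.log ((∏ u ∈ W, u : ℕ) : ℝ)) ^ (1 / 2 : ℝ) * (Real.log T) ^ (1 / 16 : ℝ)

/-- PR-BAD: few sets have degenerate labels. -/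
def S_BAD : Prop := S_SIE → S_HAL → S_MER → ∃ (C : ℝ) (X₀ : ℕ), ∀ X : ℕ, X₀ ≤ X →
  (((AA X).filter fun S => S.card ≤ kk X ∧ ¬ Nd (sm (zz X) S) (la (zz X) S)).card : ℝ) ≤
    C * X * (Real.log X) ^ (-1 / 32 : ℝ)

/-- PR-FEW: few sets have few large primes of type `A` or `B` or no large prime of type `I`. -/
def S_FEW : Prop := S_SIE → CntP → S_MER → ∀ V : ℕ, ∃ (C : ℝ) (X₀ : ℕ), ∀ X : ℕ, X₀ ≤ X →
  (((AA X).filter fun S => (sA (la (zz X) S)).card ≤ (sm (zz X) S).card + V ∨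
      (sB (la (zz X) S)).card ≤ (sm (zz X) S).card + V ∨ sI (la (zz X) S) = ∅).card : ℝ) ≤
    C * X * (Real.log X) ^ (-1 / 32 : ℝ)

/-! ### the size of the class -/

/-- the subsets of `A ∪ B` with as many elements in `A` as in `B` -/
noncomputable def Eqs (A B : Finset ℕ) : Finset (Finset ℕ) :=
  (A ∪ B).powerset.filter fun T => (T ∩ A).card = (T ∩ B).card

/-- PR-PL: lower bound for the weight of the balanced subsets. -/
def S_PL : Prop := ∀ K : ℝ, ∃ c P₀ : ℝ, 0 < c ∧ 1 ≤ P₀ ∧ ∀ (A B : Finset ℕ) (w : ℕ → ℝ),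
  Disjoint A B → (∀ p, 0 ≤ w p) → ∑ p ∈ A, w p ^ 2 ≤ 1 / 2 → ∑ p ∈ B, w p ^ 2 ≤ 1 / 2 →
  |∑ p ∈ A, w p - ∑ p ∈ B, w p| ≤ K → P₀ ≤ ∑ p ∈ A, w p →
  c * Real.exp (∑ p ∈ A, w p + ∑ p ∈ B, w p) / Real.sqrt (∑ p ∈ A, w p) ≤
    ∑ T ∈ Eqs A B, ∏ p ∈ T, w p

/-- PR-PU: upper bound for the weight of the balanced subsets. -/
def S_PU : Prop := ∃ C : ℝ, 1 ≤ C ∧ ∀ (A B : Finset ℕ) (w : ℕ → ℝ),
  Disjoint A B → (∀ p, 0 ≤ w p) → 1 ≤ ∑ p ∈ A, w p →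
  ∑ T ∈ Eqs A B, ∏ p ∈ T, w p ≤
    C * Real.exp (∑ p ∈ A, w p + ∑ p ∈ B, w p) / Real.sqrt (∑ p ∈ A, w p)

/-- the balanced sets of primes with product at most `Y` -/
noncomputable def MM (b Y : ℕ) : Finset (Finset ℕ) :=
  (range (Y + 1)).powerset.filter fun S => (∀ p ∈ S, p.Prime ∧ ¬ p ∣ 14 * b) ∧
    (sA S).card = (sB S).card ∧ ∏ p ∈ S, p ≤ Y

/-- PR-LOG: the logarithmic size of the class. -/
def S_LOG : Prop := S_MER → S_PL → S_PU → ∀ b : ℕ, 0 < b → ∃ (c : ℝ) (Y₀ : ℕ), 0 < c ∧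
  ∀ Y : ℕ, Y₀ ≤ Y → c * Real.log Y / Real.sqrt (Real.log (Real.log Y)) ≤
    ∑ S ∈ MM b Y, (1 : ℝ) / ((∏ p ∈ S, p : ℕ) : ℝ)

/-- PR-LOW: the lower bound for the size of the class. -/
def S_LOW : Prop := ∀ b r : ℕ, Ok b r → ∃ (c : ℝ) (X₀ : ℕ), 0 < c ∧ ∀ X : ℕ, X₀ ≤ X →
  c * X / Real.sqrt (eL X) ≤ ((SS b r X).card : ℝ)

/-- PR-LOW2: from the logarithmic size to the size -/
def S_LOW2 : Prop := S_MER → S_PL → S_PU → S_LOG → S_CHE → S_LOW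

/-- PR-ASY: the final asymptotics -/
def S_ASY : Prop := S_BIL → S_EQ → S_LA → S_BOX → S_KEY → CntP → S_SIE → S_HAL → S_BAD → S_FEW →
  S_MER → S_LOW → S_ETA → S_DQ

end Pool.Agent.NH5.PR
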