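import Pool.Agent.NH5.PR.Stm
import Pool.Agent.Y362.CQ.FEW

/-!
# PR-FEW: few sets have few large primes of type `A` or `B` or no large prime of type `I` (helper17)
-/

set_option autoImplicit false

open scoped Classical

namespace Pool.Agent.NH5.PR.Few

open Finset Filter
open Pool.Agent.NH1 (sq2 sq7 sS sI sA sB)
open Pool.Agent.Y703.CX (sm la eL zz S_SIE)
open Pool.Agent.Y703.CQ (S_MER)
open Pool.Agent.Y495.CX.Few (PN euler prod_pos' le_of_mem_prod mert eL_tendsto log_small zz_ge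
  loglog_zz rpow_eq)
open Pool.Agent.Y362.CQ (moment mer_set)

lemma AA_mem {X : ℕ} {S : Finset ℕ} (h : S ∈ AA X) :
    (∀ p ∈ S, p.Prime ∧ p ≠ 2 ∧ p ≠ 7) ∧ ∏ p ∈ S, p ≤ X := by
  unfold AA at h
  rw [mem_filter] at h
  exact h.2

/-- sets with many small primes -/
lemma part1 : ∃ C : ℝ, 0 ≤ C ∧ ∀ᶠ X : ℕ in atTop,
    (((AA X).filter fun S => eL X / 80 < ((sm (zz X) S).card : ℝ)).card : ℝ) ≤
      C * X * Real.exp (-(4 / 5) * eL X) := by
  obtain ⟨C, hC0, hC⟩ := mert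
  set κ : ℝ := Real.exp 80 with hκ
  have κ0 : 0 < κ := Real.exp_pos _
  refine ⟨Real.exp (κ * C), (Real.exp_pos _).le, ?_⟩
  filter_upwards [eL_tendsto.eventually (log_small (3 * κ) (1 / 5) (by norm_num)),
    eL_tendsto.eventually (eventually_ge_atTop 2)] with X h1 h2
  have h3 := moment X (zz X) (AA X)
    (fun S hS => ⟨fun p hp => ((AA_mem hS).1 p hp).1, (AA_mem hS).2⟩) κ κ0.le
  have h4 := hC (zz X) (zz_ge h2)
  have h5 := loglog_zz h2
  have h6 : (((AA X).filter fun S => eL X / 80 < ((sm (zz X) S).card : ℝ)).card : ℝ) *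
      Real.exp (eL X) ≤ ∑ S ∈ AA X, κ ^ (sm (zz X) S).card := by
    rw [← nsmul_eq_mul, ← sum_const]
    refine le_trans ?_ (sum_le_sum_of_subset_of_nonneg
      (filter_subset (fun S => eL X / 80 < ((sm (zz X) S).card : ℝ)) (AA X))
      fun S _ _ => by positivity)
    refine sum_le_sum fun S hS => ?_
    rw [mem_filter] at hS
    rw [hκ, ← Real.exp_nat_mul]
    apply Real.exp_le_exp.2
    linarith [hS.2]
  have h7 := h6.trans h3
  have h8 : κ * ∑ p ∈ PN (zz X), (1 : ℝ) / p ≤ κ * C + 1 / 5 * eL X := by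
    have : κ * ∑ p ∈ PN (zz X), (1 : ℝ) / p ≤ κ * (3 * Real.log (eL X) + C) :=
      mul_le_mul_of_nonneg_left (by linarith) κ0.le
    nlinarith
  have h9 : (X : ℝ) * Real.exp (κ * ∑ p ∈ PN (zz X), (1 : ℝ) / p) ≤
      X * (Real.exp (κ * C) * Real.exp (1 / 5 * eL X)) := by
    rw [← Real.exp_add]
    exact mul_le_mul_of_nonneg_left (Real.exp_le_exp.2 h8) (Nat.cast_nonneg _)
  have h10 := h7.trans h9
  have h11 : (Real.exp (κ * C) * X * Real.exp (-(4 / 5) * eL X)) * Real.exp (eL X) =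
      X * (Real.exp (κ * C) * Real.exp (1 / 5 * eL X)) := by
    have : Real.exp (1 / 5 * eL X) = Real.exp (-(4 / 5) * eL X) * Real.exp (eL X) := by
      rw [← Real.exp_add]
      congr 1
      ring
    rw [this]
    ring
  rw [← h11] at h10
  exact le_of_mul_le_mul_right h10 (Real.exp_pos _)

/-- the residue classes prime to `56` -/
def Cop : Finset ℕ := (range 56).filter fun a => Nat.Coprime a 56

lemma Cop_cop : ∀ a ∈ Cop, Nat.Coprime a 56 ∧ a % 56 = a := by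
  intro a ha
  unfold Cop at ha
  rw [mem_filter, mem_range] at ha
  exact ⟨ha.2, Nat.mod_eq_of_lt ha.1⟩

lemma mod_mem_Cop {p : ℕ} (hp : p.Prime) (h2 : p ≠ 2) (h7 : p ≠ 7) : p % 56 ∈ Cop := by
  unfold Cop
  rw [mem_filter, mem_range]
  refine ⟨Nat.mod_lt _ (by norm_num), ?_⟩
  have h : Nat.Coprime p 56 := by
    rw [show (56 : ℕ) = 2 ^ 3 * 7 by norm_num]
    refine Nat.Coprime.mul_right (Nat.Coprime.pow_right _ ?_) ?_
    · exact (Nat.coprime_primes hp Nat.prime_two).2 h2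
    · exact (Nat.coprime_primes hp (by norm_num)).2 h7
  unfold Nat.Coprime at h ⊢
  rw [(Nat.mod_modEq p 56).gcd_eq, h]

/-- the reciprocals of the primes in a set of classes -/
lemma mer_A (hm : S_MER) (A : Finset ℕ) (hA : A ⊆ Cop) : ∃ C : ℝ, 0 ≤ C ∧ ∀ y : ℕ, 3 ≤ y →
    ∑ p ∈ (PN y).filter (fun p => p % 56 ∈ A), (1 : ℝ) / p ≤
      (A.card : ℝ) / 24 * Real.log (Real.log y) + C :=
  mer_set hm A fun a ha => Cop_cop a (hA ha)

/-- a family of sets of primes with a condition -/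
noncomputable def LL (X : ℕ) (Q : Finset ℕ → Prop) : Finset (Finset ℕ) :=
  (range (X + 1)).powerset.filter fun S => (∀ p ∈ S, p.Prime ∧ p ≠ 2 ∧ p ≠ 7) ∧
    ∏ p ∈ S, p ≤ X ∧ Q S

lemma mem_LL {X : ℕ} {Q : Finset ℕ → Prop} {S : Finset ℕ} :
    S ∈ LL X Q ↔ S ⊆ range (X + 1) ∧
      (∀ p ∈ S, p.Prime ∧ p ≠ 2 ∧ p ≠ 7) ∧ ∏ p ∈ S, p ≤ X ∧ Q S := by
  unfold LL
  rw [mem_filter, mem_powerset]

lemma LL_sub {X : ℕ} {Q : Finset ℕ → Prop} (hQ : ∀ S, Q S → ∀ T, T ⊆ S → Q T)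
    {S T : Finset ℕ} (hS : S ∈ LL X Q) (h : T ⊆ S) : T ∈ LL X Q := by
  rw [mem_LL] at hS ⊢
  obtain ⟨a0, a1, a2, a3⟩ := hS
  refine ⟨h.trans a0, fun p hp => a1 p (h hp), ?_, hQ S a3 T h⟩
  refine le_trans ?_ a2
  exact prod_le_prod_of_subset_of_one_le' h fun p hp _ => (a1 p hp).1.one_lt.le

lemma mem_LL_of {X : ℕ} {Q : Finset ℕ → Prop} {S : Finset ℕ}
    (hS : S ∈ AA X) (hQ : Q S) : S ∈ LL X Q := by
  obtain ⟨a1, a3⟩ := AA_mem hS
  rw [mem_LL]
  refine ⟨?_, a1, a3, hQ⟩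
  intro p hp
  rw [mem_range]
  have := le_of_mem_prod (fun p hp => (a1 p hp).1) a3 hp
  omega

/-- the logarithmic density of a family -/
lemma LL_sum (A : Finset ℕ) (X z : ℕ) (Q : Finset ℕ → Prop) (w : ℕ → ℝ)
    (M s : ℝ) (hw : ∀ p, 0 ≤ w p) (hM : 0 ≤ M) (hs : 0 ≤ s)
    (h1w : ∀ S ∈ LL X Q, 1 ≤ M * ∏ p ∈ S, w p)
    (hz : ∀ p, w p ≤ 1) (hS : ∀ p, p % 56 ∈ A → z < p → w p ≤ s) :
    ∑ S ∈ LL X Q, (1 : ℝ) / ((∏ p ∈ S, p : ℕ) : ℝ) ≤ M *
      Real.exp (∑ p ∈ PN z, (1 : ℝ) / p + s * ∑ p ∈ (PN X).filter (fun p => p % 56 ∈ A), (1 : ℝ) / p +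
        ∑ p ∈ (PN X).filter (fun p => p % 56 ∈ Cop \ A), (1 : ℝ) / p) := by
  have h1 : ∀ S ∈ LL X Q, (1 : ℝ) / ((∏ p ∈ S, p : ℕ) : ℝ) ≤
      M * ∏ p ∈ S, (w p * (1 / p)) := by
    intro S hS
    have h2 := h1w S hS
    have h3 : (0 : ℝ) ≤ ∏ p ∈ S, (1 : ℝ) / p := prod_nonneg fun p _ => by positivity
    have h4 : (1 : ℝ) / ((∏ p ∈ S, p : ℕ) : ℝ) = ∏ p ∈ S, (1 : ℝ) / p := by
      rw [prod_div_distrib, prod_const_one]
      push_cast
      rfl
    rw [h4, prod_mul_distrib]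
    calc ∏ p ∈ S, (1 : ℝ) / p = 1 * ∏ p ∈ S, (1 : ℝ) / p := (one_mul _).symm
      _ ≤ (M * ∏ p ∈ S, w p) * ∏ p ∈ S, (1 : ℝ) / p :=
          mul_le_mul_of_nonneg_right h2 h3
      _ = _ := by ring
  refine (sum_le_sum h1).trans ?_
  rw [← mul_sum]
  apply mul_le_mul_of_nonneg_left _ hM
  have hnn : ∀ p : ℕ, 0 ≤ w p * (1 / (p : ℝ)) := fun p => mul_nonneg (hw p) (by positivity)
  set PP := (PN X).filter fun p => p % 56 ∈ Cop with hPP
  have h5 : ∑ S ∈ LL X Q, ∏ p ∈ S, (w p * (1 / (p : ℝ))) ≤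
      ∑ S ∈ PP.powerset, ∏ p ∈ S, (w p * (1 / (p : ℝ))) := by
    refine sum_le_sum_of_subset_of_nonneg ?_ fun S _ _ => prod_nonneg fun p _ => hnn p
    intro S hS
    rw [mem_LL] at hS
    rw [mem_powerset]
    intro p hp
    have h6 := hS.2.1 p hp
    rw [hPP, mem_filter, mem_filter, mem_Icc]
    exact ⟨⟨⟨h6.1.one_lt.le, le_of_mem_prod (fun p hp => (hS.2.1 p hp).1) hS.2.2.1 hp⟩, h6.1⟩,
      mod_mem_Cop h6.1 h6.2.1 h6.2.2⟩
  refine h5.trans ((euler _ _ fun p _ => hnn p).trans ?_)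
  apply Real.exp_le_exp.2
  have h6 : ∀ p ∈ PP, w p * (1 / (p : ℝ)) ≤
      (if p ≤ z then (1 : ℝ) / p else 0) + ((if p % 56 ∈ A then s * (1 / (p : ℝ)) else 0) +
        (if p % 56 ∈ Cop \ A then 1 / (p : ℝ) else 0)) := by
    intro p hp
    have hp0 : (0 : ℝ) ≤ 1 / p := by positivity
    have e1 : (0 : ℝ) ≤ if p % 56 ∈ A then s * (1 / (p : ℝ)) else 0 := by
      split_ifs
      · positivity
      · exact le_refl _
    have e2 : (0 : ℝ) ≤ if p % 56 ∈ Cop \ A then 1 / (p : ℝ) else 0 := by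
      split_ifs
      · positivity
      · exact le_refl _
    by_cases hpz : p ≤ z
    · rw [if_pos hpz]
      have := mul_le_mul_of_nonneg_right (hz p) hp0
      linarith
    · rw [if_neg hpz]
      by_cases h : p % 56 ∈ A
      · rw [if_pos h]
        have := mul_le_mul_of_nonneg_right (hS p h (not_le.1 hpz)) hp0
        linarith
      · rw [if_pos (mem_sdiff.2 ⟨(mem_filter.1 hp).2, h⟩)]
        have := mul_le_mul_of_nonneg_right (hz p) hp0
        linarith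
  refine (sum_le_sum h6).trans ?_
  have h7 : ∑ p ∈ PP,
      ((if p ≤ z then (1 : ℝ) / p else 0) + ((if p % 56 ∈ A then s * (1 / (p : ℝ)) else 0) +
        (if p % 56 ∈ Cop \ A then 1 / (p : ℝ) else 0))) ≤
      ∑ p ∈ PN X, ((if p ≤ z then (1 : ℝ) / p else 0) +
        ((if p % 56 ∈ A then s * (1 / (p : ℝ)) else 0) +
        (if p % 56 ∈ Cop \ A then 1 / (p : ℝ) else 0))) := by
    refine sum_le_sum_of_subset_of_nonneg (filter_subset _ _) fun p _ _ => ?_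
    have hp0 : (0 : ℝ) ≤ 1 / p := by positivity
    have e0 : (0 : ℝ) ≤ if p ≤ z then (1 : ℝ) / p else 0 := by
      split_ifs
      · exact hp0
      · exact le_refl _
    have e1 : (0 : ℝ) ≤ if p % 56 ∈ A then s * (1 / (p : ℝ)) else 0 := by
      split_ifs
      · positivity
      · exact le_refl _
    have e2 : (0 : ℝ) ≤ if p % 56 ∈ Cop \ A then 1 / (p : ℝ) else 0 := by
      split_ifs
      · positivity
      · exact le_refl _
    linarith
  refine h7.trans ?_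
  rw [sum_add_distrib, sum_add_distrib, ← sum_filter, ← sum_filter, ← sum_filter, ← mul_sum,
    ← add_assoc]
  gcongr
  intro p hp
  rw [mem_filter, mem_filter, mem_Icc] at hp
  rw [mem_filter, mem_Icc]
  exact ⟨⟨hp.1.1.1, hp.2⟩, hp.1.2⟩

/-- the number of the elements of a family closed under subsets -/
lemma part2 (hs : S_SIE) (hm : S_MER) (A : Finset ℕ) (hA : A ⊆ Cop) (hA6 : A.card = 6)
    (s e : ℝ) (hs0 : 0 ≤ s)
    (Q : ℕ → Finset ℕ → Prop) (hQ : ∀ X S, Q X S → ∀ T, T ⊆ S → Q X T)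
    (w : ℕ → ℕ → ℝ) (hw : ∀ X p, 0 ≤ w X p) (hz : ∀ X p, w X p ≤ 1)
    (hS : ∀ X p, p % 56 ∈ A → zz X < p → w X p ≤ s)
    (h1w : ∀ X, 2 ≤ eL X → ∀ S ∈ LL X (Q X), 1 ≤ Real.exp (e * eL X) * ∏ p ∈ S, w X p)
    {r : ℝ} (hr : -1 + e + s / 4 + 3 / 4 < r) :
    ∃ C : ℝ, 0 ≤ C ∧ ∀ᶠ X : ℕ in atTop,
    ((LL X (Q X)).card : ℝ) ≤ C * X * Real.exp (r * eL X) := by
  obtain ⟨C, hC0, hC⟩ := mert
  obtain ⟨C₁, hC₁0, hC₁⟩ := mer_A hm A hA
  obtain ⟨C₂, hC₂0, hC₂⟩ := mer_A hm (Cop \ A) sdiff_subset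
  obtain ⟨C', hC'1, hC'⟩ := hs
  have hc24 : Cop.card = 24 := by decide
  have hc18 : (Cop \ A).card = 18 := by
    rw [card_sdiff_of_subset hA, hc24, hA6]
  refine ⟨C' * Real.exp (C + s * C₁ + C₂), by positivity, ?_⟩
  have hε : 0 < r - (-1 + e + s / 4 + 3 / 4) := by linarith
  filter_upwards [eL_tendsto.eventually (log_small 3 _ hε),
    eL_tendsto.eventually (eventually_ge_atTop 2), eventually_ge_atTop 3] with X h1 h2 h3
  set l := eL X with hl
  have h4 := hC (zz X) (zz_ge h2)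
  have h5 := loglog_zz h2
  have h6 := hC₁ X h3
  have h6' := hC₂ X h3
  rw [← hl] at h5
  rw [hA6] at h6
  rw [hc18] at h6'
  change _ ≤ ((6 : ℕ) : ℝ) / 24 * l + C₁ at h6
  change _ ≤ ((18 : ℕ) : ℝ) / 24 * l + C₂ at h6'
  push_cast at h6 h6'
  have h7 := hC' X (LL X (Q X)) (by omega)
    (fun S hS => ⟨fun p hp => ((mem_LL.1 hS).2.1 p hp).1, (mem_LL.1 hS).2.2.1⟩)
    (fun S hS T hT => LL_sub (hQ X) hS hT)
  have h8 := LL_sum A X (zz X) (Q X) (w X) (Real.exp (e * l)) s (hw X) (Real.exp_pos _).le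
    hs0 (h1w X h2) (hz X) (hS X)
  have hlX : Real.log X = Real.exp l := by
    have := rpow_eq (X := X) h2 1
    rwa [Real.rpow_one, one_mul] at this
  rw [hlX] at h7
  have h9 : s * ∑ p ∈ (PN X).filter (fun p => p % 56 ∈ A), (1 : ℝ) / p ≤
      s * (6 / 24 * l + C₁) :=
    mul_le_mul_of_nonneg_left h6 hs0
  have h12 : Real.exp (e * l) * Real.exp (∑ p ∈ PN (zz X), (1 : ℝ) / p +
      s * ∑ p ∈ (PN X).filter (fun p => p % 56 ∈ A), (1 : ℝ) / p +
        ∑ p ∈ (PN X).filter (fun p => p % 56 ∈ Cop \ A), (1 : ℝ) / p) ≤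
      Real.exp (C + s * C₁ + C₂) * Real.exp ((r + 1) * l) := by
    rw [← Real.exp_add, ← Real.exp_add]
    apply Real.exp_le_exp.2
    have e1 : ∑ p ∈ PN (zz X), (1 : ℝ) / p ≤ 3 * Real.log l + C := by linarith
    calc e * l + (∑ p ∈ PN (zz X), (1 : ℝ) / p +
        s * ∑ p ∈ (PN X).filter (fun p => p % 56 ∈ A), (1 : ℝ) / p +
        ∑ p ∈ (PN X).filter (fun p => p % 56 ∈ Cop \ A), (1 : ℝ) / p)
        ≤ e * l + ((r - (-1 + e + s / 4 + 3 / 4)) * l + C +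
          s * (6 / 24 * l + C₁) + (18 / 24 * l + C₂)) := by linarith
      _ = C + s * C₁ + C₂ + (r + 1) * l := by ring
  have h13 : ((LL X (Q X)).card : ℝ) * Real.exp l ≤
      C' * X * (Real.exp (C + s * C₁ + C₂) * Real.exp ((r + 1) * l)) := by
    refine h7.trans ?_
    exact mul_le_mul_of_nonneg_left (h8.trans h12) (by positivity)
  have h14 : (C' * Real.exp (C + s * C₁ + C₂) * X * Real.exp (r * l)) * Real.exp l =
      C' * X * (Real.exp (C + s * C₁ + C₂) * Real.exp ((r + 1) * l)) := by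
    have : Real.exp ((r + 1) * l) = Real.exp (r * l) * Real.exp l := by
      rw [← Real.exp_add]
      congr 1
      ring
    rw [this]
    ring
  rw [← h14] at h13
  exact le_of_mul_le_mul_right h13 (Real.exp_pos _)

/-- sets without large primes in the classes `A` -/
lemma part3 (hs : S_SIE) (hm : S_MER) (A : Finset ℕ) (hA : A ⊆ Cop) (hA6 : A.card = 6)
    {r : ℝ} (hr : -1 + 3 / 4 < r) : ∃ C : ℝ, 0 ≤ C ∧ ∀ᶠ X : ℕ in atTop,
    ((LL X fun S => ∀ p ∈ la (zz X) S, p % 56 ∉ A).card : ℝ) ≤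
      C * X * Real.exp (r * eL X) := by
  refine part2 hs hm A hA hA6 0 0 le_rfl (fun X S => ∀ p ∈ la (zz X) S, p % 56 ∉ A) ?_
    (fun X p => if ¬ p ≤ zz X ∧ p % 56 ∈ A then 0 else 1) ?_ ?_ ?_ ?_ ?_
  · intro X S h T hT p hp
    refine h p ?_
    unfold la at hp ⊢
    rw [mem_filter] at hp ⊢
    exact ⟨hT hp.1, hp.2⟩
  · intro X p
    split_ifs <;> norm_num
  · intro X p
    split_ifs <;> norm_num
  · intro X p h h'
    rw [if_pos ⟨not_le.2 h', h⟩]
  · intro X _ S hS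
    rw [mem_LL] at hS
    rw [zero_mul, Real.exp_zero, one_mul]
    refine le_of_eq (Eq.symm (prod_eq_one fun p hp => ?_))
    rw [if_neg]
    rintro ⟨h1, h2⟩
    exact hS.2.2.2 p (mem_filter.2 ⟨hp, h1⟩) h2
  · linarith

/-- sets with few large primes in the classes `A` -/
lemma part4 (hs : S_SIE) (hm : S_MER) (A : Finset ℕ) (hA : A ⊆ Cop) (hA6 : A.card = 6)
    {r : ℝ} (hr : -1 + 1 / 16 + 3 / 4 + 3 / 40 ≤ r) : ∃ C : ℝ, 0 ≤ C ∧ ∀ᶠ X : ℕ in atTop,
    ((LL X fun S => ((la (zz X) S).filter fun p => p % 56 ∈ A).card ≤ ⌊eL X / 32⌋₊).card : ℝ) ≤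
      C * X * Real.exp (r * eL X) := by
  have hl4 : Real.log 4 / 32 < 3 / 40 := by
    have h1 : (4 : ℝ) = 2 ^ 2 := by norm_num
    rw [h1, Real.log_pow]
    have := Real.log_two_lt_d9
    push_cast
    linarith
  refine part2 hs hm A hA hA6 (1 / 4) (Real.log 4 / 32) (by norm_num)
    (fun X S => ((la (zz X) S).filter fun p => p % 56 ∈ A).card ≤ ⌊eL X / 32⌋₊) ?_
    (fun X p => if ¬ p ≤ zz X ∧ p % 56 ∈ A then 1 / 4 else 1) ?_ ?_ ?_ ?_ ?_
  · intro X S h T hT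
    refine (card_le_card (filter_subset_filter _ ?_)).trans h
    unfold la
    exact filter_subset_filter _ hT
  · intro X p
    split_ifs <;> norm_num
  · intro X p
    split_ifs <;> norm_num
  · intro X p h h'
    rw [if_pos ⟨not_le.2 h', h⟩]
  · intro X hX S hS
    rw [mem_LL] at hS
    rw [← prod_filter, prod_const]
    have h1 : (S.filter fun p => ¬ p ≤ zz X ∧ p % 56 ∈ A).card ≤ ⌊eL X / 32⌋₊ := by
      refine (card_le_card ?_).trans hS.2.2.2
      intro p hp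
      rw [mem_filter] at hp
      unfold la
      rw [mem_filter, mem_filter]
      exact ⟨⟨hp.1, hp.2.1⟩, hp.2.2⟩
    have h2 : (1 / 4 : ℝ) ^ ⌊eL X / 32⌋₊ ≤
        (1 / 4 : ℝ) ^ (S.filter fun p => ¬ p ≤ zz X ∧ p % 56 ∈ A).card :=
      pow_le_pow_of_le_one (by norm_num) (by norm_num) h1
    have h3 : Real.exp (-(Real.log 4 / 32 * eL X)) ≤ (1 / 4 : ℝ) ^ ⌊eL X / 32⌋₊ := by
      have e1 : (1 / 4 : ℝ) = Real.exp (-Real.log 4) := by
        rw [Real.exp_neg, Real.exp_log (by norm_num)]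
        norm_num
      rw [e1, ← Real.exp_nat_mul]
      apply Real.exp_le_exp.2
      have e2 : ((⌊eL X / 32⌋₊ : ℕ) : ℝ) ≤ eL X / 32 := Nat.floor_le (by linarith)
      have e4 : 0 ≤ Real.log 4 := Real.log_nonneg (by norm_num)
      have e5 := mul_le_mul_of_nonneg_right e2 e4
      linarith
    calc (1 : ℝ) = Real.exp (Real.log 4 / 32 * eL X) *
          Real.exp (-(Real.log 4 / 32 * eL X)) := by
          rw [← Real.exp_add, add_neg_cancel, Real.exp_zero]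
      _ ≤ _ := mul_le_mul_of_nonneg_left (h3.trans h2) (Real.exp_pos _).le
  · linarith

/-- the classes of type `A` -/
def cA : Finset ℕ := (range 56).filter fun a => (a % 8 = 1 ∨ a % 8 = 7) ∧
  (a % 7 = 3 ∨ a % 7 = 5 ∨ a % 7 = 6)

/-- the classes of type `B` -/
def cB : Finset ℕ := (range 56).filter fun a => (a % 8 = 3 ∨ a % 8 = 5) ∧
  (a % 7 = 1 ∨ a % 7 = 2 ∨ a % 7 = 4)

/-- the classes of type `I` -/
def cI : Finset ℕ := (range 56).filter fun a => (a % 8 = 3 ∨ a % 8 = 5) ∧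
  (a % 7 = 3 ∨ a % 7 = 5 ∨ a % 7 = 6)

lemma cA_card : cA.card = 6 := by decide
lemma cB_card : cB.card = 6 := by decide
lemma cI_card : cI.card = 6 := by decide
lemma cA_sub : cA ⊆ Cop := by decide
lemma cB_sub : cB ⊆ Cop := by decide
lemma cI_sub : cI ⊆ Cop := by decide

lemma mods {p : ℕ} (hp : p.Prime) (h2 : p ≠ 2) (h7 : p ≠ 7) : p % 2 = 1 ∧ p % 7 ≠ 0 := by
  constructor
  · rcases hp.eq_two_or_odd with h | h
    · exact absurd h h2
    · exact h
  · intro h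
    exact h7 ((Nat.prime_dvd_prime_iff_eq (by norm_num) hp).1 (Nat.dvd_of_mod_eq_zero h)).symm

lemma fA {S : Finset ℕ} (hS : ∀ p ∈ S, p.Prime ∧ p ≠ 2 ∧ p ≠ 7) :
    S.filter (fun p => p % 56 ∈ cA) = sA S := by
  unfold sA
  refine filter_congr fun p hp => ?_
  obtain ⟨h1, h2, h3⟩ := hS p hp
  obtain ⟨h4, h5⟩ := mods h1 h2 h3
  have h6 : p % 56 < 56 := Nat.mod_lt _ (by norm_num)
  have h7 : p % 56 % 8 = p % 8 := Nat.mod_mod_of_dvd p (by norm_num)
  have h8 : p % 56 % 7 = p % 7 := Nat.mod_mod_of_dvd p (by norm_num)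
  have h9 : p % 7 < 7 := Nat.mod_lt _ (by norm_num)
  have h10 : p % 8 < 8 := Nat.mod_lt _ (by norm_num)
  have h11 : p % 8 % 2 = p % 2 := Nat.mod_mod_of_dvd p (by norm_num)
  unfold cA sq2 sq7
  rw [mem_filter, mem_range, h7, h8]
  generalize p % 7 = u at *
  generalize p % 8 = v at *
  generalize p % 56 = t at *
  omega

lemma fB {S : Finset ℕ} (hS : ∀ p ∈ S, p.Prime ∧ p ≠ 2 ∧ p ≠ 7) :
    S.filter (fun p => p % 56 ∈ cB) = sB S := by
  unfold sB
  refine filter_congr fun p hp => ?_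
  obtain ⟨h1, h2, h3⟩ := hS p hp
  obtain ⟨h4, h5⟩ := mods h1 h2 h3
  have h6 : p % 56 < 56 := Nat.mod_lt _ (by norm_num)
  have h7 : p % 56 % 8 = p % 8 := Nat.mod_mod_of_dvd p (by norm_num)
  have h8 : p % 56 % 7 = p % 7 := Nat.mod_mod_of_dvd p (by norm_num)
  have h9 : p % 7 < 7 := Nat.mod_lt _ (by norm_num)
  have h10 : p % 8 < 8 := Nat.mod_lt _ (by norm_num)
  have h11 : p % 8 % 2 = p % 2 := Nat.mod_mod_of_dvd p (by norm_num)
  unfold cB sq2 sq7
  rw [mem_filter, mem_range, h7, h8]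
  generalize p % 7 = u at *
  generalize p % 8 = v at *
  generalize p % 56 = t at *
  omega

lemma fI {S : Finset ℕ} (hS : ∀ p ∈ S, p.Prime ∧ p ≠ 2 ∧ p ≠ 7) :
    S.filter (fun p => p % 56 ∈ cI) = sI S := by
  unfold sI
  refine filter_congr fun p hp => ?_
  obtain ⟨h1, h2, h3⟩ := hS p hp
  obtain ⟨h4, h5⟩ := mods h1 h2 h3
  have h6 : p % 56 < 56 := Nat.mod_lt _ (by norm_num)
  have h7 : p % 56 % 8 = p % 8 := Nat.mod_mod_of_dvd p (by norm_num)
  have h8 : p % 56 % 7 = p % 7 := Nat.mod_mod_of_dvd p (by norm_num)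
  have h9 : p % 7 < 7 := Nat.mod_lt _ (by norm_num)
  have h10 : p % 8 < 8 := Nat.mod_lt _ (by norm_num)
  have h11 : p % 8 % 2 = p % 2 := Nat.mod_mod_of_dvd p (by norm_num)
  unfold cI sq2 sq7
  rw [mem_filter, mem_range, h7, h8]
  generalize p % 7 = u at *
  generalize p % 8 = v at *
  generalize p % 56 = t at *
  omega

end Few

open Few Finset Filter
open Pool.Agent.NH1 (sq2 sq7 sS sI sA sB)
open Pool.Agent.Y703.CX (sm la eL zz S_SIE)
open Pool.Agent.Y495.CX.Few (eL_tendsto rpow_eq)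

theorem t_FEW : S_FEW := by
  intro hs _ hm V
  set r : ℝ := -1 / 32 with hr
  obtain ⟨C₁, hC₁, h1⟩ := part1
  obtain ⟨C₂, hC₂, h2⟩ := part3 hs hm cI cI_sub cI_card (r := r) (by rw [hr]; norm_num)
  obtain ⟨C₃, hC₃, h3⟩ := part4 hs hm cA cA_sub cA_card (r := r) (by rw [hr]; norm_num)
  obtain ⟨C₄, hC₄, h3'⟩ := part4 hs hm cB cB_sub cB_card (r := r) (by rw [hr]; norm_num)
  have h4 := (((h1.and h2).and h3).and h3').and
    (eL_tendsto.eventually (eventually_ge_atTop (max 2 (160 * (V : ℝ)))))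
  rw [eventually_atTop] at h4
  obtain ⟨X₀, hX₀⟩ := h4
  refine ⟨C₁ + C₂ + C₃ + C₄, X₀, fun X hX => ?_⟩
  obtain ⟨⟨⟨⟨h5, h6⟩, h7⟩, h7'⟩, h8⟩ := hX₀ X hX
  have h9 : 2 ≤ eL X := (le_max_left _ _).trans h8
  have h10 : 160 * (V : ℝ) ≤ eL X := (le_max_right _ _).trans h8
  rw [rpow_eq h9]
  set F1 := (AA X).filter fun S => eL X / 80 < ((sm (zz X) S).card : ℝ) with hF1
  set F2 := LL X (fun S => ∀ p ∈ la (zz X) S, p % 56 ∉ cI) with hF2
  set F3 := LL X fun S => ((la (zz X) S).filter fun p => p % 56 ∈ cA).card ≤ ⌊eL X / 32⌋₊ with hF3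
  set F4 := LL X fun S => ((la (zz X) S).filter fun p => p % 56 ∈ cB).card ≤ ⌊eL X / 32⌋₊ with hF4
  have h11 : ((AA X).filter fun S => (sA (la (zz X) S)).card ≤ (sm (zz X) S).card + V ∨
      (sB (la (zz X) S)).card ≤ (sm (zz X) S).card + V ∨ sI (la (zz X) S) = ∅) ⊆
      F1 ∪ (F2 ∪ (F3 ∪ F4)) := by
    intro S hS
    rw [mem_filter] at hS
    have hla : ∀ p ∈ la (zz X) S, p.Prime ∧ p ≠ 2 ∧ p ≠ 7 := fun p hp =>
      (AA_mem hS.1).1 p (mem_filter.1 hp).1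
    rw [mem_union, mem_union, mem_union]
    by_cases hc : eL X / 80 < ((sm (zz X) S).card : ℝ)
    · exact Or.inl (mem_filter.2 ⟨hS.1, hc⟩)
    right
    rw [not_lt] at hc
    rcases hS.2 with h | h | h
    · right; left
      refine mem_LL_of hS.1 ?_
      rw [fA hla]
      apply Nat.le_floor
      have h12 : (((sA (la (zz X) S)).card : ℕ) : ℝ) ≤ ((sm (zz X) S).card : ℝ) + V := by
        exact_mod_cast h
      linarith
    · right; right
      refine mem_LL_of hS.1 ?_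
      rw [fB hla]
      apply Nat.le_floor
      have h12 : (((sB (la (zz X) S)).card : ℕ) : ℝ) ≤ ((sm (zz X) S).card : ℝ) + V := by
        exact_mod_cast h
      linarith
    · left
      refine mem_LL_of hS.1 ?_
      intro p hp hpI
      have : p ∈ sI (la (zz X) S) := by
        rw [← fI hla]
        exact mem_filter.2 ⟨hp, hpI⟩
      rw [h] at this
      exact absurd this (notMem_empty p)
  have h12 : (((AA X).filter fun S => (sA (la (zz X) S)).card ≤ (sm (zz X) S).card + V ∨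
      (sB (la (zz X) S)).card ≤ (sm (zz X) S).card + V ∨ sI (la (zz X) S) = ∅).card : ℝ) ≤
      (F1.card : ℝ) + ((F2.card : ℝ) + ((F3.card : ℝ) + (F4.card : ℝ))) := by
    exact_mod_cast (card_le_card h11).trans ((card_union_le _ _).trans
      (Nat.add_le_add_left ((card_union_le _ _).trans
        (Nat.add_le_add_left (card_union_le _ _) _)) _))
  have h13 : C₁ * X * Real.exp (-(4 / 5) * eL X) ≤ C₁ * X * Real.exp (r * eL X) := by
    apply mul_le_mul_of_nonneg_left _ (by positivity)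
    apply Real.exp_le_exp.2
    apply mul_le_mul_of_nonneg_right _ (by linarith)
    rw [hr]; norm_num
  refine h12.trans ((add_le_add (h5.trans h13) (add_le_add h6 (add_le_add h7 h7'))).trans
    (le_of_eq ?_))
  ring

end Pool.Agent.NH5.PR
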