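import Pool.Agent.NH5.PR.Stm
import Pool.Agent.Y710.CQ.BIL

/-!
PR-BIL: bilinear sums of quadratic symbols, the primes of each set in a fixed class modulo `4`.
-/

set_option autoImplicit false

open Finset

namespace Pool.Agent.NH5.PR

open Pool.Agent.Y703.CQ (nr sg)
open Pool.Agent.Y710.CQ (xi sg_xi bil)

theorem t_BIL : S_BIL := by
  refine ⟨3 * 6 ^ 6, by norm_num, ?_⟩
  intro P Q A B z s t c d hP hQ hdis hz hzA hzB hc hd
  have hne : ∀ p ∈ P, ∀ q ∈ Q, p ≠ q := fun p hp q hq he =>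
    (Finset.disjoint_left.1 hdis) hp (he ▸ hq)
  have hzr : (1 : ℝ) ≤ z := by exact_mod_cast hz
  have hP' : ∀ p ∈ P, p.Prime ∧ p ≠ 2 ∧ p ≤ A := by
    intro p hp
    obtain ⟨h1, h2, h3, h4⟩ := hP p hp
    exact ⟨h1, h2, h4⟩
  have hQ' : ∀ p ∈ Q, p.Prime ∧ p ≠ 2 ∧ p ≤ B := by
    intro p hp
    obtain ⟨h1, h2, h3, h4⟩ := hQ p hp
    exact ⟨h1, h2, h4⟩
  rcases le_total B A with hBA | hAB
  · -- the reciprocity law
    obtain ⟨σ, hσ1, hσ⟩ : ∃ σ : ℂ, ‖σ‖ ≤ 1 ∧ ∀ p ∈ P, ∀ q ∈ Q, xi p q = σ * xi q p := by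
      by_cases h : s = 3 ∧ t = 3
      · refine ⟨-1, by simp, fun p hp q hq => ?_⟩
        obtain ⟨p1, p2, p3, -⟩ := hP p hp
        obtain ⟨q1, q2, q3, -⟩ := hQ q hq
        unfold xi
        rw [jacobiSym.quadratic_reciprocity_three_mod_four (a := q) (b := p) (by omega) (by omega)]
        push_cast
        ring
      · refine ⟨1, by simp, fun p hp q hq => ?_⟩
        obtain ⟨p1, p2, p3, -⟩ := hP p hp
        obtain ⟨q1, q2, q3, -⟩ := hQ q hq
        have po := p1.eq_two_or_odd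
        have qo := q1.eq_two_or_odd
        unfold xi
        rw [one_mul]
        by_cases hs : p % 4 = 1
        · rw [jacobiSym.quadratic_reciprocity_one_mod_four (a := p) (b := q) hs
            (q1.odd_of_ne_two q2)]
        · have ht : q % 4 = 1 := by
            by_contra ht
            apply h
            omega
          rw [jacobiSym.quadratic_reciprocity_one_mod_four (a := q) (b := p) ht
            (p1.odd_of_ne_two p2)]
    have e1 : ∑ p ∈ P, ∑ q ∈ Q, c p * d q * sg (nr p q) =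
        ∑ q ∈ Q, ∑ p ∈ P, (σ * d q) * c p * xi q p := by
      rw [sum_comm]
      refine sum_congr rfl fun q hq => sum_congr rfl fun p hp => ?_
      rw [sg_xi (hP' p hp).1 (hQ' q hq).1 (hne p hp q hq), hσ p hp q hq]
      ring
    rw [e1]
    have hσd : ∀ q, ‖σ * d q‖ ≤ 1 := by
      intro q
      rw [norm_mul]
      exact mul_le_one₀ hσ1 (norm_nonneg _) (hd q)
    have h1 := bil (hz.trans hzB) hBA hQ' hP' (fun q => σ * d q) c hσd hc
    have h2 : (z : ℝ) ≤ B := by exact_mod_cast hzB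
    calc ‖∑ q ∈ Q, ∑ p ∈ P, (σ * d q) * c p * xi q p‖ ^ 12 * z ≤
        (3 * 6 ^ 6 * ((B : ℝ) ^ 11 * (A : ℝ) ^ 12)) * B := by
          apply mul_le_mul h1 h2 (by positivity) (by positivity)
      _ = 3 * 6 ^ 6 * ((A : ℝ) * B) ^ 12 := by ring
  · have e1 : ∑ p ∈ P, ∑ q ∈ Q, c p * d q * sg (nr p q) =
        ∑ p ∈ P, ∑ q ∈ Q, c p * d q * xi p q := by
      refine sum_congr rfl fun p hp => sum_congr rfl fun q hq => ?_
      rw [sg_xi (hP p hp).1 (hQ q hq).1 (hne p hp q hq)]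
    rw [e1]
    have h1 := bil (hz.trans hzA) hAB hP' hQ' c d hc hd
    have h2 : (z : ℝ) ≤ A := by exact_mod_cast hzA
    calc ‖∑ p ∈ P, ∑ q ∈ Q, c p * d q * xi p q‖ ^ 12 * z ≤
        (3 * 6 ^ 6 * ((A : ℝ) ^ 11 * (B : ℝ) ^ 12)) * A := by
          apply mul_le_mul h1 h2 (by positivity) (by positivity)
      _ = 3 * 6 ^ 6 * ((A : ℝ) * B) ^ 12 := by ring

end Pool.Agent.NH5.PR
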