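import Pool.Agent.NH5.PR.LA1

/-!
# Project PR: job PR-2, random structured matrices over `𝔽₂` (helper73 for helper5)
-/

set_option autoImplicit false

open scoped Classical

namespace Pool.Agent.NH5.PR

open Finset Matrix LA1
open Pool.Agent.Y703.CQ (prs)

namespace LA2

abbrev F := ZMod 2

theorem c2 (a : F) : a + a = 0 := CharTwo.add_self_eq_zero a

/-- extension by zero -/
noncomputable def ext0 {I : Type} (S : Finset I) (x : S → F) (i : I) : F :=
  if h : i ∈ S then x ⟨i, h⟩ else 0

section ext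
variable {I : Type} {S : Finset I}

theorem ext0_mem (x : S → F) (i : S) : ext0 S x i = x i := by
  unfold ext0; rw [dif_pos i.2]

theorem ext0_nmem (x : S → F) {i : I} (h : i ∉ S) : ext0 S x i = 0 := by
  unfold ext0; rw [dif_neg h]

theorem ext0_add (x y : S → F) (i : I) : ext0 S (x + y) i = ext0 S x i + ext0 S y i := by
  unfold ext0; split_ifs <;> simp

theorem ext0_zero (i : I) : ext0 S (0 : S → F) i = 0 := by
  unfold ext0; split_ifs <;> simp

theorem ext0_res {x : I → F} (h : ∀ i, i ∉ S → x i = 0) : ext0 S (fun i : S => x i) = x := by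
  funext i
  by_cases hi : i ∈ S
  · exact ext0_mem (fun i : S => x i) ⟨i, hi⟩
  · rw [ext0_nmem _ hi, h i hi]

theorem ext0_eq_zero {x : S → F} (h : ∀ i, ext0 S x i = 0) : x = 0 := by
  funext i
  rw [← ext0_mem x i, h]; rfl

theorem sum_ext0 [Fintype I] (x : S → F) (g : I → F) :
    ∑ i : S, x i * g i = ∑ i, ext0 S x i * g i := by
  have h1 : ∑ i : S, x i * g i = ∑ i : S, ext0 S x i * g i :=
    Finset.sum_congr rfl fun i _ => by rw [ext0_mem]
  rw [h1, Finset.sum_coe_sort S (fun i => ext0 S x i * g i)]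
  refine Finset.sum_subset (Finset.subset_univ _) fun i _ hi => ?_
  rw [ext0_nmem _ hi, zero_mul]

end ext

section sys

variable {U J : Type} [Fintype U] [Fintype J] [LinearOrder J]

/-- the equation of the row `u` -/
noncomputable def EU (A : U → U → F) (B : U → J → F) (f : U → F) (u : U) (x : U → F) (y : J → F) : F :=
  ∑ v, A u v * (x v + x u) + ∑ l, B u l * (y l + x u) + f u * x u

/-- the equation of the row `k` -/
noncomputable def EJ (C : J → U → F) (R : J → J → F) (g : J → F) (k : J) (x : U → F) (y : J → F) : F :=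
  ∑ u, C k u * (x u + y k) + ∑ l, R k l * (y l + y k) + g k * y k

theorem EU_add (A : U → U → F) (B : U → J → F) (f : U → F) (u : U) (x x' : U → F) (y y' : J → F) :
    EU A B f u (fun i => x i + x' i) (fun i => y i + y' i) = EU A B f u x y + EU A B f u x' y' := by
  unfold EU
  have h1 : ∀ v, A u v * (x v + x' v + (x u + x' u)) = A u v * (x v + x u) + A u v * (x' v + x' u) :=
    fun v => by ring
  have h2 : ∀ l, B u l * (y l + y' l + (x u + x' u)) = B u l * (y l + x u) + B u l * (y' l + x' u) :=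
    fun v => by ring
  simp only [h1, h2, Finset.sum_add_distrib]
  ring

theorem EJ_add (C : J → U → F) (R : J → J → F) (g : J → F) (k : J) (x x' : U → F) (y y' : J → F) :
    EJ C R g k (fun i => x i + x' i) (fun i => y i + y' i) = EJ C R g k x y + EJ C R g k x' y' := by
  unfold EJ
  have h1 : ∀ v, C k v * (x v + x' v + (y k + y' k)) = C k v * (x v + y k) + C k v * (x' v + y' k) :=
    fun v => by ring
  have h2 : ∀ l, R k l * (y l + y' l + (y k + y' k)) = R k l * (y l + y k) + R k l * (y' l + y' k) :=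
    fun v => by ring
  simp only [h1, h2, Finset.sum_add_distrib]
  ring

/-- the rows `UR` and `JR ∩ JC` -/
noncomputable def Phi (UR UC : Finset U) (JR JC : Finset J) (A : U → U → F) (B : U → J → F)
    (C : J → U → F) (R : J → J → F) (f : U → F) (g : J → F) :
    ((UC → F) × (JC → F)) →ₗ[F] ((UR → F) × ((JR ∩ JC : Finset J) → F)) :=
  AddMonoidHom.toZModLinearMap 2
    { toFun := fun z => (fun u => EU A B f u (ext0 UC z.1) (ext0 JC z.2),
        fun k => EJ C R g k (ext0 UC z.1) (ext0 JC z.2))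
      map_zero' := by
        have e1 : ext0 UC ((0 : (UC → F) × (JC → F)).1) = fun _ => 0 := funext fun i => ext0_zero i
        have e2 : ext0 JC ((0 : (UC → F) × (JC → F)).2) = fun _ => 0 := funext fun i => ext0_zero i
        rw [e1, e2]
        refine Prod.ext (funext fun u => ?_) (funext fun k => ?_)
        · simp [EU]
        · simp [EJ]
      map_add' := by
        intro z z'
        have e1 : ext0 UC (z + z').1 = fun i => ext0 UC z.1 i + ext0 UC z'.1 i :=
          funext fun i => ext0_add z.1 z'.1 i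
        have e2 : ext0 JC (z + z').2 = fun i => ext0 JC z.2 i + ext0 JC z'.2 i :=
          funext fun i => ext0_add z.2 z'.2 i
        rw [e1, e2]
        refine Prod.ext (funext fun u => ?_) (funext fun k => ?_)
        · exact EU_add A B f u _ _ _ _
        · exact EJ_add C R g k _ _ _ _ }

/-- the rows `JR \ JC` -/
noncomputable def Psi (UC : Finset U) (JR JC : Finset J)
    (C : J → U → F) (R : J → J → F) (g : J → F) :
    ((UC → F) × (JC → F)) →ₗ[F] ((JR \ JC : Finset J) → F) :=
  AddMonoidHom.toZModLinearMap 2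
    { toFun := fun z => fun k => EJ C R g k (ext0 UC z.1) (ext0 JC z.2)
      map_zero' := by
        have e1 : ext0 UC ((0 : (UC → F) × (JC → F)).1) = fun _ => 0 := funext fun i => ext0_zero i
        have e2 : ext0 JC ((0 : (UC → F) × (JC → F)).2) = fun _ => 0 := funext fun i => ext0_zero i
        rw [e1, e2]
        refine funext fun k => ?_
        simp [EJ]
      map_add' := by
        intro z z'
        have e1 : ext0 UC (z + z').1 = fun i => ext0 UC z.1 i + ext0 UC z'.1 i :=
          funext fun i => ext0_add z.1 z'.1 i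
        have e2 : ext0 JC (z + z').2 = fun i => ext0 JC z.2 i + ext0 JC z'.2 i :=
          funext fun i => ext0_add z.2 z'.2 i
        rw [e1, e2]
        exact funext fun k => EJ_add C R g k _ _ _ _ }

theorem Phi_fst {UR UC : Finset U} {JR JC : Finset J} {A : U → U → F} {B : U → J → F}
    {C : J → U → F} {R : J → J → F} {f : U → F} {g : J → F} (z : (UC → F) × (JC → F)) (u : UR) :
    (Phi UR UC JR JC A B C R f g z).1 u = EU A B f u (ext0 UC z.1) (ext0 JC z.2) := rfl

theorem Phi_snd {UR UC : Finset U} {JR JC : Finset J} {A : U → U → F} {B : U → J → F}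
    {C : J → U → F} {R : J → J → F} {f : U → F} {g : J → F} (z : (UC → F) × (JC → F))
    (k : (JR ∩ JC : Finset J)) :
    (Phi UR UC JR JC A B C R f g z).2 k = EJ C R g k (ext0 UC z.1) (ext0 JC z.2) := rfl

theorem Psi_apply {UC : Finset U} {JR JC : Finset J}
    {C : J → U → F} {R : J → J → F} {g : J → F} (z : (UC → F) × (JC → F))
    (k : (JR \ JC : Finset J)) :
    Psi UC JR JC C R g z k = EJ C R g k (ext0 UC z.1) (ext0 JC z.2) := rfl

theorem gd_iff (UR UC : Finset U) (JR JC : Finset J) (A : U → U → F) (B : U → J → F)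
    (C : J → U → F) (R : J → J → F) (f : U → F) (g : J → F) :
    GdA UR UC JR JC A B C R f g ↔ ∀ z, Phi UR UC JR JC A B C R f g z = 0 →
      Psi UC JR JC C R g z = 0 → z = 0 := by
  constructor
  · intro h z h1 h2
    have h3 := h (ext0 UC z.1) (ext0 JC z.2) (fun u hu => ext0_nmem _ hu)
      (fun u hu => ext0_nmem _ hu)
      (fun u hu => by
        have := congrFun (congrArg Prod.fst h1) ⟨u, hu⟩
        exact this)
      (fun k hk => by
        by_cases hkc : k ∈ JC
        · have := congrFun (congrArg Prod.snd h1) ⟨k, mem_inter.2 ⟨hk, hkc⟩⟩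
          exact this
        · have := congrFun h2 ⟨k, mem_sdiff.2 ⟨hk, hkc⟩⟩
          exact this)
    exact Prod.ext (ext0_eq_zero h3.1) (ext0_eq_zero h3.2)
  · intro h x y hx hy hU hJ
    have ex := ext0_res hx
    have ey := ext0_res hy
    have h1 := h (fun i : UC => x i, fun i : JC => y i) (by
      refine Prod.ext (funext fun u => ?_) (funext fun k => ?_)
      · rw [Phi_fst, ex, ey]
        exact hU u u.2
      · rw [Phi_snd, ex, ey]
        exact hJ k (mem_inter.1 k.2).1) (by
      refine funext fun k => ?_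
      rw [Psi_apply, ex, ey]
      exact hJ k (mem_sdiff.1 k.2).1)
    have h2 := congrArg Prod.fst h1
    have h3 := congrArg Prod.snd h1
    simp only at h2 h3
    constructor
    · intro u
      rw [← ex, h2]
      exact ext0_zero u
    · intro u
      rw [← ey, h3]
      exact ext0_zero u

/-- the change of the free symbols -/
def bs (s : J → J → F) : prs (univ : Finset J) → F := fun e => s e.1.1 e.1.2

theorem mem_prs_univ (k l : J) : (k, l) ∈ prs (univ : Finset J) ↔ k < l := by
  unfold prs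
  simp only [mem_filter, mem_univ, true_and, forall_const]
  constructor
  · exact fun h => h.2
  · exact fun h => ⟨h.ne', h⟩

theorem ex2_shift (t : J → J → F) (α : prs (univ : Finset J) → F) {s : J → J → F}
    (hs : ∀ k l, s k l = s l k) (h0 : ∀ k, s k k = 0) (k l : J) :
    ex2 t (α + bs s) k l = ex2 t α k l + s k l := by
  unfold ex2
  by_cases h1 : (l, k) ∈ prs (univ : Finset J)
  · rw [dif_pos h1, dif_pos h1]
    have : bs s ⟨(l, k), h1⟩ = s k l := hs l k
    rw [Pi.add_apply, this]
  · by_cases h2 : (k, l) ∈ prs (univ : Finset J)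
    · rw [dif_neg h1, dif_neg h1, dif_pos h2, dif_pos h2]
      have : bs s ⟨(k, l), h2⟩ = s k l := rfl
      rw [Pi.add_apply, this]
      ring
    · rw [dif_neg h1, dif_neg h1, dif_neg h2, dif_neg h2]
      rw [mem_prs_univ] at h1 h2
      have : k = l := le_antisymm (not_lt.1 h1) (not_lt.1 h2)
      rw [this, h0, add_zero]

theorem EJ_shift (C : J → U → F) (t : J → J → F) (α : prs (univ : Finset J) → F) {s : J → J → F}
    (hs : ∀ k l, s k l = s l k) (h0 : ∀ k, s k k = 0) (g : J → F) (k : J) (x : U → F) (y : J → F) :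
    EJ C (ex2 t (α + bs s)) g k x y = EJ C (ex2 t α) g k x y + ∑ l, s k l * (y l + y k) := by
  unfold EJ
  have h1 : ∀ l, ex2 t (α + bs s) k l * (y l + y k) = ex2 t α k l * (y l + y k) +
      s k l * (y l + y k) := fun l => by rw [ex2_shift t α hs h0]; ring
  simp only [h1, Finset.sum_add_distrib]
  ring

end sys

/-! ### the first shift -/

section first

variable {J : Type} [Fintype J] [LinearOrder J] (JR JC : Finset J) (k0 i0 : J)
  (w τ : J → F)

/-- the part of `τ` where `w` vanishes -/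
noncomputable def pp (l : J) : F := if w l = 0 then τ l else 0

/-- the compensation -/
noncomputable def qq (k : J) : F :=
  if k ∈ JR ∩ JC then τ k + (if k = k0 then ∑ m, pp w τ m else 0) else 0

/-- the first shift -/
noncomputable def s1 (k l : J) : F :=
  (if k = k0 then pp w τ l else 0) + (if l = k0 then pp w τ k else 0) +
    (if l = i0 then qq JR JC k0 w τ k else 0) + (if k = i0 then qq JR JC k0 w τ l else 0)

theorem s1_symm (k l : J) : s1 JR JC k0 i0 w τ k l = s1 JR JC k0 i0 w τ l k := by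
  unfold s1; ring

theorem s1_diag (k : J) : s1 JR JC k0 i0 w τ k k = 0 := by
  unfold s1
  have h1 := c2 (if k = k0 then pp w τ k else 0)
  have h2 := c2 (if k = i0 then qq JR JC k0 w τ k else 0)
  rw [h1, zero_add, h2]

variable {JR JC k0 i0 w}

theorem f_cases (a : F) : a = 0 ∨ a = 1 := by
  revert a; decide

theorem s1_effect (hw : ∀ k, k ∉ JR ∩ JC → w k = 0) (hk0 : w k0 ≠ 0) (hi0 : i0 ∉ JR ∧ i0 ∉ JC)
    {y : J → F} (hy : ∀ l, l ∉ JC → y l = 0) :
    ∑ k, w k * ∑ l, s1 JR JC k0 i0 w τ k l * (y l + y k) = ∑ k, τ k * y k := by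
  have hw0 : w k0 = 1 := (f_cases _).resolve_left hk0
  have hk0S : k0 ∈ JR ∩ JC := by
    by_contra h
    exact hk0 (hw k0 h)
  have hi0S : i0 ∉ JR ∩ JC := fun h => hi0.1 (mem_inter.1 h).1
  have hwi : w i0 = 0 := hw i0 hi0S
  have hyi : y i0 = 0 := hy i0 hi0.2
  set Q : F := ∑ m, pp w τ m with hQ
  have h1 : ∀ k, w k * ∑ l, s1 JR JC k0 i0 w τ k l * (y l + y k) =
      (if k = k0 then (∑ l, pp w τ l * y l + Q * y k0) else 0) +
        w k * qq JR JC k0 w τ k * y k := by
    intro k
    have e1 : ∑ l, s1 JR JC k0 i0 w τ k l * (y l + y k) =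
        (if k = k0 then (∑ l, pp w τ l * y l + Q * y k) else 0) +
        pp w τ k * (y k0 + y k) + qq JR JC k0 w τ k * (y i0 + y k) +
        (if k = i0 then ∑ l, qq JR JC k0 w τ l * (y l + y k) else 0) := by
      unfold s1
      simp only [add_mul, Finset.sum_add_distrib, ite_mul, zero_mul]
      congr 1
      · congr 1
        · congr 1
          · by_cases h : k = k0
            · simp only [if_pos h]
              rw [hQ, Finset.sum_mul, ← Finset.sum_add_distrib]
              exact Finset.sum_congr rfl fun l _ => by ring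
            · simp only [if_neg h, Finset.sum_const_zero]
          · rw [Finset.sum_ite_eq' univ k0, if_pos (mem_univ _)]
        · rw [Finset.sum_ite_eq' univ i0, if_pos (mem_univ _)]
      · by_cases h : k = i0
        · simp only [if_pos h]
        · simp only [if_neg h, Finset.sum_const_zero]
    rw [e1]
    have e2 : w k * pp w τ k = 0 := by
      unfold pp
      split_ifs with h
      · rw [h, zero_mul]
      · rw [mul_zero]
    have e3 : w k * (if k = i0 then ∑ l, qq JR JC k0 w τ l * (y l + y k) else 0) = 0 := by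
      split_ifs with h
      · rw [h, hwi, zero_mul]
      · rw [mul_zero]
    have e4 : w k * (if k = k0 then (∑ l, pp w τ l * y l + Q * y k) else 0) =
        if k = k0 then (∑ l, pp w τ l * y l + Q * y k0) else 0 := by
      split_ifs with h
      · rw [h, hw0, one_mul]
      · rw [mul_zero]
    calc w k * ((if k = k0 then (∑ l, pp w τ l * y l + Q * y k) else 0) +
        pp w τ k * (y k0 + y k) + qq JR JC k0 w τ k * (y i0 + y k) +
        (if k = i0 then ∑ l, qq JR JC k0 w τ l * (y l + y k) else 0)) =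
        w k * (if k = k0 then (∑ l, pp w τ l * y l + Q * y k) else 0) +
        (w k * pp w τ k) * (y k0 + y k) + w k * qq JR JC k0 w τ k * (y i0 + y k) +
        w k * (if k = i0 then ∑ l, qq JR JC k0 w τ l * (y l + y k) else 0) := by ring
      _ = _ := by rw [e2, e3, e4, hyi]; ring
  rw [Finset.sum_congr rfl fun k _ => h1 k, Finset.sum_add_distrib,
    Finset.sum_ite_eq' univ k0, if_pos (mem_univ _)]
  have h2 : ∀ k, w k * qq JR JC k0 w τ k * y k = w k * τ k * y k + (if k = k0 then Q * y k0 else 0) := by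
    intro k
    unfold qq
    by_cases hk : k ∈ JR ∩ JC
    · rw [if_pos hk]
      by_cases h : k = k0
      · rw [if_pos h, if_pos h, h, hw0]; ring
      · rw [if_neg h, if_neg h]; ring
    · rw [if_neg hk, hw k hk]
      have : k ≠ k0 := fun h => hk (h ▸ hk0S)
      rw [if_neg this]; ring
  rw [Finset.sum_congr rfl fun k _ => h2 k, Finset.sum_add_distrib,
    Finset.sum_ite_eq' univ k0, if_pos (mem_univ _)]
  have h3 : ∑ l, pp w τ l * y l + Q * y k0 + (∑ k, w k * τ k * y k + Q * y k0) =
      (∑ l, pp w τ l * y l + ∑ k, w k * τ k * y k) + (Q * y k0 + Q * y k0) := by ring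
  rw [h3, c2, add_zero, ← Finset.sum_add_distrib]
  refine Finset.sum_congr rfl fun k _ => ?_
  unfold pp
  split_ifs with h
  · rw [h]; ring
  · rw [(f_cases _).resolve_left h]; ring

end first

/-! ### the second shift -/

section second

variable {J : Type} [Fintype J] [LinearOrder J] (JR JC : Finset J) (i0 : J)
  (W : Matrix (JR \ JC : Finset J) JC F)

/-- extension of a matrix by zero -/
noncomputable def Wx (k l : J) : F :=
  if h : k ∈ JR \ JC ∧ l ∈ JC then W ⟨k, h.1⟩ ⟨l, h.2⟩ else 0

/-- the compensation -/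
noncomputable def rr (k : J) : F := if k ∈ JR ∩ JC then ∑ m, Wx JR JC W m k else 0

/-- the second shift -/
noncomputable def s2 (k l : J) : F :=
  Wx JR JC W k l + Wx JR JC W l k + (if l = i0 then rr JR JC W k else 0) +
    (if k = i0 then rr JR JC W l else 0)

theorem s2_symm (k l : J) : s2 JR JC i0 W k l = s2 JR JC i0 W l k := by
  unfold s2; ring

theorem s2_diag (k : J) : s2 JR JC i0 W k k = 0 := by
  unfold s2
  have h1 := c2 (Wx JR JC W k k)
  have h2 := c2 (if k = i0 then rr JR JC W k else 0)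
  rw [h1, zero_add, h2]

variable {JR JC i0}

theorem s2_S (hi0 : i0 ∉ JR ∧ i0 ∉ JC) {y : J → F} (hy : ∀ l, l ∉ JC → y l = 0) {k : J}
    (hk : k ∈ JR ∩ JC) : ∑ l, s2 JR JC i0 W k l * (y l + y k) = 0 := by
  have hki : k ≠ i0 := fun h => hi0.1 (h ▸ (mem_inter.1 hk).1)
  have hkc : k ∈ JC := (mem_inter.1 hk).2
  have hyi : y i0 = 0 := hy i0 hi0.2
  have h1 : ∀ l, Wx JR JC W k l = 0 := by
    intro l
    unfold Wx
    rw [dif_neg]
    rintro ⟨h, -⟩
    exact (mem_sdiff.1 h).2 hkc
  have h2 : ∀ l, Wx JR JC W l k * y l = 0 := by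
    intro l
    unfold Wx
    split_ifs with h
    · rw [hy l (mem_sdiff.1 h.1).2, mul_zero]
    · rw [zero_mul]
  have h3 : ∀ l, s2 JR JC i0 W k l * (y l + y k) = Wx JR JC W l k * y k +
      (if l = i0 then rr JR JC W k * y k else 0) := by
    intro l
    unfold s2
    rw [h1 l, if_neg hki, zero_add, add_zero, add_mul, mul_add, h2 l, zero_add]
    congr 1
    split_ifs with h
    · rw [h, hyi, zero_add]
    · rw [zero_mul]
  rw [Finset.sum_congr rfl fun l _ => h3 l, Finset.sum_add_distrib, Finset.sum_ite_eq' univ i0,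
    if_pos (mem_univ _), ← Finset.sum_mul]
  unfold rr
  rw [if_pos hk]
  exact c2 _

theorem s2_B (hi0 : i0 ∉ JR ∧ i0 ∉ JC) (y : JC → F) (k : (JR \ JC : Finset J)) :
    ∑ l, s2 JR JC i0 W k l * (ext0 JC y l + ext0 JC y k) = (W *ᵥ y) k := by
  have hkr : (k : J) ∈ JR := (mem_sdiff.1 k.2).1
  have hkc : (k : J) ∉ JC := (mem_sdiff.1 k.2).2
  have hki : (k : J) ≠ i0 := fun h => hi0.1 (h ▸ hkr)
  have hyi : ext0 JC y i0 = 0 := ext0_nmem _ hi0.2
  have hyk : ext0 JC y k = 0 := ext0_nmem _ hkc
  have h1 : ∀ l, Wx JR JC W l k = 0 := by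
    intro l
    unfold Wx
    rw [dif_neg]
    rintro ⟨-, h⟩
    exact hkc h
  have hr : rr JR JC W k = 0 := by
    unfold rr
    rw [if_neg fun h => hkc (mem_inter.1 h).2]
  have h3 : ∀ l, s2 JR JC i0 W k l * (ext0 JC y l + ext0 JC y k) =
      ext0 JC y l * Wx JR JC W k l := by
    intro l
    unfold s2
    rw [h1 l, if_neg hki, hr, hyk]
    have : (if l = i0 then (0 : F) else 0) = 0 := by split_ifs <;> rfl
    rw [this]; ring
  rw [Finset.sum_congr rfl fun l _ => h3 l, ← sum_ext0]
  unfold Matrix.mulVec dotProduct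
  refine Finset.sum_congr rfl fun l _ => ?_
  unfold Wx
  rw [dif_pos ⟨k.2, l.2⟩, mul_comm]

end second

section main

variable {U J : Type} [Fintype U] [Fintype J] [LinearOrder J] {UR UC : Finset U} {JR JC : Finset J}
  {A : U → U → F} {B : U → J → F} {C : J → U → F} {f : U → F} {g : J → F} (t : J → J → F)
  {i0 : J} (hi0 : i0 ∉ JR ∧ i0 ∉ JC)

include hi0 in
theorem Phi_s2 (W : Matrix (JR \ JC : Finset J) JC F) (α : prs (univ : Finset J) → F) :
    Phi UR UC JR JC A B C (ex2 t (α + bs (s2 JR JC i0 W))) f g =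
      Phi UR UC JR JC A B C (ex2 t α) f g := by
  refine LinearMap.ext fun z => Prod.ext (funext fun u => rfl) (funext fun k => ?_)
  rw [Phi_snd, Phi_snd, EJ_shift C t α (s2_symm JR JC i0 W) (s2_diag JR JC i0 W),
    s2_S W hi0 (fun l hl => ext0_nmem _ hl) k.2, add_zero]

include hi0 in
theorem Psi_s2 (W : Matrix (JR \ JC : Finset J) JC F) (α : prs (univ : Finset J) → F)
    (z : (UC → F) × (JC → F)) :
    Psi UC JR JC C (ex2 t (α + bs (s2 JR JC i0 W))) g z =
      Psi UC JR JC C (ex2 t α) g z + W *ᵥ z.2 := by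
  refine funext fun k => ?_
  rw [Pi.add_apply, Psi_apply, Psi_apply, EJ_shift C t α (s2_symm JR JC i0 W)
    (s2_diag JR JC i0 W), s2_B W hi0]

theorem fin_dom : Module.finrank F ((UC → F) × (JC → F)) = UC.card + JC.card := by
  rw [Module.finrank_prod, Module.finrank_fintype_fun_eq_card, Module.finrank_fintype_fun_eq_card,
    Fintype.card_coe, Fintype.card_coe]

theorem not_good (hcard : UC.card + JC.card = UR.card + JR.card) {R : J → J → F}
    (hs : ¬ Function.Surjective (Phi UR UC JR JC A B C R f g)) :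
    ¬ GdA UR UC JR JC A B C R f g := by
  intro hg
  rw [gd_iff] at hg
  set Φ := Phi UR UC JR JC A B C R f g
  set Ψ := Psi UC JR JC C R g
  have h1 := LinearMap.finrank_range_add_finrank_ker Φ
  rw [fin_dom] at h1
  have h2 : LinearMap.range Φ ≠ ⊤ := fun h => hs (LinearMap.range_eq_top.1 h)
  have h3 := Submodule.finrank_lt h2
  rw [Module.finrank_prod, Module.finrank_fintype_fun_eq_card,
    Module.finrank_fintype_fun_eq_card, Fintype.card_coe, Fintype.card_coe] at h3
  have h4 : Function.Injective (Ψ ∘ₗ (LinearMap.ker Φ).subtype) := by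
    rw [← LinearMap.ker_eq_bot, LinearMap.ker_eq_bot']
    intro z hz
    exact Subtype.ext (hg z.1 z.2 hz)
  have h5 := LinearMap.finrank_le_finrank_of_injective h4
  rw [Module.finrank_fintype_fun_eq_card, Fintype.card_coe] at h5
  have h6 := Finset.card_inter_add_card_sdiff JR JC
  omega

include hi0 in
theorem good_frac (hcard : UC.card + JC.card = UR.card + JR.card)
    (hC : ∀ w : U → F, (∃ u, w u ≠ 0) → ∃ k ∈ JR, k ∈ JC ∧ ∑ u, w u * C k u ≠ 0)
    {α : prs (univ : Finset J) → F}
    (hs : Function.Surjective (Phi UR UC JR JC A B C (ex2 t α) f g)) :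
    ((univ.filter fun W : Matrix (JR \ JC : Finset J) JC F =>
      GdA UR UC JR JC A B C (ex2 t (α + bs (s2 JR JC i0 W))) f g).card : ℝ) =
      pn (JR \ JC).card * (Fintype.card (Matrix (JR \ JC : Finset J) JC F) : ℝ) := by
  set Φ := Phi UR UC JR JC A B C (ex2 t α) f g with hΦ
  set Ψ := Psi UC JR JC C (ex2 t α) g with hΨ
  have h1 := LinearMap.finrank_range_add_finrank_ker Φ
  rw [fin_dom, LinearMap.range_eq_top.2 hs, finrank_top, Module.finrank_prod,
    Module.finrank_fintype_fun_eq_card, Module.finrank_fintype_fun_eq_card, Fintype.card_coe,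
    Fintype.card_coe] at h1
  have h6 := Finset.card_inter_add_card_sdiff JR JC
  have hK : Module.finrank F (LinearMap.ker Φ) = Fintype.card (JR \ JC : Finset J) := by
    rw [Fintype.card_coe]; omega
  have hπ : ∀ z ∈ LinearMap.ker Φ, LinearMap.snd F (UC → F) (JC → F) z = 0 → z = 0 := by
    intro z hz hz2
    have hz2' : z.2 = 0 := hz2
    refine Prod.ext ?_ hz2'
    by_contra hne
    have h7 : ∃ u, ext0 UC z.1 u ≠ 0 := by
      by_contra hcon
      push Not at hcon
      exact hne (ext0_eq_zero hcon)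
    obtain ⟨k, hkR, hkC, hk⟩ := hC _ h7
    have h8 := congrFun (congrArg Prod.snd (LinearMap.mem_ker.1 hz)) ⟨k, mem_inter.2 ⟨hkR, hkC⟩⟩
    rw [hΦ, Phi_snd, hz2'] at h8
    apply hk
    unfold EJ at h8
    simp only [ext0_zero, add_zero, mul_zero, Finset.sum_const_zero] at h8
    have h9 : ∑ u, ext0 UC z.1 u * C k u = ∑ u, C k u * ext0 UC z.1 u :=
      Finset.sum_congr rfl fun u _ => mul_comm _ _
    rw [h9]
    exact h8
  have h2 := frac (LinearMap.ker Φ) hK Ψ (LinearMap.snd F (UC → F) (JC → F)) hπ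
  rw [Fintype.card_coe] at h2
  have h3 : (univ.filter fun W : Matrix (JR \ JC : Finset J) JC F =>
      GdA UR UC JR JC A B C (ex2 t (α + bs (s2 JR JC i0 W))) f g) =
      univ.filter fun W : Matrix (JR \ JC : Finset J) JC F =>
        ∀ z ∈ LinearMap.ker Φ, Ψ z + W *ᵥ LinearMap.snd F (UC → F) (JC → F) z = 0 → z = 0 := by
    refine Finset.filter_congr fun W _ => ?_
    rw [gd_iff, Phi_s2 t hi0]
    constructor
    · intro h z hz hz2
      exact h z hz (by rw [Psi_s2 t hi0]; exact hz2)
    · intro h z hz hz2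
      exact h z hz (by rw [Psi_s2 t hi0] at hz2; exact hz2)
  rw [h3]
  refine Eq.trans (congrArg (fun s : Finset (Matrix (JR \ JC : Finset J) JC F) =>
    (s.card : ℝ)) ?_) (h2.trans ?_)
  · ext W
    simp only [Finset.mem_filter, Finset.mem_univ, true_and]
  · have h5 : ∀ i j : Fintype (Matrix (JR \ JC : Finset J) JC F),
        (@Fintype.card _ i : ℝ) = (@Fintype.card _ j : ℝ) := fun i j => by
      rw [Subsingleton.elim i j]
    exact congrArg (fun x : ℝ => pn (JR \ JC).card * x) (h5 _ _)

/-- the value of the functional with the coefficients `w` -/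
noncomputable def fn (UR UC : Finset U) (JR JC : Finset J) (A : U → U → F) (B : U → J → F)
    (C : J → U → F) (R : J → J → F) (f : U → F) (g : J → F)
    (w : (UR → F) × ((JR ∩ JC : Finset J) → F)) (z : (UC → F) × (JC → F)) : F :=
  ∑ u, w.1 u * (Phi UR UC JR JC A B C R f g z).1 u + ∑ k, w.2 k * (Phi UR UC JR JC A B C R f g z).2 k

theorem exists_fn {R : J → J → F}
    (hs : ¬ Function.Surjective (Phi UR UC JR JC A B C R f g)) :
    ∃ w : (UR → F) × ((JR ∩ JC : Finset J) → F), w ≠ 0 ∧
      ∀ z, fn UR UC JR JC A B C R f g w z = 0 := by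
  set Φ := Phi UR UC JR JC A B C R f g with hΦ
  have h2 : LinearMap.range Φ ≠ ⊤ := fun h => hs (LinearMap.range_eq_top.1 h)
  obtain ⟨φ, hφ, hle⟩ := Submodule.exists_le_ker_of_lt_top _ (lt_top_iff_ne_top.2 h2)
  have h3 : ∀ v : (UR → F) × ((JR ∩ JC : Finset J) → F), φ v =
      ∑ u, φ (fun j => if u = j then 1 else 0, 0) * v.1 u +
        ∑ k, φ (0, fun j => if k = j then 1 else 0) * v.2 k := by
    intro v
    have e1 : v = (v.1, 0) + (0, v.2) := by
      refine Prod.ext ?_ ?_ <;> simp
    have e2 : φ (v.1, 0) = (φ ∘ₗ LinearMap.inl F _ _) v.1 := rfl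
    have e3 : φ (0, v.2) = (φ ∘ₗ LinearMap.inr F _ _) v.2 := rfl
    conv_lhs => rw [e1, map_add, e2, e3, LinearMap.pi_apply_eq_sum_univ,
      LinearMap.pi_apply_eq_sum_univ]
    congr 1
    · refine Finset.sum_congr rfl fun u _ => ?_
      rw [smul_eq_mul, mul_comm]; rfl
    · refine Finset.sum_congr rfl fun u _ => ?_
      rw [smul_eq_mul, mul_comm]; rfl
  refine ⟨(fun u => φ (fun j => if u = j then 1 else 0, 0),
    fun k => φ (0, fun j => if k = j then 1 else 0)), ?_, ?_⟩
  · intro h0
    apply hφ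
    refine LinearMap.ext fun v => ?_
    rw [h3]
    have h4 : ∀ u, φ (fun j => if u = j then 1 else 0, 0) = 0 :=
      fun u => congrFun (congrArg Prod.fst h0) u
    have h5 : ∀ k, φ (0, fun j => if k = j then 1 else 0) = 0 :=
      fun k => congrFun (congrArg Prod.snd h0) k
    simp only [h4, h5, zero_mul, Finset.sum_const_zero, add_zero, LinearMap.zero_apply]
  · intro z
    unfold fn
    rw [← hΦ]
    rw [← h3 (Φ z)]
    exact hle ⟨z, rfl⟩

theorem ext0_single {m : J} (hm : m ∈ JC) :
    ext0 JC (fun l => if l = ⟨m, hm⟩ then (1 : F) else 0) = fun l => if l = m then 1 else 0 := by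
  funext l
  unfold ext0
  by_cases h : l ∈ JC
  · rw [dif_pos h]
    simp only [Subtype.mk.injEq]
  · rw [dif_neg h, if_neg]
    intro h2
    exact h (h2 ▸ hm)

theorem fn_first (hB : ∀ w : U → F, (∃ u, w u ≠ 0) → ∃ k ∈ JR, k ∈ JC ∧ ∑ u, w u * B u k ≠ 0)
    {R : J → J → F} {w : (UR → F) × ((JR ∩ JC : Finset J) → F)} (hw : w ≠ 0) (hw2 : w.2 = 0)
    (h : ∀ z, fn UR UC JR JC A B C R f g w z = 0) : False := by
  have hw1 : w.1 ≠ 0 := fun h1 => hw (Prod.ext h1 hw2)
  have h7 : ∃ u, ext0 UR w.1 u ≠ 0 := by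
    by_contra hcon
    push Not at hcon
    exact hw1 (ext0_eq_zero hcon)
  obtain ⟨m, hmR, hmC, hm⟩ := hB _ h7
  have h1 := h (0, fun l => if l = ⟨m, hmC⟩ then (1 : F) else 0)
  unfold fn at h1
  rw [hw2] at h1
  simp only [Pi.zero_apply, zero_mul, Finset.sum_const_zero, add_zero, Phi_fst] at h1
  rw [ext0_single hmC] at h1
  apply hm
  rw [← sum_ext0, ← h1]
  refine Finset.sum_congr rfl fun u _ => ?_
  congr 1
  unfold EU
  simp [ext0_zero]

theorem fn_s1 {w : (UR → F) × ((JR ∩ JC : Finset J) → F)} {k0 : (JR ∩ JC : Finset J)}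
    (hk0 : w.2 k0 ≠ 0) (hi0 : i0 ∉ JR ∧ i0 ∉ JC) (τ : JC → F) (α : prs (univ : Finset J) → F)
    (z : (UC → F) × (JC → F)) :
    fn UR UC JR JC A B C (ex2 t (α + bs (s1 JR JC k0 i0 (ext0 (JR ∩ JC) w.2) (ext0 JC τ)))) f g w z =
      fn UR UC JR JC A B C (ex2 t α) f g w z + ∑ m, ext0 JC τ m * ext0 JC z.2 m := by
  unfold fn
  simp only [Phi_fst, Phi_snd]
  have h1 : ∀ k : (JR ∩ JC : Finset J), w.2 k * EJ C
      (ex2 t (α + bs (s1 JR JC k0 i0 (ext0 (JR ∩ JC) w.2) (ext0 JC τ)))) g k (ext0 UC z.1)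
        (ext0 JC z.2) = w.2 k * EJ C (ex2 t α) g k (ext0 UC z.1) (ext0 JC z.2) +
        w.2 k * ∑ l, s1 JR JC k0 i0 (ext0 (JR ∩ JC) w.2) (ext0 JC τ) k l *
          (ext0 JC z.2 l + ext0 JC z.2 k) := by
    intro k
    rw [EJ_shift C t α (s1_symm JR JC k0 i0 _ _) (s1_diag JR JC k0 i0 _ _)]
    ring
  rw [Finset.sum_congr rfl fun k _ => h1 k, Finset.sum_add_distrib, ← add_assoc]
  congr 1
  rw [sum_ext0 w.2 (fun k => ∑ l, s1 JR JC k0 i0 (ext0 (JR ∩ JC) w.2) (ext0 JC τ) k l *
    (ext0 JC z.2 l + ext0 JC z.2 k))]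
  refine s1_effect (ext0 JC τ) (fun k hk => ext0_nmem _ hk) ?_ hi0 (fun l hl => ext0_nmem _ hl)
  rw [ext0_mem]
  exact hk0

/-- the functional `w` vanishes on the rows -/
def Bad (UR UC : Finset U) (JR JC : Finset J) (A : U → U → F) (B : U → J → F)
    (C : J → U → F) (t : J → J → F) (f : U → F) (g : J → F)
    (w : (UR → F) × ((JR ∩ JC : Finset J) → F)) (α : prs (univ : Finset J) → F) : Prop :=
  w ≠ 0 ∧ ∀ z, fn UR UC JR JC A B C (ex2 t α) f g w z = 0

theorem bad_unique {w : (UR → F) × ((JR ∩ JC : Finset J) → F)} {k0 : (JR ∩ JC : Finset J)}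
    (hk0 : w.2 k0 ≠ 0) (hi0 : i0 ∉ JR ∧ i0 ∉ JC) (α : prs (univ : Finset J) → F)
    {τ τ' : JC → F}
    (h5 : Bad UR UC JR JC A B C t f g w (α + bs (s1 JR JC k0 i0 (ext0 (JR ∩ JC) w.2)
      (ext0 JC τ))))
    (h6 : Bad UR UC JR JC A B C t f g w (α + bs (s1 JR JC k0 i0 (ext0 (JR ∩ JC) w.2)
      (ext0 JC τ')))) : τ = τ' := by
  obtain ⟨-, h5⟩ := h5
  obtain ⟨-, h6⟩ := h6
  funext m
  have h7 := h5 (0, fun l => if l = ⟨m.1, m.2⟩ then (1 : F) else 0)
  have h8 := h6 (0, fun l => if l = ⟨m.1, m.2⟩ then (1 : F) else 0)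
  rw [fn_s1 t hk0 hi0] at h7 h8
  have h9 := add_left_cancel (h7.trans h8.symm)
  rw [ext0_single m.2] at h9
  simp only [mul_ite, mul_one, mul_zero, Finset.sum_ite_eq', mem_univ, if_true] at h9
  rwa [ext0_mem, ext0_mem] at h9

include hi0 in
theorem bad_count (hB : ∀ w : U → F, (∃ u, w u ≠ 0) → ∃ k ∈ JR, k ∈ JC ∧ ∑ u, w u * B u k ≠ 0)
    (w : (UR → F) × ((JR ∩ JC : Finset J) → F)) :
    (2 : ℝ) ^ JC.card * ((univ.filter fun α : prs (univ : Finset J) → F =>
      Bad UR UC JR JC A B C t f g w α).card : ℝ) ≤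
      (Fintype.card (prs (univ : Finset J) → F) : ℝ) := by
  by_cases hw2 : w.2 = 0
  · have h1 : (univ.filter fun α : prs (univ : Finset J) → F =>
      Bad UR UC JR JC A B C t f g w α) = ∅ := by
      rw [Finset.filter_eq_empty_iff]
      rintro α - ⟨h2, h3⟩
      exact fn_first hB h2 hw2 h3
    rw [h1, card_empty, Nat.cast_zero, mul_zero]
    positivity
  · obtain ⟨k0, hk0⟩ : ∃ k0, w.2 k0 ≠ 0 := by
      by_contra hcon
      push Not at hcon
      exact hw2 (funext hcon)
    have h1 := average_sum (G := prs (univ : Finset J) → F) (T := JC → F)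
      (fun τ => bs (s1 JR JC k0 i0 (ext0 (JR ∩ JC) w.2) (ext0 JC τ)))
      (fun α => Bad UR UC JR JC A B C t f g w α)
    have h2 : (Fintype.card (JC → F) : ℝ) = (2 : ℝ) ^ JC.card := by
      rw [Fintype.card_fun, ZMod.card, Fintype.card_coe]
      push_cast
      rfl
    rw [h2] at h1
    rw [← h1]
    have h3 : ∀ α : prs (univ : Finset J) → F, ((univ.filter fun τ : JC → F =>
        Bad UR UC JR JC A B C t f g w (α + bs (s1 JR JC k0 i0 (ext0 (JR ∩ JC) w.2)
          (ext0 JC τ)))).card : ℝ) ≤ 1 := by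
      intro α
      have h4 : (univ.filter fun τ : JC → F =>
        Bad UR UC JR JC A B C t f g w (α + bs (s1 JR JC k0 i0 (ext0 (JR ∩ JC) w.2)
          (ext0 JC τ)))).card ≤ 1 := by
        rw [Finset.card_le_one]
        intro τ hτ τ' hτ'
        exact bad_unique t hk0 hi0 α (mem_filter.1 hτ).2 (mem_filter.1 hτ').2
      exact_mod_cast h4
    calc ∑ α : prs (univ : Finset J) → F, ((univ.filter fun τ : JC → F =>
        Bad UR UC JR JC A B C t f g w (α + bs (s1 JR JC k0 i0 (ext0 (JR ∩ JC) w.2)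
          (ext0 JC τ)))).card : ℝ) ≤ ∑ _α : prs (univ : Finset J) → F, (1 : ℝ) :=
          Finset.sum_le_sum fun α _ => h3 α
      _ = _ := by rw [Finset.sum_const, card_univ, nsmul_eq_mul, mul_one]

end main

end LA2

open LA2 in
/-- **job PR-2** -/
theorem t_LA (hE : S_ETA) : S_LA := by
  intro U J _ _ _ UR UC JR JC t hcard hi A B C f g hC hB
  obtain ⟨i0, hi0⟩ := hi
  obtain ⟨hE1, hE2, hE3, -, -⟩ := hE
  set T : ℝ := (Fintype.card (prs (univ : Finset J) → F) : ℝ) with hT
  have hTpos : 0 < T := by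
    rw [hT]; exact_mod_cast Fintype.card_pos
  have hT2 : (2 : ℝ) ^ (prs (univ : Finset J)).card = T := by
    rw [hT, Fintype.card_fun, ZMod.card, Fintype.card_coe]
    push_cast
    rfl
  set a := (JC \ JR).card with ha
  set b := (JR \ JC).card with hb
  set NF := univ.filter fun α : prs (univ : Finset J) → F =>
    ¬ Function.Surjective (Phi UR UC JR JC A B C (ex2 t α) f g) with hNF
  set FR := univ.filter fun α : prs (univ : Finset J) → F =>
    Function.Surjective (Phi UR UC JR JC A B C (ex2 t α) f g) with hFR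
  -- the good ones among the systems of full rank
  have h1 : ((univ.filter fun α : prs (univ : Finset J) → F =>
      GdA UR UC JR JC A B C (ex2 t α) f g).card : ℝ) = pn b * (FR.card : ℝ) := by
    have e1 := average_sum (G := prs (univ : Finset J) → F)
      (T := Matrix (JR \ JC : Finset J) JC F) (fun W => bs (s2 JR JC i0 W))
      (fun α => GdA UR UC JR JC A B C (ex2 t α) f g)
    have e2 : ∀ α : prs (univ : Finset J) → F,
        ((univ.filter fun W : Matrix (JR \ JC : Finset J) JC F =>
          GdA UR UC JR JC A B C (ex2 t (α + bs (s2 JR JC i0 W))) f g).card : ℝ) =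
        if Function.Surjective (Phi UR UC JR JC A B C (ex2 t α) f g) then
          pn b * (Fintype.card (Matrix (JR \ JC : Finset J) JC F) : ℝ) else 0 := by
      intro α
      split_ifs with hs
      · exact good_frac t hi0 hcard hC hs
      · have e3 : (univ.filter fun W : Matrix (JR \ JC : Finset J) JC F =>
            GdA UR UC JR JC A B C (ex2 t (α + bs (s2 JR JC i0 W))) f g) = ∅ := by
          rw [Finset.filter_eq_empty_iff]
          intro W _
          refine not_good hcard ?_
          rw [Phi_s2 t hi0]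
          exact hs
        rw [e3, card_empty, Nat.cast_zero]
    rw [Finset.sum_congr rfl fun α _ => e2 α, ← Finset.sum_filter, Finset.sum_const,
      nsmul_eq_mul] at e1
    have e4 : (0 : ℝ) < (Fintype.card (Matrix (JR \ JC : Finset J) JC F) : ℝ) := by
      exact_mod_cast Fintype.card_pos
    refine mul_left_cancel₀ e4.ne' ?_
    rw [← e1]
    ring
  -- the systems which are not of full rank
  have h2 : (NF.card : ℝ) ≤ 2 ^ Fintype.card U / 2 ^ a * T := by
    have e1 : NF ⊆ (univ : Finset ((UR → F) × ((JR ∩ JC : Finset J) → F))).biUnion fun w =>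
        univ.filter fun α : prs (univ : Finset J) → F => Bad UR UC JR JC A B C t f g w α := by
      intro α hα
      rw [mem_biUnion]
      obtain ⟨w, hw, hw2⟩ := exists_fn (mem_filter.1 hα).2
      exact ⟨w, mem_univ _, mem_filter.2 ⟨mem_univ _, hw, hw2⟩⟩
    have e2 : (NF.card : ℝ) ≤ ∑ w : (UR → F) × ((JR ∩ JC : Finset J) → F),
        ((univ.filter fun α : prs (univ : Finset J) → F =>
          Bad UR UC JR JC A B C t f g w α).card : ℝ) := by
      have := (card_le_card e1).trans card_biUnion_le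
      exact_mod_cast this
    have e3 : ∀ w : (UR → F) × ((JR ∩ JC : Finset J) → F),
        ((univ.filter fun α : prs (univ : Finset J) → F =>
          Bad UR UC JR JC A B C t f g w α).card : ℝ) ≤ T / 2 ^ JC.card := by
      intro w
      rw [le_div_iff₀ (by positivity), mul_comm]
      exact bad_count t hi0 hB w
    have e4 := e2.trans (Finset.sum_le_sum fun w _ => e3 w)
    rw [Finset.sum_const, nsmul_eq_mul, card_univ, Fintype.card_prod, Fintype.card_fun,
      Fintype.card_fun, ZMod.card, Fintype.card_coe, Fintype.card_coe] at e4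
    refine e4.trans ?_
    have e5 : JC.card = (JR ∩ JC).card + a := by
      have := Finset.card_inter_add_card_sdiff JC JR
      rw [inter_comm] at this
      omega
    push_cast
    rw [e5, pow_add]
    have e6 : (2 : ℝ) ^ UR.card * 2 ^ (JR ∩ JC).card * (T / (2 ^ (JR ∩ JC).card * 2 ^ a)) =
        2 ^ UR.card / 2 ^ a * T := by
      field_simp
    rw [e6]
    have e7 : (2 : ℝ) ^ UR.card ≤ 2 ^ Fintype.card U :=
      pow_le_pow_right₀ (by norm_num) (card_le_univ _)
    gcongr
  have h3 : (FR.card : ℝ) + (NF.card : ℝ) = T := by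
    have := Finset.card_filter_add_card_filter_not (s := (univ : Finset (prs (univ : Finset J) → F)))
      (fun α => Function.Surjective (Phi UR UC JR JC A B C (ex2 t α) f g))
    rw [card_univ] at this
    rw [hT]
    exact_mod_cast this
  rw [hT2, h1]
  have h4 := hE1 b
  have h5 : |pn b - eta| ≤ (1 / 2 : ℝ) ^ b := h4
  have h6 : 0 ≤ (FR.card : ℝ) / T := by positivity
  have h7 : (FR.card : ℝ) / T = 1 - (NF.card : ℝ) / T := by
    rw [← h3]
    rw [← h3] at hTpos
    field_simp
    ring
  have h8 : (NF.card : ℝ) / T ≤ 2 ^ Fintype.card U / 2 ^ a := by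
    rw [div_le_iff₀ hTpos]; exact h2
  have h9 : 0 ≤ (NF.card : ℝ) / T := by positivity
  have h10 : pn b * (FR.card : ℝ) / T - eta = (pn b - eta) * (1 - (NF.card : ℝ) / T) -
      eta * ((NF.card : ℝ) / T) := by
    rw [mul_div_assoc, h7]; ring
  rw [h10]
  have h11 : (1 : ℝ) / 2 ^ b = (1 / 2) ^ b := by rw [_root_.one_div_pow]
  rw [h11]
  rw [h7] at h6
  rw [abs_le] at h5 ⊢
  generalize (NF.card : ℝ) / T = q at *
  generalize (2 : ℝ) ^ Fintype.card U / 2 ^ a = ε at *
  generalize (1 / 2 : ℝ) ^ b = δ at *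
  constructor
  · nlinarith
  · nlinarith

end Pool.Agent.NH5.PR
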