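import Pool.Agent.NH5.PR.Stm
import Pool.Agent.Y703.CQ.Key

/-! PR-KEY of helper5 (by helper45): the sum over the boxes (after `Pool.Agent.Y703.CQ.Key`). -/

set_option autoImplicit false

open scoped Classical

namespace Pool.Agent.NH5.PR

open Finset
open Pool.Agent.NH1 (sq2 sq7 sS sI sA sB)
open Pool.Agent.Y703.CX (sm la jj XX)
open Pool.Agent.Y703.CQ (nr sg prs HB S_EQ)
open Pool.Agent.Y703.CQ.K302 (le_XX sm_la_card sm_la_prod card_sub TT mem_TT harm_TT root12 prs_card)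

/-- the code of a prime: the block and the class modulo `56` -/
noncomputable def cd (H p : ℕ) : ℕ := 56 * jj H p + p % 56

theorem cd_div (H p : ℕ) : cd H p / 56 = jj H p := by
  unfold cd; omega

theorem cd_m8 (H p : ℕ) : cd H p % 8 = p % 8 := by
  unfold cd; omega

theorem cd_m7 (H p : ℕ) : cd H p % 7 = p % 7 := by
  unfold cd; omega

theorem cd_m4 (H p : ℕ) : cd H p % 4 = p % 4 := by
  unfold cd; omega

theorem sq2_cd (H p : ℕ) : sq2 (cd H p) ↔ sq2 p := by
  unfold sq2; rw [cd_m8]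

theorem sq7_cd (H p : ℕ) : sq7 (cd H p) ↔ sq7 p := by
  unfold sq7; rw [cd_m7]

/-- the key of a set -/
noncomputable def ky (z H : ℕ) (S : Finset ℕ) : Finset ℕ × Finset ℕ :=
  (sm z S, (la z S).image (cd H))

/-- the keys which occur -/
structure KP (b r X z H k V : ℕ) (S₀ J : Finset ℕ) : Prop where
  cl : ∀ q ∈ S₀, q.Prime ∧ ¬ q ∣ 14 * b
  le : ∀ q ∈ S₀, q ≤ z
  bal : (sA S₀).card + (sA J).card = (sB S₀).card + (sB J).card
  md : ((∏ p ∈ S₀, p) * ∏ i ∈ J, i) % 8 = r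
  inj : Set.InjOn (fun i => i / 56) (J : Set ℕ)
  card : S₀.card + J.card ≤ k
  prod : (∏ p ∈ S₀, p) * ∏ i ∈ J, XX H (i / 56) ≤ X
  fewA : S₀.card + V < (sA J).card
  fewB : S₀.card + V < (sB J).card
  ine : (sI J).Nonempty

theorem inj_cd {H : ℕ} {S : Set ℕ} (h : Set.InjOn (jj H) S) : Set.InjOn (cd H) S := by
  intro a ha b hb hab
  apply h ha hb
  rw [← cd_div H a, ← cd_div H b, hab]

theorem card_im {H : ℕ} {S : Finset ℕ} (hi : Set.InjOn (cd H) (S : Set ℕ)) (P : ℕ → Prop)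
    [DecidablePred P] (hP : ∀ p, P (cd H p) ↔ P p) :
    ((S.image (cd H)).filter P).card = (S.filter P).card := by
  rw [Finset.filter_image, Finset.card_image_of_injOn]
  · congr 1
    ext p
    simp only [mem_filter, hP]
  · intro a ha b hb hab
    exact hi (mem_coe.2 (mem_filter.1 (mem_coe.1 ha)).1)
      (mem_coe.2 (mem_filter.1 (mem_coe.1 hb)).1) hab

theorem sA_im {H : ℕ} {S : Finset ℕ} (hi : Set.InjOn (cd H) (S : Set ℕ)) :
    (sA (S.image (cd H))).card = (sA S).card :=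
  card_im hi _ fun p => by rw [sq2_cd, sq7_cd]

theorem sB_im {H : ℕ} {S : Finset ℕ} (hi : Set.InjOn (cd H) (S : Set ℕ)) :
    (sB (S.image (cd H))).card = (sB S).card :=
  card_im hi _ fun p => by rw [sq2_cd, sq7_cd]

theorem sI_im {H : ℕ} {S : Finset ℕ} (hi : Set.InjOn (cd H) (S : Set ℕ)) :
    (sI (S.image (cd H))).card = (sI S).card :=
  card_im hi _ fun p => by rw [sq2_cd, sq7_cd]

theorem flt_split (z : ℕ) (S : Finset ℕ) (P : ℕ → Prop) [DecidablePred P] :
    (S.filter P).card = ((sm z S).filter P).card + ((la z S).filter P).card := by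
  rw [← sm_la_card z (S.filter P)]
  unfold sm la
  rw [Finset.filter_comm, Finset.filter_comm (p := P) (q := fun p => ¬ p ≤ z)]

theorem prod_im {H : ℕ} {S : Finset ℕ} (hi : Set.InjOn (cd H) (S : Set ℕ)) :
    (∏ i ∈ S.image (cd H), i) % 8 = (∏ p ∈ S, p) % 8 := by
  rw [Finset.prod_image hi, Finset.prod_nat_mod, Finset.prod_congr rfl fun p _ => cd_m8 H p,
    ← Finset.prod_nat_mod]

theorem rr_iff {b r X z H k V : ℕ} (hH : 1 ≤ H) {S : Finset ℕ}
    (hS : ∀ q ∈ S, q.Prime ∧ ¬ q ∣ 14 * b)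
    (hi : Set.InjOn (cd H) (la z S : Set ℕ)) :
    S ∈ RR b r X z H k V ↔ KP b r X z H k V (ky z H S).1 (ky z H S).2 := by
  set J := (la z S).image (cd H) with hJ
  have hky : ky z H S = (sm z S, J) := rfl
  rw [hky]
  have f2 : J.card = (la z S).card := Finset.card_image_of_injOn hi
  have fA : (sA J).card = (sA (la z S)).card := sA_im hi
  have fB : (sB J).card = (sB (la z S)).card := sB_im hi
  have fI : (sI J).card = (sI (la z S)).card := sI_im hi
  have gA : (sA S).card = (sA (sm z S)).card + (sA (la z S)).card := flt_split z S _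
  have gB : (sB S).card = (sB (sm z S)).card + (sB (la z S)).card := flt_split z S _
  have f8 : ∏ e ∈ J, XX H (e / 56) = ∏ p ∈ la z S, XX H (jj H p) := by
    rw [hJ, Finset.prod_image hi]
    simp only [cd_div]
  have f9 : Set.InjOn (jj H) (la z S : Set ℕ) ↔ Set.InjOn (fun i => i / 56) (J : Set ℕ) := by
    constructor
    · intro h a ha b hb hab
      rw [Finset.mem_coe, hJ, Finset.mem_image] at ha hb
      obtain ⟨p, hp, rfl⟩ := ha
      obtain ⟨q, hq, rfl⟩ := hb
      simp only [cd_div] at hab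
      rw [h (Finset.mem_coe.2 hp) (Finset.mem_coe.2 hq) hab]
    · intro h p hp q hq hpq
      refine hi hp hq (h (Finset.mem_coe.2 (Finset.mem_image_of_mem _ (Finset.mem_coe.1 hp)))
        (Finset.mem_coe.2 (Finset.mem_image_of_mem _ (Finset.mem_coe.1 hq))) ?_)
      simp only [cd_div]
      exact hpq
  have f10 : (sI (la z S)).Nonempty ↔ (sI J).Nonempty := by
    rw [← Finset.card_pos, ← Finset.card_pos, fI]
  have f11 : ((∏ p ∈ sm z S, p) * ∏ i ∈ J, i) % 8 = (∏ p ∈ S, p) % 8 := by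
    rw [← sm_la_prod z S, Nat.mul_mod, hJ, prod_im hi, ← Nat.mul_mod]
  have hsm : sm z S ⊆ S := Finset.filter_subset _ _
  have hla : la z S ⊆ S := Finset.filter_subset _ _
  constructor
  · intro h
    unfold RR at h
    rw [Finset.mem_filter] at h
    obtain ⟨h1, h2, h3, h4, h5, h6, h7⟩ := h
    unfold SS at h1
    rw [Finset.mem_filter] at h1
    obtain ⟨-, ⟨h8, h9, h10⟩, h11⟩ := h1
    refine ⟨fun q hq => h8 q (hsm hq), fun q hq => (Finset.mem_filter.1 hq).2, ?_, ?_,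
      f9.1 h2, ?_, ?_, ?_, ?_, f10.1 h7⟩
    · rw [fA, fB, ← gA, ← gB]
      exact h9
    · rw [f11]
      exact h10
    · rw [f2, sm_la_card]
      exact h3
    · rw [f8]
      exact h4
    · rw [fA]
      exact h5
    · rw [fB]
      exact h6
  · rintro ⟨k1, k2, k3, k4, k5, k6, k7, k8, k9, k10⟩
    have hprod : ∏ p ∈ S, p ≤ X := by
      rw [← sm_la_prod z S]
      refine le_trans (Nat.mul_le_mul_left _ ?_) k7
      rw [f8]
      refine Finset.prod_le_prod' fun p hp => le_XX hH (hS p (hla hp)).1.one_le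
    unfold RR SS
    rw [Finset.mem_filter, Finset.mem_filter, Finset.mem_powerset]
    refine ⟨⟨?_, ⟨hS, ?_, ?_⟩, hprod⟩, f9.2 k5, ?_, ?_, ?_, ?_, f10.2 k10⟩
    · intro q hq
      rw [Finset.mem_range]
      have h1 : q ∣ ∏ p ∈ S, p := Finset.dvd_prod_of_mem _ hq
      have h2 : 0 < ∏ p ∈ S, p := Finset.prod_pos fun p hp => (hS p hp).1.pos
      have := Nat.le_of_dvd h2 h1
      omega
    · rw [gA, gB, ← fA, ← fB]
      exact k3
    · rw [← f11]
      exact k4
    · rw [← sm_la_card z S, ← f2]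
      exact k6
    · rw [← f8]
      exact k7
    · rw [← fA]
      exact k8
    · rw [← fB]
      exact k9

/-- the primes of a block -/
noncomputable def CC (b z H i : ℕ) : Finset ℕ :=
  (Icc 1 (XX H (i / 56))).filter fun p => (p.Prime ∧ ¬ p ∣ 14 * b) ∧ z < p ∧ cd H p = i

theorem mem_CC {b z H : ℕ} (hH : 1 ≤ H) {i p : ℕ} :
    p ∈ CC b z H i ↔ (p.Prime ∧ ¬ p ∣ 14 * b) ∧ z < p ∧ cd H p = i := by
  unfold CC
  rw [Finset.mem_filter, Finset.mem_Icc]
  constructor
  · exact fun h => h.2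
  · intro h
    refine ⟨⟨h.1.1.one_le, ?_⟩, h⟩
    have := le_XX hH h.1.1.one_le
    rw [← cd_div H p, h.2.2] at this
    exact this

section fill
variable {b z H : ℕ} {S₀ J : Finset ℕ} {p : J → ℕ}

theorem sm_fill (hH : 1 ≤ H) (h₀ : ∀ q ∈ S₀, q ≤ z) (hp : ∀ i : J, p i ∈ CC b z H i) :
    sm z (S₀ ∪ univ.image p) = S₀ := by
  ext q
  unfold sm
  rw [Finset.mem_filter, Finset.mem_union, Finset.mem_image]
  constructor
  · rintro ⟨h | ⟨i, -, rfl⟩, h2⟩
    · exact h
    · have := ((mem_CC hH).1 (hp i)).2.1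
      omega
  · exact fun h => ⟨Or.inl h, h₀ q h⟩

theorem la_fill (hH : 1 ≤ H) (h₀ : ∀ q ∈ S₀, q ≤ z) (hp : ∀ i : J, p i ∈ CC b z H i) :
    la z (S₀ ∪ univ.image p) = univ.image p := by
  ext q
  unfold la
  rw [Finset.mem_filter, Finset.mem_union, Finset.mem_image]
  constructor
  · rintro ⟨h | h, h2⟩
    · exact absurd (h₀ q h) h2
    · exact h
  · rintro ⟨i, -, rfl⟩
    have := ((mem_CC hH).1 (hp i)).2.1
    exact ⟨Or.inr ⟨i, Finset.mem_univ _, rfl⟩, by omega⟩

theorem ph_fill (hH : 1 ≤ H) (hp : ∀ i : J, p i ∈ CC b z H i) (i : J) : cd H (p i) = i :=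
  ((mem_CC hH).1 (hp i)).2.2

theorem im_fill (hH : 1 ≤ H) (hp : ∀ i : J, p i ∈ CC b z H i) :
    (univ.image p).image (cd H) = J := by
  ext k
  rw [Finset.mem_image]
  constructor
  · rintro ⟨q, hq, rfl⟩
    rw [Finset.mem_image] at hq
    obtain ⟨i, -, rfl⟩ := hq
    rw [ph_fill hH hp]
    exact i.2
  · intro hk
    exact ⟨p ⟨k, hk⟩, Finset.mem_image_of_mem _ (Finset.mem_univ _), ph_fill hH hp ⟨k, hk⟩⟩

theorem ky_fill (hH : 1 ≤ H) (h₀ : ∀ q ∈ S₀, q ≤ z) (hp : ∀ i : J, p i ∈ CC b z H i) :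
    ky z H (S₀ ∪ univ.image p) = (S₀, J) := by
  unfold ky
  rw [sm_fill hH h₀ hp, la_fill hH h₀ hp, im_fill hH hp]

theorem inj_fill (hH : 1 ≤ H) (h₀ : ∀ q ∈ S₀, q ≤ z) (hp : ∀ i : J, p i ∈ CC b z H i) :
    Set.InjOn (cd H) (la z (S₀ ∪ univ.image p) : Set ℕ) := by
  rw [la_fill hH h₀ hp]
  intro a ha b hb hab
  rw [Finset.mem_coe, Finset.mem_image] at ha hb
  obtain ⟨i, -, rfl⟩ := ha
  obtain ⟨j, -, rfl⟩ := hb
  rw [ph_fill hH hp, ph_fill hH hp] at hab
  rw [Subtype.ext hab]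

end fill

theorem rr_facts {b r X z H k V : ℕ} {S : Finset ℕ} (hS : S ∈ RR b r X z H k V) :
    (∀ q ∈ S, q.Prime ∧ ¬ q ∣ 14 * b) ∧ Set.InjOn (jj H) (la z S : Set ℕ) ∧ ∏ p ∈ S, p ≤ X := by
  unfold RR SS at hS
  rw [Finset.mem_filter, Finset.mem_filter] at hS
  exact ⟨hS.1.2.1.1, hS.2.1, hS.1.2.2⟩

theorem key_bij {b r X z H k V : ℕ} (hH : 1 ≤ H) {S₀ J : Finset ℕ}
    (hkey : KP b r X z H k V S₀ J) (P : Finset ℕ → Prop) [DecidablePred P] [DecidableEq J] :
    ((Fintype.piFinset fun i : J => CC b z H i).filter fun p => P (S₀ ∪ univ.image p)).card =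
      ((RR b r X z H k V).filter fun S => ky z H S = (S₀, J) ∧ P S).card := by
  have h₀ := hkey.le
  apply Finset.card_bij (fun (p : J → ℕ) _ => S₀ ∪ univ.image p)
  · intro p hp
    rw [Finset.mem_filter, Fintype.mem_piFinset] at hp
    obtain ⟨hp, hP⟩ := hp
    have hk := ky_fill hH h₀ hp
    rw [Finset.mem_filter]
    refine ⟨?_, hk, hP⟩
    rw [rr_iff hH _ (inj_fill hH h₀ hp), hk]
    · exact hkey
    · intro q hq
      rw [Finset.mem_union, Finset.mem_image] at hq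
      rcases hq with hq | ⟨i, -, rfl⟩
      · exact hkey.cl q hq
      · exact ((mem_CC hH).1 (hp i)).1
  · intro p hp p' hp' h
    rw [Finset.mem_filter, Fintype.mem_piFinset] at hp hp'
    have h1 := la_fill hH h₀ hp.1
    rw [h, la_fill hH h₀ hp'.1] at h1
    funext i
    have h2 : p i ∈ univ.image p' := by
      rw [h1]
      exact Finset.mem_image_of_mem _ (Finset.mem_univ _)
    rw [Finset.mem_image] at h2
    obtain ⟨j, -, hj⟩ := h2
    have h3 := ph_fill hH hp.1 i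
    have h4 := ph_fill hH hp'.1 j
    rw [hj, h3] at h4
    rw [← hj, Subtype.ext h4]
  · intro S hS
    rw [Finset.mem_filter] at hS
    obtain ⟨hSR, hSk, hSP⟩ := hS
    obtain ⟨hSO, hSI, -⟩ := rr_facts hSR
    have hk1 : sm z S = S₀ := congrArg Prod.fst hSk
    have hk2 : (la z S).image (cd H) = J := congrArg Prod.snd hSk
    have hex : ∀ i : J, ∃ q ∈ la z S, cd H q = i := by
      rintro ⟨i, hi⟩
      rw [← hk2, Finset.mem_image] at hi
      exact hi
    choose p hp1 hp2 using hex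
    have him : univ.image p = la z S := by
      ext q
      rw [Finset.mem_image]
      constructor
      · rintro ⟨i, -, rfl⟩
        exact hp1 i
      · intro hq
        have hjq : cd H q ∈ J := by
          rw [← hk2]
          exact Finset.mem_image_of_mem _ hq
        exact ⟨⟨cd H q, hjq⟩, Finset.mem_univ _, inj_cd hSI (Finset.mem_coe.2 (hp1 _))
          (Finset.mem_coe.2 hq) (hp2 ⟨cd H q, hjq⟩)⟩
    have hSe : S₀ ∪ univ.image p = S := by
      rw [him, ← hk1]
      unfold sm la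
      exact Finset.filter_union_filter_not_eq _ _
    refine ⟨p, ?_, hSe⟩
    rw [Finset.mem_filter, Fintype.mem_piFinset, hSe]
    refine ⟨fun i => (mem_CC hH).2 ⟨hSO _ (Finset.mem_filter.1 (hp1 i)).1,
      not_le.1 (Finset.mem_filter.1 (hp1 i)).2, hp2 i⟩, hSP⟩

theorem CC_facts {b z H : ℕ} (hH : 1 ≤ H) {i p : ℕ} (hp : p ∈ CC b z H i) :
    (p.Prime ∧ ¬ p ∣ 14 * b) ∧ z < p ∧ p ≤ XX H (i / 56) ∧ cd H p = i := by
  obtain ⟨h1, h2, h3⟩ := (mem_CC hH).1 hp
  refine ⟨h1, h2, ?_, h3⟩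
  unfold CC at hp
  exact (Finset.mem_Icc.1 (Finset.mem_filter.1 hp).1).2

theorem CC_disj {b z H : ℕ} (hH : 1 ≤ H) {J : Finset ℕ} (i l : J)
    (hil : i ≠ l) : Disjoint (CC b z H i) (CC b z H l) := by
  rw [Finset.disjoint_left]
  intro p hp hp'
  have h5 := ((mem_CC hH).1 hp).2.2
  have h6 := ((mem_CC hH).1 hp').2.2
  exact hil (Subtype.ext (h5.symm.trans h6))

theorem ne_of_cl {b q : ℕ} (h : q.Prime ∧ ¬ q ∣ 14 * b) : q ≠ 2 ∧ q ≠ 7 := by
  constructor
  · rintro rfl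
    exact h.2 (Dvd.dvd.mul_right (by norm_num) b)
  · rintro rfl
    exact h.2 (Dvd.dvd.mul_right (by norm_num) b)

theorem hb_box {C₁ : ℝ}
    (h1 : ∀ (P Q : Finset ℕ) (A B z s t : ℕ) (c d : ℕ → ℂ),
      (∀ p ∈ P, p.Prime ∧ p ≠ 2 ∧ p % 4 = s ∧ p ≤ A) →
      (∀ q ∈ Q, q.Prime ∧ q ≠ 2 ∧ q % 4 = t ∧ q ≤ B) →
      Disjoint P Q → 1 ≤ z → z ≤ A → z ≤ B → (∀ p, ‖c p‖ ≤ 1) → (∀ q, ‖d q‖ ≤ 1) →
      ‖∑ p ∈ P, ∑ q ∈ Q, c p * d q * sg (nr p q)‖ ^ 12 * z ≤ C₁ * ((A : ℝ) * B) ^ 12)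
    {b z H : ℕ} (hH : 1 ≤ H) (hz : 1 ≤ z) {κ : ℝ} (hκ : 0 ≤ κ) (hκ1 : C₁ ≤ κ ^ 12 * z)
    {J : Finset ℕ} :
    HB (univ : Finset J) (fun i : J => CC b z H i) (fun i => XX H ((i : ℕ) / 56)) κ := by
  intro i l hil hi c d hc hd
  show ‖∑ x ∈ CC b z H i, ∑ y ∈ CC b z H l, c x * d y * sg (nr x y)‖ ≤
    κ * ((XX H ((i : ℕ) / 56) : ℝ) * (XX H ((l : ℕ) / 56) : ℝ))
  have hz0 : (0 : ℝ) < z := by exact_mod_cast hz
  have hk0 : (0 : ℝ) ≤ κ * ((XX H ((i : ℕ) / 56) : ℝ) * (XX H ((l : ℕ) / 56) : ℝ)) := by positivity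
  rcases (CC b z H i).eq_empty_or_nonempty with he | ⟨p₀, hp₀⟩
  · rw [he, Finset.sum_empty, norm_zero]
    exact hk0
  rcases (CC b z H l).eq_empty_or_nonempty with he | ⟨q₀, hq₀⟩
  · rw [he]
    simp only [Finset.sum_empty, Finset.sum_const_zero, norm_zero]
    exact hk0
  have hzi : z ≤ XX H ((i : ℕ) / 56) := by
    have := CC_facts hH hp₀
    omega
  have hzl : z ≤ XX H ((l : ℕ) / 56) := by
    have := CC_facts hH hq₀
    omega
  have hm4 : ∀ (j : J), ∀ p ∈ CC b z H j, p.Prime ∧ p ≠ 2 ∧ p % 4 = (j : ℕ) % 4 ∧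
      p ≤ XX H ((j : ℕ) / 56) := by
    intro j p hp
    obtain ⟨h3, -, h4, h5⟩ := CC_facts hH hp
    refine ⟨h3.1, (ne_of_cl h3).1, ?_, h4⟩
    rw [← cd_m4 H p, h5]
  have h3 := h1 (CC b z H i) (CC b z H l) (XX H ((i : ℕ) / 56)) (XX H ((l : ℕ) / 56)) z
    ((i : ℕ) % 4) ((l : ℕ) % 4) c d (hm4 i) (hm4 l) (CC_disj hH i l hil) hz hzi hzl hc hd
  exact root12 (norm_nonneg _) hκ (Nat.cast_nonneg _) (Nat.cast_nonneg _) hz0 h3 hκ1

theorem box_dec (hBOX : S_BOX) (hEQ : S_EQ) (hLA : S_LA) (f : ℕ → ZMod 2) (ι : Type) [Fintype ι]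
    [inst : DecidableEq ι] (lo : LinearOrder ι) (JR JC J3 : Finset ι)
    (C : ι → Finset ℕ) (X : ι → ℕ) (κ : ℝ) (S₀ : Finset ℕ) (h1 : 0 ≤ κ)
    (h2 : ∀ i, (C i).card ≤ X i) (h3 : HB (univ : Finset ι) C X κ)
    (h4 : ∀ u ∈ S₀, u.Prime ∧ u ≠ 2 ∧ u ≠ 7)
    (h5 : ∀ i, ∀ p ∈ C i, p.Prime ∧ p ≠ 2 ∧ p ≠ 7 ∧ p ∉ S₀ ∧ (i ∈ JR ↔ sq7 p) ∧ (i ∈ JC ↔ sq2 p) ∧
      (i ∈ J3 ↔ p % 4 = 3))
    (h6 : ∀ i l, i ≠ l → Disjoint (C i) (C l)) (h7 : ∃ i, i ∉ JR ∧ i ∉ JC)
    (h8 : (S₀.filter sq2).card + JC.card = (S₀.filter sq7).card + JR.card) :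
    |(((Fintype.piFinset C).filter fun p => Nd S₀ (univ.image p) ∧
        Gd f (S₀ ∪ univ.image p)).card : ℝ) -
      eta * (((Fintype.piFinset C).filter fun p => Nd S₀ (univ.image p)).card : ℝ)| ≤
    (2 ^ S₀.card / 2 ^ (JC \ JR).card + 1 / 2 ^ (JR \ JC).card) *
      (((Fintype.piFinset C).filter fun p => Nd S₀ (univ.image p)).card : ℝ) +
    2 ^ ((2 * S₀.card + 1) * Fintype.card ι + (prs (univ : Finset ι)).card) *
      (κ * ∏ j, (X j : ℝ)) := by
  have h := hBOX hEQ hLA f ι JR JC J3 C X κ S₀ h1 h2 h3 h4 h5 h6 h7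
  have e : inst = fun a b => lo.toDecidableEq a b := Subsingleton.elim _ _
  subst e
  convert h ?_ using 1
  · convert h8

theorem sub_card (J : Finset ℕ) (P : ℕ → Prop) [DecidablePred P] :
    (univ.filter fun i : J => P i).card = (J.filter P).card := by
  rw [← Finset.card_map (Function.Embedding.subtype (· ∈ J))]
  congr 1
  ext x
  simp only [Finset.mem_map, Finset.mem_filter, Finset.mem_univ, true_and,
    Function.Embedding.coe_subtype]
  constructor
  · rintro ⟨u, hu, rfl⟩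
    exact ⟨u.2, hu⟩
  · rintro ⟨h, h'⟩
    exact ⟨⟨x, h⟩, h', rfl⟩

theorem sq2_card (S : Finset ℕ) : (S.filter sq2).card = (sS S).card + (sA S).card := by
  unfold sS sA
  rw [← Finset.filter_filter, ← Finset.filter_filter]
  exact (Finset.card_filter_add_card_filter_not _).symm

theorem sq7_card (S : Finset ℕ) : (S.filter sq7).card = (sS S).card + (sB S).card := by
  unfold sS sB
  have h1 : S.filter (fun p => sq2 p ∧ sq7 p) = (S.filter sq7).filter sq2 := by
    rw [Finset.filter_filter]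
    refine Finset.filter_congr fun p _ => ?_
    exact and_comm
  have h2 : S.filter (fun p => ¬ sq2 p ∧ sq7 p) = (S.filter sq7).filter fun p => ¬ sq2 p := by
    rw [Finset.filter_filter]
    refine Finset.filter_congr fun p _ => ?_
    exact and_comm
  rw [h1, h2]
  exact (Finset.card_filter_add_card_filter_not _).symm

theorem per_key (hBOX : S_BOX) (hEQ : S_EQ) (hLA : S_LA) (f : ℕ → ZMod 2)
    {b r X z H k V : ℕ} (hH : 1 ≤ H)
    {κ : ℝ} (hκ : 0 ≤ κ) {S₀ J : Finset ℕ} (hk : KP b r X z H k V S₀ J)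
    (hHB : HB (univ : Finset J) (fun i : J => CC b z H i)
      (fun i => XX H ((i : ℕ) / 56)) κ) :
    |(((RR b r X z H k V).filter fun S => ky z H S = (S₀, J) ∧
        (Nd (sm z S) (la z S) ∧ Gd f S)).card : ℝ) -
      eta * (((RR b r X z H k V).filter fun S => ky z H S = (S₀, J) ∧
        Nd (sm z S) (la z S)).card : ℝ)| ≤
    2 * (1 / 2 : ℝ) ^ V *
        (((RR b r X z H k V).filter fun S => ky z H S = (S₀, J)).card : ℝ) +
      (3 ^ (3 * k ^ 2) * κ) * (X / ((∏ p ∈ S₀, p : ℕ) : ℝ)) := by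
  set JR : Finset J := univ.filter fun e : J => sq7 e with hJR
  set JC : Finset J := univ.filter fun e : J => sq2 e with hJC
  set J3 : Finset J := univ.filter fun e : J => (e : ℕ) % 4 = 3 with hJ3
  have cR : JR.card = (J.filter sq7).card := sub_card J sq7
  have cC : JC.card = (J.filter sq2).card := sub_card J sq2
  have cA : (JC \ JR).card = (sA J).card := by
    have : JC \ JR = univ.filter fun e : J => sq2 e ∧ ¬ sq7 e := by
      ext e
      simp [hJR, hJC]
    rw [this]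
    exact sub_card J (fun p => sq2 p ∧ ¬ sq7 p)
  have cB : (JR \ JC).card = (sB J).card := by
    have : JR \ JC = univ.filter fun e : J => ¬ sq2 e ∧ sq7 e := by
      ext e
      simp [hJR, hJC, and_comm]
    rw [this]
    exact sub_card J (fun p => ¬ sq2 p ∧ sq7 p)
  have hfA : S₀.card + V < (JC \ JR).card := by
    rw [cA]
    exact hk.fewA
  have hfB : S₀.card + V < (JR \ JC).card := by
    rw [cB]
    exact hk.fewB
  have hinj : Function.Injective (fun i : J => (i : ℕ) / 56) := by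
    intro a b hab
    exact Subtype.ext (hk.inj (Finset.mem_coe.2 a.2) (Finset.mem_coe.2 b.2) hab)
  let lo : LinearOrder J := LinearOrder.lift' (fun i : J => (i : ℕ) / 56) hinj
  have hbox := box_dec hBOX hEQ hLA f J lo JR JC J3 (fun i => CC b z H i)
    (fun i => XX H ((i : ℕ) / 56)) κ S₀ hκ
    (fun i => by
      refine (Finset.card_filter_le _ _).trans ?_
      rw [Nat.card_Icc]
      omega)
    hHB (fun u hu => ⟨(hk.cl u hu).1, ne_of_cl (hk.cl u hu)⟩)
    (fun i p hp => by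
      obtain ⟨h3, h3', h4, h5⟩ := CC_facts hH hp
      refine ⟨h3.1, (ne_of_cl h3).1, (ne_of_cl h3).2, fun h => ?_, ?_, ?_, ?_⟩
      · have := hk.le p h
        omega
      · rw [hJR, Finset.mem_filter, ← h5, sq7_cd]
        simp
      · rw [hJC, Finset.mem_filter, ← h5, sq2_cd]
        simp
      · rw [hJ3, Finset.mem_filter, ← h5, cd_m4]
        simp)
    (fun i l hil => CC_disj hH i l hil)
    (by
      obtain ⟨e, he⟩ := hk.ine
      unfold sI at he
      rw [Finset.mem_filter] at he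
      exact ⟨⟨e, he.1⟩, fun h => he.2.2 (Finset.mem_filter.1 h).2,
        fun h => he.2.1 (Finset.mem_filter.1 h).2⟩)
    (by
      rw [cR, cC, sq2_card, sq2_card, sq7_card, sq7_card]
      have := hk.bal
      omega)
  have e1 : ((Fintype.piFinset fun i : J => CC b z H i).filter fun p => Nd S₀ (univ.image p) ∧
      Gd f (S₀ ∪ univ.image p)).card = ((RR b r X z H k V).filter fun S => ky z H S = (S₀, J) ∧
        (Nd (sm z S) (la z S) ∧ Gd f S)).card := by
    rw [← key_bij hH hk (fun S => Nd (sm z S) (la z S) ∧ Gd f S)]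
    congr 1
    refine Finset.filter_congr fun p hp => ?_
    rw [Fintype.mem_piFinset] at hp
    rw [sm_fill hH hk.le hp, la_fill hH hk.le hp]
  have e2 : ((Fintype.piFinset fun i : J => CC b z H i).filter fun p =>
      Nd S₀ (univ.image p)).card = ((RR b r X z H k V).filter fun S => ky z H S = (S₀, J) ∧
        Nd (sm z S) (la z S)).card := by
    rw [← key_bij hH hk (fun S => Nd (sm z S) (la z S))]
    congr 1
    refine Finset.filter_congr fun p hp => ?_
    rw [Fintype.mem_piFinset] at hp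
    rw [sm_fill hH hk.le hp, la_fill hH hk.le hp]
  rw [e1, e2] at hbox
  refine hbox.trans (add_le_add ?_ ?_)
  · have h3 : (2 : ℝ) ^ S₀.card / 2 ^ (JC \ JR).card + 1 / 2 ^ (JR \ JC).card ≤
        2 * (1 / 2) ^ V := by
      have h4 : (2 : ℝ) ^ S₀.card / 2 ^ (JC \ JR).card ≤ (1 / 2) ^ V := by
        rw [div_le_iff₀ (by positivity)]
        have h4 : (2 : ℝ) ^ (S₀.card + V) ≤ 2 ^ (JC \ JR).card :=
          pow_le_pow_right₀ (by norm_num) hfA.le
        have h5 : (1 / 2 : ℝ) ^ V * 2 ^ (S₀.card + V) = 2 ^ S₀.card := by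
          rw [pow_add, mul_comm, mul_assoc, ← mul_pow]
          norm_num
        calc (2 : ℝ) ^ S₀.card = (1 / 2 : ℝ) ^ V * 2 ^ (S₀.card + V) := h5.symm
          _ ≤ _ := by gcongr
      have h5 : (1 : ℝ) / 2 ^ (JR \ JC).card ≤ (1 / 2) ^ V := by
        rw [one_div_pow]
        apply one_div_le_one_div_of_le (by positivity)
        exact pow_le_pow_right₀ (by norm_num) (by omega)
      linarith
    have h4 : (((RR b r X z H k V).filter fun S => ky z H S = (S₀, J) ∧
        Nd (sm z S) (la z S)).card : ℝ) ≤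
        (((RR b r X z H k V).filter fun S => ky z H S = (S₀, J)).card : ℝ) := by
      have : (RR b r X z H k V).filter (fun S => ky z H S = (S₀, J) ∧ Nd (sm z S) (la z S)) ⊆
          (RR b r X z H k V).filter fun S => ky z H S = (S₀, J) := by
        intro S hS
        rw [Finset.mem_filter] at hS ⊢
        exact ⟨hS.1, hS.2.1⟩
      exact_mod_cast Finset.card_le_card this
    gcongr
  · have hcJ : Fintype.card J = J.card := Fintype.card_coe J
    have hcard := hk.card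
    have hJK : J.card ≤ k := by omega
    have hSK : S₀.card ≤ k := by omega
    obtain ⟨m, hm⟩ : ∃ m : ℕ, m = (@prs J _ lo (univ : Finset J)).card := ⟨_, rfl⟩
    have hpr : m ≤ k * k := by
      rw [hm]
      refine (@prs_card J _ lo _).trans ?_
      rw [hcJ]
      exact Nat.mul_le_mul hJK hJK
    rw [← hm]
    have h5 : (2 : ℝ) ^ ((2 * S₀.card + 1) * Fintype.card J + m) ≤ 3 ^ (3 * k ^ 2) := by
      rcases Nat.eq_zero_or_pos k with hk0 | hk0
      · have h6 : J.card = 0 := by omega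
        have h7 : m = 0 := by
          rw [hk0] at hpr
          omega
        rw [hcJ, h6, h7]
        simp [hk0]
      · have hexp : (2 * S₀.card + 1) * Fintype.card J + m ≤ 4 * k ^ 2 := by
          rw [hcJ]
          have h6 : S₀.card * J.card ≤ k * k := Nat.mul_le_mul hSK hJK
          have h7 : k ≤ k * k := Nat.le_mul_of_pos_left k hk0
          calc (2 * S₀.card + 1) * J.card + m = 2 * (S₀.card * J.card) + J.card + m := by ring
            _ ≤ 2 * (k * k) + k * k + k * k := by omega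
            _ = 4 * k ^ 2 := by ring
        calc (2 : ℝ) ^ ((2 * S₀.card + 1) * Fintype.card J + m) ≤ 2 ^ (4 * k ^ 2) :=
              pow_le_pow_right₀ (by norm_num) hexp
          _ = (16 : ℝ) ^ (k ^ 2) := by rw [pow_mul]; norm_num
          _ ≤ (27 : ℝ) ^ (k ^ 2) := by
              apply pow_le_pow_left₀ <;> norm_num
          _ = 3 ^ (3 * k ^ 2) := by rw [pow_mul]; norm_num
    have hN0 : (0 : ℝ) < ((∏ p ∈ S₀, p : ℕ) : ℝ) := by
      exact_mod_cast Finset.prod_pos fun p hp => (hk.cl p hp).1.pos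
    have hprod : ∏ j : J, (XX H ((j : ℕ) / 56) : ℝ) ≤ X / ((∏ p ∈ S₀, p : ℕ) : ℝ) := by
      have h5 : ∏ j : J, (XX H ((j : ℕ) / 56) : ℝ) = ((∏ k ∈ J, XX H (k / 56) : ℕ) : ℝ) := by
        rw [← Finset.prod_coe_sort J (fun k => XX H (k / 56))]
        push_cast
        rfl
      rw [h5, le_div_iff₀ hN0, mul_comm]
      exact_mod_cast hk.prod
    calc (2 : ℝ) ^ ((2 * S₀.card + 1) * Fintype.card J + m) *
        (κ * ∏ j : J, (XX H ((j : ℕ) / 56) : ℝ)) ≤
        3 ^ (3 * k ^ 2) * (κ * (X / ((∏ p ∈ S₀, p : ℕ) : ℝ))) := by gcongr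
      _ = _ := by ring

/-- **PR-KEY.** -/
theorem t_KEY : S_KEY := by
  intro hB1 hEQ hLA hBOX _
  obtain ⟨C₁, hC₁, h1⟩ := hB1
  refine ⟨C₁, hC₁, ?_⟩
  intro b r f X z H k V N κ hok hX hH hz hκ hκz hN
  set T := (RR b r X z H k V).image (ky z H) with hT
  set B : ℝ := 3 ^ (3 * k ^ 2) * κ with hB
  have hB0 : 0 ≤ B := by positivity
  have hfib : ∀ (P : Finset ℕ → Prop) [DecidablePred P],
      (((RR b r X z H k V).filter fun S => P S).card : ℝ) =
      ∑ e ∈ T, (((RR b r X z H k V).filter fun S => ky z H S = e ∧ P S).card : ℝ) := by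
    intro P _
    rw [Finset.card_eq_sum_card_fiberwise (f := ky z H) (t := T) (by
      intro S hS
      rw [Finset.mem_coe, Finset.mem_filter] at hS
      exact Finset.mem_coe.2 (Finset.mem_image_of_mem _ hS.1))]
    push_cast
    refine Finset.sum_congr rfl fun e _ => ?_
    congr 2
    ext S
    simp only [Finset.mem_filter]
    tauto
  have hKP : ∀ e ∈ T, KP b r X z H k V e.1 e.2 := by
    intro e he
    rw [hT, Finset.mem_image] at he
    obtain ⟨S, hS, rfl⟩ := he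
    obtain ⟨f1, f2, f3⟩ := rr_facts hS
    exact (rr_iff hH f1 (inj_cd f2)).1 hS
  have hf1 := hfib fun S => Nd (sm z S) (la z S) ∧ Gd f S
  have hf2 := hfib fun S => Nd (sm z S) (la z S)
  have hf3 := hfib fun _ => True
  simp only [and_true, Finset.filter_true] at hf3
  rw [hf1, hf2, hf3, Finset.mul_sum, ← Finset.sum_sub_distrib]
  refine (Finset.abs_sum_le_sum_abs _ _).trans ?_
  have h3 : ∀ e ∈ T, |(((RR b r X z H k V).filter fun S => ky z H S = e ∧
        (Nd (sm z S) (la z S) ∧ Gd f S)).card : ℝ) -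
      eta * (((RR b r X z H k V).filter fun S => ky z H S = e ∧
        Nd (sm z S) (la z S)).card : ℝ)| ≤
      2 * (1 / 2 : ℝ) ^ V * (((RR b r X z H k V).filter fun S => ky z H S = e).card : ℝ) +
      B * (X / ((∏ p ∈ e.1, p : ℕ) : ℝ)) := by
    intro e he
    obtain ⟨S₀, J⟩ := e
    have hk' := hKP _ he
    exact per_key hBOX hEQ hLA f hH hκ hk' (hb_box h1 hH (by omega) hκ hκz)
  refine (Finset.sum_le_sum h3).trans ?_
  rw [Finset.sum_add_distrib, ← Finset.mul_sum]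
  refine add_le_add le_rfl ?_
  have hsub : T ⊆ (TT X) ×ˢ ((range (56 * N)).powerset.filter fun J => J.card ≤ k) := by
    intro e he
    have hk' := hKP e he
    rw [hT, Finset.mem_image] at he
    obtain ⟨S, hS, rfl⟩ := he
    obtain ⟨f1, f2, f3⟩ := rr_facts hS
    rw [Finset.mem_product, Finset.mem_filter, Finset.mem_powerset]
    refine ⟨mem_TT (fun q hq => (hk'.cl q hq).1) ?_, ?_, ?_⟩
    · refine le_trans ?_ f3
      exact Nat.le_of_dvd (Finset.prod_pos fun p hp => (f1 p hp).1.pos)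
        (Finset.prod_dvd_prod_of_subset _ _ _ (Finset.filter_subset _ _))
    · intro e he
      unfold ky at he
      rw [Finset.mem_image] at he
      obtain ⟨q, hq, rfl⟩ := he
      have hqS := (Finset.mem_filter.1 hq).1
      have hq0 := (f1 q hqS).1.pos
      have hqX : q ≤ X := by
        refine le_trans ?_ f3
        exact Nat.le_of_dvd (Finset.prod_pos fun p hp => (f1 p hp).1.pos)
          (Finset.dvd_prod_of_mem _ hqS)
      rw [Finset.mem_range]
      have h3 : ((jj H q : ℕ) : ℝ) < N := by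
        refine lt_of_le_of_lt (Nat.floor_le (mul_nonneg (Nat.cast_nonneg _)
          (Real.log_nonneg (by exact_mod_cast hq0)))) ?_
        refine lt_of_le_of_lt ?_ hN
        refine mul_le_mul_of_nonneg_left ?_ (Nat.cast_nonneg _)
        exact Real.log_le_log (by exact_mod_cast hq0) (by exact_mod_cast hqX)
      have h4 : jj H q < N := by exact_mod_cast h3
      unfold cd
      omega
    · have := hk'.card
      omega
  refine (Finset.sum_le_sum_of_subset_of_nonneg hsub fun _ _ _ => by positivity).trans ?_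
  rw [Finset.sum_product]
  simp only [Finset.sum_const, nsmul_eq_mul]
  rw [← Finset.mul_sum]
  have h4 : ((((range (56 * N)).powerset.filter fun J => J.card ≤ k).card : ℕ) : ℝ) ≤
      (56 * N + 56 : ℝ) ^ k := by
    have h5 := card_sub (range (56 * N)) k
    rw [Finset.card_range] at h5
    calc ((((range (56 * N)).powerset.filter fun J => J.card ≤ k).card : ℕ) : ℝ) ≤
          (((56 * N + 1) ^ k : ℕ) : ℝ) := by exact_mod_cast h5
      _ = (56 * N + 1 : ℝ) ^ k := by push_cast; ring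
      _ ≤ _ := by
        apply pow_le_pow_left₀ (by positivity)
        linarith
  have h5 : ∑ S ∈ TT X, B * (X / ((∏ p ∈ S, p : ℕ) : ℝ)) ≤ B * (X * (1 + Real.log X)) := by
    have h6 : ∀ S ∈ TT X, B * ((X : ℝ) / ((∏ p ∈ S, p : ℕ) : ℝ)) =
        B * X * (1 / ((∏ p ∈ S, p : ℕ) : ℝ)) := by
      intro S _
      ring
    rw [Finset.sum_congr rfl h6, ← Finset.mul_sum]
    have h7 := mul_le_mul_of_nonneg_left (harm_TT X) (mul_nonneg hB0 (Nat.cast_nonneg X))
    refine h7.trans (le_of_eq ?_)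
    ring
  have h6 : 0 ≤ ∑ S ∈ TT X, B * ((X : ℝ) / ((∏ p ∈ S, p : ℕ) : ℝ)) :=
    Finset.sum_nonneg fun _ _ => by positivity
  rw [mul_assoc]
  gcongr

end Pool.Agent.NH5.PR
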