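import Pool.Agent.NH5.PR.Stm
import Pool.Agent.Erdos456.Mertens

/-!
# PR-10: the logarithmic size of the balanced class
-/

set_option autoImplicit false

namespace Pool.Agent.NH5.PR.LG

open Finset
open Pool.Agent.NH1 (sq2 sq7 sS sI sA sB)
open Pool.Agent.Y703.CQ (S_MER)
open Pool.Agent.NH5.PR

/-- the primes up to `y` not dividing `14 b` -/
noncomputable def Pb (b y : ℕ) : Finset ℕ := (range (y + 1)).filter fun p => p.Prime ∧ ¬ p ∣ 14 * b

/-- the balanced sets of these primes -/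
noncomputable def Bal (b y : ℕ) : Finset (Finset ℕ) :=
  (Pb b y).powerset.filter fun S => (sA S).card = (sB S).card

/-- the primes of types `S` and `I` -/
noncomputable def Mm (b y : ℕ) : Finset ℕ := (Pb b y).filter fun p => (sq2 p ↔ sq7 p)

lemma mem_sA {X : Finset ℕ} {p : ℕ} : p ∈ sA X ↔ p ∈ X ∧ sq2 p ∧ ¬ sq7 p := by
  unfold Pool.Agent.NH1.sA
  rw [mem_filter]

lemma mem_sB {X : Finset ℕ} {p : ℕ} : p ∈ sB X ↔ p ∈ X ∧ ¬ sq2 p ∧ sq7 p := by
  unfold Pool.Agent.NH1.sB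
  rw [mem_filter]

lemma mem_Mm {b y p : ℕ} : p ∈ Mm b y ↔ p ∈ Pb b y ∧ (sq2 p ↔ sq7 p) := by
  unfold Mm
  rw [mem_filter]

lemma mem_Eqs {A B T : Finset ℕ} : T ∈ Eqs A B ↔ T ⊆ A ∪ B ∧ (T ∩ A).card = (T ∩ B).card := by
  classical
  unfold Eqs
  rw [mem_filter, mem_powerset]

lemma disj_AB (b y : ℕ) : Disjoint (sA (Pb b y)) (sB (Pb b y)) := by
  rw [disjoint_left]
  intro p h1 h2
  rw [mem_sA] at h1
  rw [mem_sB] at h2
  exact h2.2.1 h1.2.1

/-- the weight of the balanced sets is a product -/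
lemma bal_sum (b y : ℕ) (w : ℕ → ℝ) : ∑ S ∈ Bal b y, ∏ p ∈ S, w p =
    (∑ T ∈ Eqs (sA (Pb b y)) (sB (Pb b y)), ∏ p ∈ T, w p) * ∏ p ∈ Mm b y, (1 + w p) := by
  classical
  rw [Finset.prod_one_add, Finset.sum_mul_sum, ← Finset.sum_product']
  refine Finset.sum_nbij' (fun S => (S ∩ (sA (Pb b y) ∪ sB (Pb b y)), S ∩ Mm b y)) (fun t => t.1 ∪ t.2)
    ?_ ?_ ?_ ?_ ?_
  · intro S hS
    rw [Bal, mem_filter, mem_powerset] at hS
    rw [mem_product, mem_Eqs, mem_powerset]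
    refine ⟨⟨inter_subset_right, ?_⟩, inter_subset_right⟩
    have e1 : S ∩ (sA (Pb b y) ∪ sB (Pb b y)) ∩ sA (Pb b y) = sA S := by
      ext p
      simp only [mem_inter, mem_union, mem_sA, mem_sB]
      constructor
      · rintro ⟨⟨h1, _⟩, h2⟩
        exact ⟨h1, h2.2⟩
      · rintro ⟨h1, h2⟩
        exact ⟨⟨h1, Or.inl ⟨hS.1 h1, h2⟩⟩, hS.1 h1, h2⟩
    have e2 : S ∩ (sA (Pb b y) ∪ sB (Pb b y)) ∩ sB (Pb b y) = sB S := by
      ext p
      simp only [mem_inter, mem_union, mem_sA, mem_sB]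
      constructor
      · rintro ⟨⟨h1, _⟩, h2⟩
        exact ⟨h1, h2.2⟩
      · rintro ⟨h1, h2⟩
        exact ⟨⟨h1, Or.inr ⟨hS.1 h1, h2⟩⟩, hS.1 h1, h2⟩
    rw [e1, e2]
    exact hS.2
  · rintro ⟨T, U⟩ ht
    rw [mem_product, mem_Eqs, mem_powerset] at ht
    obtain ⟨⟨h1, h2⟩, h3⟩ := ht
    simp only at h1 h2 h3
    rw [Bal, mem_filter, mem_powerset]
    constructor
    · intro p hp
      rcases mem_union.1 hp with hp | hp
      · rcases mem_union.1 (h1 hp) with h | h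
        · exact (mem_sA.1 h).1
        · exact (mem_sB.1 h).1
      · exact (mem_Mm.1 (h3 hp)).1
    · have e1 : sA (T ∪ U) = T ∩ sA (Pb b y) := by
        ext p
        simp only [mem_inter, mem_union, mem_sA]
        constructor
        · rintro ⟨h4 | h4, h5⟩
          · refine ⟨h4, ?_, h5⟩
            rcases mem_union.1 (h1 h4) with h | h
            · exact (mem_sA.1 h).1
            · exact (mem_sB.1 h).1
          · exact absurd ((mem_Mm.1 (h3 h4)).2.1 h5.1) h5.2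
        · rintro ⟨h4, h5⟩
          exact ⟨Or.inl h4, h5.2⟩
      have e2 : sB (T ∪ U) = T ∩ sB (Pb b y) := by
        ext p
        simp only [mem_inter, mem_union, mem_sB]
        constructor
        · rintro ⟨h4 | h4, h5⟩
          · refine ⟨h4, ?_, h5⟩
            rcases mem_union.1 (h1 h4) with h | h
            · exact (mem_sA.1 h).1
            · exact (mem_sB.1 h).1
          · exact absurd ((mem_Mm.1 (h3 h4)).2.2 h5.2) h5.1
        · rintro ⟨h4, h5⟩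
          exact ⟨Or.inl h4, h5.2⟩
      rw [e1, e2]
      exact h2
  · intro S hS
    rw [Bal, mem_filter, mem_powerset] at hS
    simp only
    ext p
    simp only [mem_inter, mem_union, mem_sA, mem_sB, mem_Mm]
    constructor
    · rintro (⟨h, _⟩ | ⟨h, _⟩) <;> exact h
    · intro h
      have hp := hS.1 h
      by_cases h2 : sq2 p <;> by_cases h7 : sq7 p <;> simp [h, hp, h2, h7]
  · rintro ⟨T, U⟩ ht
    rw [mem_product, mem_Eqs, mem_powerset] at ht
    obtain ⟨⟨h1, h2⟩, h3⟩ := ht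
    simp only at h1 h2 h3 ⊢
    rw [Prod.mk.injEq]
    constructor
    · ext p
      rw [mem_inter, mem_union]
      constructor
      · rintro ⟨h4 | h4, h5⟩
        · exact h4
        · exfalso
          have h6 := (mem_Mm.1 (h3 h4)).2
          rcases mem_union.1 h5 with h | h
          · have := (mem_sA.1 h).2
            tauto
          · have := (mem_sB.1 h).2
            tauto
      · intro h4
        exact ⟨Or.inl h4, h1 h4⟩
    · ext p
      rw [mem_inter, mem_union]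
      constructor
      · rintro ⟨h4 | h4, h5⟩
        · exfalso
          have h6 := (mem_Mm.1 h5).2
          rcases mem_union.1 (h1 h4) with h | h
          · have := (mem_sA.1 h).2
            tauto
          · have := (mem_sB.1 h).2
            tauto
        · exact h4
      · intro h4
        exact ⟨Or.inr h4, h3 h4⟩
  · intro S hS
    rw [Bal, mem_filter, mem_powerset] at hS
    simp only
    rw [← Finset.prod_union]
    · refine Finset.prod_congr ?_ fun _ _ => rfl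
      ext p
      simp only [mem_inter, mem_union, mem_sA, mem_sB, mem_Mm]
      constructor
      · intro h
        have hp := hS.1 h
        by_cases h2 : sq2 p <;> by_cases h7 : sq7 p <;> simp [h, hp, h2, h7]
      · rintro (⟨h, _⟩ | ⟨h, _⟩) <;> exact h
    · rw [disjoint_left]
      intro p h4 h5
      rw [mem_inter] at h4 h5
      have h6 := (mem_Mm.1 h5.2).2
      rcases mem_union.1 h4.2 with h | h
      · have := (mem_sA.1 h).2
        tauto
      · have := (mem_sB.1 h).2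
        tauto


/-! ### Mertens -/

lemma Pb_coprime {b y p : ℕ} (hp : p ∈ Pb b y) : Nat.Coprime (p % 56) 56 := by
  rw [Pb, mem_filter] at hp
  have h3 : Nat.Coprime p 56 := by
    rw [Nat.Prime.coprime_iff_not_dvd hp.2.1]
    intro h4
    rw [show (56 : ℕ) = 2 ^ 3 * 7 by norm_num, hp.2.1.dvd_mul] at h4
    rcases h4 with h4 | h4
    · have := hp.2.1.dvd_of_dvd_pow h4
      exact hp.2.2 (Dvd.dvd.mul_right (this.trans (by norm_num)) b)
    · exact hp.2.2 (Dvd.dvd.mul_right (h4.trans (by norm_num)) b)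
  have h4 : Nat.gcd 56 p = Nat.gcd (p % 56) 56 := Nat.gcd_rec 56 p
  unfold Nat.Coprime at h3 ⊢
  rw [← h4, Nat.gcd_comm]
  exact h3

/-- Mertens' theorem for the primes not dividing `14 b` with residues in `Rs` -/
lemma mert_res (hM : S_MER) (b : ℕ) (hb : 0 < b) (c : ℕ → Prop) [DecidablePred c] (hc : ∀ p, c p ↔ c (p % 56))
    (Rs : Finset ℕ) (hRs : ∀ a, a ∈ Rs ↔ a < 56 ∧ Nat.Coprime a 56 ∧ c a) : ∃ C : ℝ, ∀ y : ℕ, 3 ≤ y →
    |∑ p ∈ (Pb b y).filter c, (1 : ℝ) / p - (Rs.card : ℝ) / 24 * Real.log (Real.log y)| ≤ C := by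
  classical
  have hM' : ∀ a : ℕ, ∃ C : ℝ, Nat.Coprime a 56 → ∀ y : ℕ, 3 ≤ y →
      |∑ p ∈ (range (y + 1)).filter (fun p => p.Prime ∧ p % 56 = a % 56), (1 : ℝ) / p -
        1 / 24 * Real.log (Real.log y)| ≤ C := by
    intro a
    by_cases ha : Nat.Coprime a 56
    · obtain ⟨C, hC⟩ := hM a ha
      refine ⟨C, fun _ y hy => ?_⟩
      have := hC y hy
      convert this
    · exact ⟨0, fun h => absurd h ha⟩
  choose C hC using hM'
  refine ⟨∑ a ∈ Rs, C a + ∑ p ∈ (14 * b).primeFactors, (1 : ℝ) / p, fun y hy => ?_⟩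
  set Q : Finset ℕ := (range (y + 1)).filter (fun p => p.Prime ∧ p % 56 ∈ Rs) with hQ
  have hmaps : ∀ p ∈ Q, p % 56 ∈ Rs := fun p hp => (mem_filter.1 hp).2.2
  have hQsum : |∑ p ∈ Q, (1 : ℝ) / p - (Rs.card : ℝ) / 24 * Real.log (Real.log y)| ≤ ∑ a ∈ Rs, C a := by
    rw [← sum_fiberwise_of_maps_to hmaps]
    have e : (Rs.card : ℝ) / 24 * Real.log (Real.log y) = ∑ a ∈ Rs, 1 / 24 * Real.log (Real.log y) := by
      rw [sum_const, nsmul_eq_mul]
      ring
    rw [e, ← sum_sub_distrib]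
    refine (abs_sum_le_sum_abs _ _).trans (sum_le_sum fun a ha => ?_)
    obtain ⟨ha1, ha2, ha3⟩ := (hRs a).1 ha
    have e2 : Q.filter (fun p => p % 56 = a) = (range (y + 1)).filter (fun p => p.Prime ∧ p % 56 = a % 56) := by
      ext p
      rw [hQ, mem_filter, mem_filter, mem_filter, Nat.mod_eq_of_lt ha1]
      constructor
      · rintro ⟨⟨h1, h2, h3⟩, h4⟩
        exact ⟨h1, h2, h4⟩
      · rintro ⟨h1, h2, h4⟩
        exact ⟨⟨h1, h2, by rw [h4]; exact ha⟩, h4⟩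
    rw [e2]
    exact hC a ha2 y hy
  have hsub : (Pb b y).filter c ⊆ Q := by
    intro p hp
    rw [mem_filter] at hp
    have hcop := Pb_coprime hp.1
    have hp1 := hp.1
    rw [Pb, mem_filter] at hp1
    rw [hQ, mem_filter]
    refine ⟨hp1.1, hp1.2.1, ?_⟩
    rw [hRs]
    exact ⟨Nat.mod_lt _ (by norm_num), hcop, (hc p).1 hp.2⟩
  have hdiff : Q \ (Pb b y).filter c ⊆ (14 * b).primeFactors := by
    intro p hp
    rw [mem_sdiff, hQ, mem_filter, mem_filter, Pb, mem_filter] at hp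
    obtain ⟨⟨h1, h2, h3⟩, h4⟩ := hp
    rw [hRs] at h3
    rw [Nat.mem_primeFactors]
    refine ⟨h2, ?_, by positivity⟩
    by_contra h5
    exact h4 ⟨⟨h1, h2, h5⟩, (hc p).2 h3.2.2⟩
  have h1 := sum_sdiff (f := fun p : ℕ => (1 : ℝ) / p) hsub
  have h2 : ∑ p ∈ Q \ (Pb b y).filter c, (1 : ℝ) / p ≤ ∑ p ∈ (14 * b).primeFactors, (1 : ℝ) / p :=
    sum_le_sum_of_subset_of_nonneg hdiff fun _ _ _ => by positivity
  have h3 : 0 ≤ ∑ p ∈ Q \ (Pb b y).filter c, (1 : ℝ) / p := sum_nonneg fun _ _ => by positivity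
  have h4 := abs_le.1 hQsum
  rw [abs_le]
  constructor <;> linarith [h4.1, h4.2]

instance (p : ℕ) : Decidable (sq2 p ∧ ¬ sq7 p) := inferInstance

lemma sq2_mod (p : ℕ) : sq2 p ↔ sq2 (p % 56) := by
  unfold Pool.Agent.NH1.sq2
  rw [Nat.mod_mod_of_dvd p (by norm_num : 8 ∣ 56)]

lemma sq7_mod (p : ℕ) : sq7 p ↔ sq7 (p % 56) := by
  unfold Pool.Agent.NH1.sq7
  rw [Nat.mod_mod_of_dvd p (by norm_num : 7 ∣ 56)]

def RsA : Finset ℕ := (range 56).filter fun a => Nat.Coprime a 56 ∧ (sq2 a ∧ ¬ sq7 a)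
def RsB : Finset ℕ := (range 56).filter fun a => Nat.Coprime a 56 ∧ (¬ sq2 a ∧ sq7 a)
def RsM : Finset ℕ := (range 56).filter fun a => Nat.Coprime a 56 ∧ (sq2 a ↔ sq7 a)

lemma card_RsA : RsA.card = 6 := by decide
lemma card_RsB : RsB.card = 6 := by decide
lemma card_RsM : RsM.card = 12 := by decide

lemma mert_A (hM : S_MER) (b : ℕ) (hb : 0 < b) : ∃ C : ℝ, ∀ y : ℕ, 3 ≤ y →
    |∑ p ∈ sA (Pb b y), (1 : ℝ) / p - 1 / 4 * Real.log (Real.log y)| ≤ C := by
  obtain ⟨C, hC⟩ := mert_res hM b hb (fun p => sq2 p ∧ ¬ sq7 p) (fun p => by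
    rw [sq2_mod p, sq7_mod p]) RsA (fun a => by rw [RsA, mem_filter, mem_range])
  refine ⟨C, fun y hy => ?_⟩
  have := hC y hy
  rw [card_RsA] at this
  have e : ((6 : ℕ) : ℝ) / 24 = 1 / 4 := by norm_num
  rw [e] at this
  convert this using 4
  ext p
  rw [mem_sA, mem_filter]

lemma mert_B (hM : S_MER) (b : ℕ) (hb : 0 < b) : ∃ C : ℝ, ∀ y : ℕ, 3 ≤ y →
    |∑ p ∈ sB (Pb b y), (1 : ℝ) / p - 1 / 4 * Real.log (Real.log y)| ≤ C := by
  obtain ⟨C, hC⟩ := mert_res hM b hb (fun p => ¬ sq2 p ∧ sq7 p) (fun p => by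
    rw [sq2_mod p, sq7_mod p]) RsB (fun a => by rw [RsB, mem_filter, mem_range])
  refine ⟨C, fun y hy => ?_⟩
  have := hC y hy
  rw [card_RsB] at this
  have e : ((6 : ℕ) : ℝ) / 24 = 1 / 4 := by norm_num
  rw [e] at this
  convert this using 4
  ext p
  rw [mem_sB, mem_filter]

lemma mert_M (hM : S_MER) (b : ℕ) (hb : 0 < b) : ∃ C : ℝ, ∀ y : ℕ, 3 ≤ y →
    |∑ p ∈ Mm b y, (1 : ℝ) / p - 1 / 2 * Real.log (Real.log y)| ≤ C := by
  obtain ⟨C, hC⟩ := mert_res hM b hb (fun p => (sq2 p ↔ sq7 p)) (fun p => by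
    rw [sq2_mod p, sq7_mod p]) RsM (fun a => by rw [RsM, mem_filter, mem_range])
  refine ⟨C, fun y hy => ?_⟩
  have := hC y hy
  rw [card_RsM] at this
  have e : ((12 : ℕ) : ℝ) / 24 = 1 / 2 := by norm_num
  rw [e] at this
  convert this using 4
  ext p
  rw [mem_Mm, mem_filter]

/-- the primes of types `A` and `B` are larger than `10` -/
lemma gt_ten_A {b y p : ℕ} (hp : p ∈ sA (Pb b y)) : 10 < p := by
  rw [mem_sA, Pb, mem_filter] at hp
  obtain ⟨⟨_, h1, h2⟩, h3, h4⟩ := hp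
  by_contra h5
  push Not at h5
  interval_cases p
  · exact absurd h1 (by norm_num)
  · exact absurd h1 (by norm_num)
  · exact h2 (Dvd.intro (7 * b) (by ring))
  · exact absurd h3 (by decide)
  · exact absurd h1 (by norm_num)
  · exact absurd h3 (by decide)
  · exact absurd h1 (by norm_num)
  · exact h2 (Dvd.intro (2 * b) (by ring))
  · exact absurd h1 (by norm_num)
  · exact absurd h1 (by norm_num)
  · exact absurd h1 (by norm_num)

lemma gt_ten_B {b y p : ℕ} (hp : p ∈ sB (Pb b y)) : 10 < p := by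
  rw [mem_sB, Pb, mem_filter] at hp
  obtain ⟨⟨_, h1, h2⟩, h3, h4⟩ := hp
  by_contra h5
  push Not at h5
  interval_cases p
  · exact absurd h1 (by norm_num)
  · exact absurd h1 (by norm_num)
  · exact h2 (Dvd.intro (7 * b) (by ring))
  · exact absurd h4 (by decide)
  · exact absurd h1 (by norm_num)
  · exact absurd h4 (by decide)
  · exact absurd h1 (by norm_num)
  · exact h2 (Dvd.intro (2 * b) (by ring))
  · exact absurd h1 (by norm_num)
  · exact absurd h1 (by norm_num)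
  · exact absurd h1 (by norm_num)

lemma sq_small (S : Finset ℕ) (hS : ∀ p ∈ S, 10 < p) : ∑ p ∈ S, ((1 : ℝ) / p) ^ 2 ≤ 1 / 2 := by
  set n : ℕ := S.sup id + 10 with hn
  have hsub : S ⊆ Ioc 10 n := by
    intro p hp
    rw [mem_Ioc]
    refine ⟨hS p hp, ?_⟩
    have : p ≤ S.sup id := le_sup (f := id) hp
    omega
  have h1 := sum_Ioc_inv_sq_le_sub (α := ℝ) (k := 10) (n := n) (by norm_num) (by omega)
  calc ∑ p ∈ S, ((1 : ℝ) / p) ^ 2 ≤ ∑ p ∈ Ioc 10 n, ((1 : ℝ) / p) ^ 2 :=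
        sum_le_sum_of_subset_of_nonneg hsub fun _ _ _ => by positivity
    _ = ∑ i ∈ Ioc 10 n, ((i : ℝ) ^ 2)⁻¹ := sum_congr rfl fun i _ => by rw [one_div, inv_pow]
    _ ≤ _ := by
        refine h1.trans ?_
        have : (0 : ℝ) ≤ (n : ℝ)⁻¹ := by positivity
        norm_num
        linarith

lemma sq_all (S : Finset ℕ) (hS : ∀ p ∈ S, 1 < p) : ∑ p ∈ S, ((1 : ℝ) / p) ^ 2 ≤ 1 := by
  set n : ℕ := S.sup id + 1 with hn
  have hsub : S ⊆ Ioc 1 n := by
    intro p hp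
    rw [mem_Ioc]
    refine ⟨hS p hp, ?_⟩
    have : p ≤ S.sup id := le_sup (f := id) hp
    omega
  have h1 := sum_Ioc_inv_sq_le_sub (α := ℝ) (k := 1) (n := n) (by norm_num) (by omega)
  calc ∑ p ∈ S, ((1 : ℝ) / p) ^ 2 ≤ ∑ p ∈ Ioc 1 n, ((1 : ℝ) / p) ^ 2 :=
        sum_le_sum_of_subset_of_nonneg hsub fun _ _ _ => by positivity
    _ = ∑ i ∈ Ioc 1 n, ((i : ℝ) ^ 2)⁻¹ := sum_congr rfl fun i _ => by rw [one_div, inv_pow]
    _ ≤ _ := by
        refine h1.trans ?_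
        have : (0 : ℝ) ≤ (n : ℝ)⁻¹ := by positivity
        norm_num

/-! ### the weights `p ^ (σ - 1)` -/

lemma exp_le_two {t : ℝ} (h0 : 0 ≤ t) (h1 : t ≤ 1) : Real.exp t - 1 ≤ 2 * t := by
  have h := Real.abs_exp_sub_one_le (x := t) (by rw [abs_of_nonneg h0]; exact h1)
  rw [abs_of_nonneg h0] at h
  exact (le_abs_self _).trans h

/-- the weight -/
noncomputable def ww (s : ℝ) (p : ℕ) : ℝ := Real.exp (s * Real.log p) / p

lemma ww_nonneg (s : ℝ) (p : ℕ) : 0 ≤ ww s p := by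
  unfold ww
  positivity

lemma ww_ge {s : ℝ} (hs : 0 ≤ s) (p : ℕ) : (1 : ℝ) / p ≤ ww s p := by
  unfold ww
  have : 1 ≤ Real.exp (s * Real.log p) :=
    Real.one_le_exp (mul_nonneg hs (Real.log_natCast_nonneg p))
  gcongr

lemma ww_prod (s : ℝ) (S : Finset ℕ) (hS : ∀ p ∈ S, p.Prime) :
    ∏ p ∈ S, ww s p = Real.exp (s * Real.log ((∏ p ∈ S, p : ℕ) : ℝ)) / ((∏ p ∈ S, p : ℕ) : ℝ) := by
  unfold ww
  rw [Finset.prod_div_distrib, ← Real.exp_sum]
  push_cast
  rw [Real.log_prod (fun p hp => by exact_mod_cast (hS p hp).ne_zero), Finset.mul_sum]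

/-- the sum of the weights -/
lemma ww_sum : ∃ C : ℝ, 0 ≤ C ∧ ∀ (b y : ℕ), 3 ≤ y → ∀ S : Finset ℕ, S ⊆ Pb b y →
    ∑ p ∈ S, ww (1 / Real.log y) p ≤ ∑ p ∈ S, (1 : ℝ) / p + C := by
  obtain ⟨C, hC⟩ := Pool.Agent.Erdos456.Mert.mertens_log
  have hC0 : 0 ≤ C := (abs_nonneg _).trans (hC 1 le_rfl)
  refine ⟨2 + 2 * C, by positivity, fun b y hy S hS => ?_⟩
  have hy0 : (0 : ℝ) < y := by exact_mod_cast (by omega : 0 < y)
  have hlog : 1 ≤ Real.log y := by
    have h1 : Real.log 3 ≤ Real.log y := Real.log_le_log (by norm_num) (by exact_mod_cast hy)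
    have h2 : (1 : ℝ) ≤ Real.log 3 := by
      rw [Real.le_log_iff_exp_le (by norm_num)]
      exact Real.exp_one_lt_d9.le.trans (by norm_num)
    linarith
  have hlog0 : 0 < Real.log y := by linarith
  have h1 : ∀ p ∈ S, ww (1 / Real.log y) p ≤ (1 : ℝ) / p + 2 / Real.log y * (Real.log p / p) := by
    intro p hp
    have hp1 := hS hp
    rw [Pb, mem_filter, mem_range] at hp1
    have hp0 : (0 : ℝ) < p := by exact_mod_cast hp1.2.1.pos
    have hpy : Real.log p ≤ Real.log y := Real.log_le_log hp0 (by exact_mod_cast (by omega : p ≤ y))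
    have ht0 : 0 ≤ 1 / Real.log y * Real.log p := mul_nonneg (by positivity) (Real.log_natCast_nonneg p)
    have ht1 : 1 / Real.log y * Real.log p ≤ 1 := by
      rw [one_div, inv_mul_le_one₀ hlog0]
      exact hpy
    have h2 := exp_le_two ht0 ht1
    unfold ww
    calc Real.exp (1 / Real.log y * Real.log p) / p ≤ (1 + 2 * (1 / Real.log y * Real.log p)) / p := by
          gcongr
          linarith
      _ = _ := by ring
  calc ∑ p ∈ S, ww (1 / Real.log y) p ≤ ∑ p ∈ S, ((1 : ℝ) / p + 2 / Real.log y * (Real.log p / p)) :=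
        sum_le_sum h1
    _ = ∑ p ∈ S, (1 : ℝ) / p + 2 / Real.log y * ∑ p ∈ S, Real.log p / p := by
        rw [sum_add_distrib, ← mul_sum]
    _ ≤ ∑ p ∈ S, (1 : ℝ) / p + 2 / Real.log y * (Real.log y + C) := by
        have h3 : ∑ p ∈ S, Real.log p / p ≤ ∑ p ∈ (Icc 1 y).filter Nat.Prime, Real.log p / p := by
          refine sum_le_sum_of_subset_of_nonneg ?_ fun p _ _ => div_nonneg (Real.log_natCast_nonneg p) (Nat.cast_nonneg _)
          intro p hp
          have hp1 := hS hp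
          rw [Pb, mem_filter, mem_range] at hp1
          rw [mem_filter, mem_Icc]
          exact ⟨⟨hp1.2.1.pos, by omega⟩, hp1.2.1⟩
        have h4 := (abs_le.1 (hC y (by omega))).2
        have h5 : ∑ p ∈ S, Real.log p / p ≤ Real.log y + C := by linarith
        gcongr
    _ ≤ _ := by
        have h3 : 2 / Real.log y * (Real.log y + C) = 2 + 2 * C / Real.log y := by
          field_simp
        rw [h3]
        have h4 : 2 * C / Real.log y ≤ 2 * C := div_le_self (by positivity) hlog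
        linarith

/-! ### products -/

lemma one_add_ge {x : ℝ} (h0 : 0 ≤ x) : Real.exp (x - x ^ 2) ≤ 1 + x := by
  have h1 : 1 - (1 + x)⁻¹ ≤ Real.log (1 + x) := Real.one_sub_inv_le_log_of_pos (by linarith)
  have h2 : x - x ^ 2 ≤ 1 - (1 + x)⁻¹ := by
    have h3 : 1 - (1 + x)⁻¹ = x / (1 + x) := by
      field_simp
      ring
    rw [h3, le_div_iff₀ (by linarith)]
    nlinarith [pow_nonneg h0 3]
  rw [← Real.le_log_iff_exp_le (by linarith)]
  linarith

lemma prod_one_add_ge (S : Finset ℕ) (hS : ∀ p ∈ S, 1 < p) :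
    Real.exp (∑ p ∈ S, (1 : ℝ) / p - 1) ≤ ∏ p ∈ S, (1 + (1 : ℝ) / p) := by
  calc Real.exp (∑ p ∈ S, (1 : ℝ) / p - 1) ≤ Real.exp (∑ p ∈ S, ((1 : ℝ) / p - ((1 : ℝ) / p) ^ 2)) := by
        apply Real.exp_le_exp.2
        rw [sum_sub_distrib]
        have := sq_all S hS
        linarith
    _ = ∏ p ∈ S, Real.exp ((1 : ℝ) / p - ((1 : ℝ) / p) ^ 2) := Real.exp_sum _ _
    _ ≤ _ := prod_le_prod (fun _ _ => (Real.exp_pos _).le) fun p _ => one_add_ge (by positivity)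

lemma prod_one_add_le (S : Finset ℕ) (w : ℕ → ℝ) (hw : ∀ p, 0 ≤ w p) :
    ∏ p ∈ S, (1 + w p) ≤ Real.exp (∑ p ∈ S, w p) := by
  rw [Real.exp_sum]
  refine prod_le_prod (fun p _ => by have := hw p; linarith) fun p _ => ?_
  rw [add_comm]
  exact Real.add_one_le_exp _

/-! ### lower and upper bounds -/

lemma log_ge (y : ℕ) (hy : 3 ≤ y) : 1 ≤ Real.log y := by
  have h1 : Real.log 3 ≤ Real.log y := Real.log_le_log (by norm_num) (by exact_mod_cast hy)
  have h2 : (1 : ℝ) ≤ Real.log 3 := by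
    rw [Real.le_log_iff_exp_le (by norm_num)]
    exact Real.exp_one_lt_d9.le.trans (by norm_num)
  linarith

lemma one_lt_of_mem {b y p : ℕ} (hp : p ∈ Pb b y) : 1 < p := by
  rw [Pb, mem_filter] at hp
  exact hp.2.1.one_lt

lemma ll_tendsto : Filter.Tendsto (fun y : ℕ => Real.log (Real.log y)) Filter.atTop Filter.atTop :=
  Real.tendsto_log_atTop.comp (Real.tendsto_log_atTop.comp tendsto_natCast_atTop_atTop)

lemma ll_large (c : ℝ) : ∃ y₀ : ℕ, 3 ≤ y₀ ∧ ∀ y : ℕ, y₀ ≤ y → c ≤ Real.log (Real.log y) := by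
  obtain ⟨y₀, h⟩ := Filter.eventually_atTop.1 (ll_tendsto.eventually (Filter.eventually_ge_atTop c))
  exact ⟨max 3 y₀, le_max_left _ _, fun y hy => h y ((le_max_right _ _).trans hy)⟩

lemma G_lower (hM : S_MER) (hPL : S_PL) (b : ℕ) (hb : 0 < b) : ∃ (c : ℝ) (y₀ : ℕ), 0 < c ∧ 3 ≤ y₀ ∧
    ∀ y : ℕ, y₀ ≤ y → c * (Real.log y / Real.sqrt (Real.log (Real.log y))) ≤
      ∑ S ∈ Bal b y, ∏ p ∈ S, (1 : ℝ) / p := by
  obtain ⟨C1, hC1⟩ := mert_A hM b hb
  obtain ⟨C2, hC2⟩ := mert_B hM b hb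
  obtain ⟨C3, hC3⟩ := mert_M hM b hb
  have hC10 : 0 ≤ C1 := (abs_nonneg _).trans (hC1 3 le_rfl)
  have hC20 : 0 ≤ C2 := (abs_nonneg _).trans (hC2 3 le_rfl)
  obtain ⟨c0, P0, hc0, hP0, hPL⟩ := hPL (C1 + C2)
  obtain ⟨y₀, hy₀, hll⟩ := ll_large (4 * (P0 + C1))
  refine ⟨c0 * Real.exp (-(C1 + C2 + C3 + 1)), y₀, by positivity, hy₀, fun y hy => ?_⟩
  have hy3 : 3 ≤ y := hy₀.trans hy
  have hl := hll y hy
  set l : ℝ := Real.log (Real.log y) with hldef
  have hlogy : 1 ≤ Real.log y := log_ge y hy3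
  have hexp : Real.exp l = Real.log y := Real.exp_log (by linarith)
  have hA := abs_le.1 (hC1 y hy3)
  have hB := abs_le.1 (hC2 y hy3)
  have hMm := abs_le.1 (hC3 y hy3)
  set sa : ℝ := ∑ p ∈ sA (Pb b y), (1 : ℝ) / p with hsa
  set sb : ℝ := ∑ p ∈ sB (Pb b y), (1 : ℝ) / p with hsb
  set sm : ℝ := ∑ p ∈ Mm b y, (1 : ℝ) / p with hsm
  have hl4 : 4 ≤ l := by linarith
  have hsaP : P0 ≤ sa := by linarith
  have hsa_le : sa ≤ l := by linarith
  have hsa0 : 0 < sa := by linarith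
  have h1 := hPL (sA (Pb b y)) (sB (Pb b y)) (fun p => (1 : ℝ) / p) (disj_AB b y) (fun p => by positivity)
    (sq_small _ fun p hp => gt_ten_A hp) (sq_small _ fun p hp => gt_ten_B hp)
    (by rw [abs_le]; constructor <;> linarith [hA.1, hA.2, hB.1, hB.2]) hsaP
  rw [bal_sum]
  have h2 := prod_one_add_ge (Mm b y) (fun p hp => one_lt_of_mem (mem_Mm.1 hp).1)
  rw [← hsm] at h2
  have h3 : c0 * Real.exp (l / 2 - C1 - C2) / Real.sqrt l ≤
      ∑ T ∈ Eqs (sA (Pb b y)) (sB (Pb b y)), ∏ p ∈ T, (1 : ℝ) / p := by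
    refine le_trans ?_ h1
    have : 0 < Real.sqrt sa := Real.sqrt_pos.2 hsa0
    have h4 : Real.sqrt sa ≤ Real.sqrt l := Real.sqrt_le_sqrt hsa_le
    have h5 : Real.exp (l / 2 - C1 - C2) ≤ Real.exp (sa + sb) := Real.exp_le_exp.2 (by linarith [hA.1, hB.1])
    gcongr
  have h4 : Real.exp (l / 2 - C3 - 1) ≤ ∏ p ∈ Mm b y, (1 + (1 : ℝ) / p) :=
    le_trans (Real.exp_le_exp.2 (by linarith [hMm.1])) h2
  have h5 : c0 * Real.exp (-(C1 + C2 + C3 + 1)) * (Real.log y / Real.sqrt l) =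
      (c0 * Real.exp (l / 2 - C1 - C2) / Real.sqrt l) * Real.exp (l / 2 - C3 - 1) := by
    rw [← hexp]
    have e : Real.exp (-(C1 + C2 + C3 + 1)) * Real.exp l =
        Real.exp (l / 2 - C1 - C2) * Real.exp (l / 2 - C3 - 1) := by
      rw [← Real.exp_add, ← Real.exp_add]
      congr 1
      ring
    calc c0 * Real.exp (-(C1 + C2 + C3 + 1)) * (Real.exp l / Real.sqrt l) =
        c0 * (Real.exp (-(C1 + C2 + C3 + 1)) * Real.exp l) / Real.sqrt l := by ring
      _ = _ := by rw [e]; ring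
  rw [h5]
  exact mul_le_mul h3 h4 (Real.exp_pos _).le (le_trans (by positivity) h3)

lemma G_upper (hM : S_MER) (hPU : S_PU) (b : ℕ) (hb : 0 < b) : ∃ (C : ℝ) (y₀ : ℕ), 0 < C ∧ 3 ≤ y₀ ∧
    ∀ y : ℕ, y₀ ≤ y → ∑ S ∈ Bal b y, ∏ p ∈ S, ww (1 / Real.log y) p ≤
      C * (Real.log y / Real.sqrt (Real.log (Real.log y))) := by
  obtain ⟨C1, hC1⟩ := mert_A hM b hb
  obtain ⟨C2, hC2⟩ := mert_B hM b hb
  obtain ⟨C3, hC3⟩ := mert_M hM b hb
  obtain ⟨Cw, hCw0, hCw⟩ := ww_sum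
  have hC10 : 0 ≤ C1 := (abs_nonneg _).trans (hC1 3 le_rfl)
  obtain ⟨C0, hC0, hPU⟩ := hPU
  obtain ⟨y₀, hy₀, hll⟩ := ll_large (8 * (1 + C1))
  refine ⟨3 * C0 * Real.exp (C1 + C2 + C3 + 3 * Cw), y₀, by positivity, hy₀, fun y hy => ?_⟩
  have hy3 : 3 ≤ y := hy₀.trans hy
  have hl := hll y hy
  set l : ℝ := Real.log (Real.log y) with hldef
  have hlogy : 1 ≤ Real.log y := log_ge y hy3
  have hs0 : 0 ≤ 1 / Real.log y := by positivity
  have hexp : Real.exp l = Real.log y := Real.exp_log (by linarith)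
  have hA := abs_le.1 (hC1 y hy3)
  have hB := abs_le.1 (hC2 y hy3)
  have hMm := abs_le.1 (hC3 y hy3)
  set s : ℝ := 1 / Real.log y with hs
  have hsubA : sA (Pb b y) ⊆ Pb b y := fun p hp => (mem_sA.1 hp).1
  have hsubB : sB (Pb b y) ⊆ Pb b y := fun p hp => (mem_sB.1 hp).1
  have hsubM : Mm b y ⊆ Pb b y := fun p hp => (mem_Mm.1 hp).1
  have wA := hCw b y hy3 _ hsubA
  have wB := hCw b y hy3 _ hsubB
  have wM := hCw b y hy3 _ hsubM
  rw [← hs] at wA wB wM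
  have hwA : ∑ p ∈ sA (Pb b y), (1 : ℝ) / p ≤ ∑ p ∈ sA (Pb b y), ww s p := sum_le_sum fun p _ => ww_ge hs0 p
  set sa : ℝ := ∑ p ∈ sA (Pb b y), ww s p with hsa
  set sb : ℝ := ∑ p ∈ sB (Pb b y), ww s p with hsb
  set sm : ℝ := ∑ p ∈ Mm b y, ww s p with hsm
  have hl8 : 8 ≤ l := by linarith
  have hsa_ge : l / 8 ≤ sa := by linarith [hA.1]
  have hsa1 : 1 ≤ sa := by linarith
  have h1 := hPU (sA (Pb b y)) (sB (Pb b y)) (ww s) (disj_AB b y) (ww_nonneg s) hsa1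
  rw [bal_sum]
  have h2 := prod_one_add_le (Mm b y) (ww s) (ww_nonneg s)
  have hsq : Real.sqrt l / 3 ≤ Real.sqrt sa := by
    have h3 : Real.sqrt (l / 9) ≤ Real.sqrt sa := Real.sqrt_le_sqrt (by linarith)
    have h4 : Real.sqrt (l / 9) = Real.sqrt l / 3 := by
      rw [Real.sqrt_div (by linarith), show (9 : ℝ) = 3 ^ 2 by norm_num, Real.sqrt_sq (by norm_num)]
    rwa [h4] at h3
  have hsl : 0 < Real.sqrt l := Real.sqrt_pos.2 (by linarith)
  have h3 : C0 * Real.exp (sa + sb) / Real.sqrt sa ≤ C0 * Real.exp (sa + sb) / (Real.sqrt l / 3) := by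
    gcongr
  calc (∑ T ∈ Eqs (sA (Pb b y)) (sB (Pb b y)), ∏ p ∈ T, ww s p) * ∏ p ∈ Mm b y, (1 + ww s p)
      ≤ (C0 * Real.exp (sa + sb) / (Real.sqrt l / 3)) * Real.exp sm := by
        refine mul_le_mul (h1.trans h3) h2 (prod_nonneg fun p _ => ?_) (by positivity)
        have := ww_nonneg s p
        linarith
    _ = 3 * C0 * Real.exp (sa + sb + sm) / Real.sqrt l := by
        rw [Real.exp_add (sa + sb) sm]
        field_simp
    _ ≤ 3 * C0 * Real.exp (l + (C1 + C2 + C3 + 3 * Cw)) / Real.sqrt l := by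
        have h5 : Real.exp (sa + sb + sm) ≤ Real.exp (l + (C1 + C2 + C3 + 3 * Cw)) :=
          Real.exp_le_exp.2 (by linarith [hA.2, hB.2, hMm.2])
        exact div_le_div_of_nonneg_right (mul_le_mul_of_nonneg_left h5 (by positivity)) hsl.le
    _ = _ := by
        rw [Real.exp_add, hexp]
        ring

/-! ### the end -/

lemma root (N Y : ℕ) (hN : 1 ≤ N) : ∃ y : ℕ, y ^ N ≤ Y ∧ Y < (y + 1) ^ N := by
  classical
  have hex : ∃ y : ℕ, Y < (y + 1) ^ N := ⟨Y, by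
    calc Y < Y + 1 := Nat.lt_succ_self Y
      _ = (Y + 1) ^ 1 := (pow_one _).symm
      _ ≤ (Y + 1) ^ N := Nat.pow_le_pow_right (by omega) hN⟩
  refine ⟨Nat.find hex, ?_, Nat.find_spec hex⟩
  rcases Nat.eq_zero_or_pos (Nat.find hex) with h | h
  · rw [h, zero_pow (by omega)]
    exact Nat.zero_le _
  · have h1 := Nat.find_min hex (m := Nat.find hex - 1) (by omega)
    push Not at h1
    rwa [Nat.sub_add_cancel h] at h1

lemma mem_MM {b Y : ℕ} {S : Finset ℕ} : S ∈ MM b Y ↔ S ⊆ range (Y + 1) ∧ (∀ p ∈ S, p.Prime ∧ ¬ p ∣ 14 * b) ∧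
    (sA S).card = (sB S).card ∧ ∏ p ∈ S, p ≤ Y := by
  unfold MM
  rw [mem_filter, mem_powerset]

lemma mem_Bal {b y : ℕ} {S : Finset ℕ} : S ∈ Bal b y ↔ S ⊆ Pb b y ∧ (sA S).card = (sB S).card := by
  unfold Bal
  rw [mem_filter, mem_powerset]

end Pool.Agent.NH5.PR.LG

namespace Pool.Agent.NH5.PR

open Finset
open Pool.Agent.NH1 (sq2 sq7 sS sI sA sB)
open Pool.Agent.Y703.CQ (S_MER)

/-- PR-LOG: the logarithmic size of the class. -/
theorem t_LOG : S_LOG := by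
  classical
  intro hM hPL hPU b hb
  obtain ⟨c3, y1, hc3, hy13, hlow⟩ := LG.G_lower hM hPL b hb
  obtain ⟨C4, y2, hC4, hy23, hup⟩ := LG.G_upper hM hPU b hb
  obtain ⟨y3, hy33, hll⟩ := LG.ll_large 1
  obtain ⟨N, hN⟩ := exists_nat_gt (2 * C4 / c3)
  have hN0 : 0 < N := by
    have : (0 : ℝ) < N := lt_of_le_of_lt (by positivity) hN
    exact_mod_cast this
  have hNr : (0 : ℝ) < N := by exact_mod_cast hN0
  have hexpN : Real.exp (-(N : ℝ)) * C4 ≤ c3 / 2 := by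
    have h1 : 2 * C4 / c3 ≤ Real.exp N := by
      have := Real.add_one_le_exp (N : ℝ)
      linarith
    rw [div_le_iff₀ hc3] at h1
    rw [Real.exp_neg, inv_mul_le_iff₀ (Real.exp_pos _)]
    linarith
  set y4 : ℕ := max (max y1 y2) y3 with hy4
  refine ⟨c3 / (4 * N), y4 ^ N, by positivity, fun Y hY => ?_⟩
  obtain ⟨y, hyY, hYy⟩ := LG.root N Y hN0
  have hy4y : y4 ≤ y := by
    by_contra h
    push Not at h
    have : (y + 1) ^ N ≤ y4 ^ N := Nat.pow_le_pow_left h N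
    omega
  have h1y : y1 ≤ y := ((le_max_left _ _).trans (le_max_left _ _)).trans hy4y
  have h2y : y2 ≤ y := ((le_max_right _ _).trans (le_max_left _ _)).trans hy4y
  have h3y : y3 ≤ y := (le_max_right _ _).trans hy4y
  have hy3 : 3 ≤ y := hy13.trans h1y
  have hyr : (3 : ℝ) ≤ y := by exact_mod_cast hy3
  have hlogy : 1 ≤ Real.log y := LG.log_ge y hy3
  have hlow' := hlow y h1y
  have hup' := hup y h2y
  have hll' := hll y h3y
  have hyleY : y ≤ Y := by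
    calc y = y ^ 1 := (pow_one _).symm
      _ ≤ y ^ N := Nat.pow_le_pow_right (by omega) hN0
      _ ≤ Y := hyY
  have hYr : (0 : ℝ) < Y := by exact_mod_cast (by omega : 0 < Y)
  have hlogY1 : (N : ℝ) * Real.log y ≤ Real.log Y := by
    rw [← Real.log_pow]
    exact Real.log_le_log (by positivity) (by exact_mod_cast hyY)
  have hlogY2 : Real.log Y ≤ 2 * N * Real.log y := by
    have h1 : (Y : ℝ) ≤ ((y : ℝ) ^ 2) ^ N := by
      have h2 : Y ≤ (y ^ 2) ^ N := by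
        refine hYy.le.trans (Nat.pow_le_pow_left ?_ N)
        nlinarith
      exact_mod_cast h2
    have h3 := Real.log_le_log hYr h1
    rw [Real.log_pow, Real.log_pow] at h3
    push_cast at h3
    linarith
  set s : ℝ := 1 / Real.log y with hs
  -- the sets with large product
  have htail : ∑ S ∈ (LG.Bal b y).filter (fun S => ¬ ∏ p ∈ S, p ≤ Y), (1 : ℝ) / ((∏ p ∈ S, p : ℕ) : ℝ) ≤
      Real.exp (-(N : ℝ)) * ∑ S ∈ LG.Bal b y, ∏ p ∈ S, LG.ww s p := by
    rw [mul_sum]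
    refine le_trans (sum_le_sum fun S hS => ?_) (sum_le_sum_of_subset_of_nonneg (filter_subset _ _)
      fun S _ _ => mul_nonneg (Real.exp_pos _).le (prod_nonneg fun p _ => LG.ww_nonneg s p))
    rw [mem_filter, LG.mem_Bal] at hS
    obtain ⟨⟨h1, h2⟩, h3⟩ := hS
    have hprime : ∀ p ∈ S, p.Prime := fun p hp => by
      have := h1 hp
      rw [LG.Pb, mem_filter] at this
      exact this.2.1
    rw [LG.ww_prod s S hprime]
    have h4 : (Y : ℝ) ≤ ((∏ p ∈ S, p : ℕ) : ℝ) := by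
      push Not at h3
      exact_mod_cast h3.le
    have h5 : (N : ℝ) ≤ s * Real.log ((∏ p ∈ S, p : ℕ) : ℝ) := by
      have h6 : (N : ℝ) * Real.log y ≤ Real.log ((∏ p ∈ S, p : ℕ) : ℝ) :=
        hlogY1.trans (Real.log_le_log hYr h4)
      rw [hs, one_div, ← div_eq_inv_mul, le_div_iff₀ (by linarith)]
      exact h6
    have h6 : Real.exp N ≤ Real.exp (s * Real.log ((∏ p ∈ S, p : ℕ) : ℝ)) := Real.exp_le_exp.2 h5
    have hP0 : (0 : ℝ) < ((∏ p ∈ S, p : ℕ) : ℝ) := lt_of_lt_of_le hYr h4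
    calc (1 : ℝ) / ((∏ p ∈ S, p : ℕ) : ℝ) = Real.exp (-(N : ℝ)) * (Real.exp N / ((∏ p ∈ S, p : ℕ) : ℝ)) := by
          rw [← mul_div_assoc, ← Real.exp_add]
          simp
      _ ≤ _ := by gcongr
  have hsub : (LG.Bal b y).filter (fun S => ∏ p ∈ S, p ≤ Y) ⊆ MM b Y := by
    intro S hS
    rw [mem_filter, LG.mem_Bal] at hS
    obtain ⟨⟨h1, h2⟩, h3⟩ := hS
    rw [LG.mem_MM]
    refine ⟨fun p hp => ?_, fun p hp => ?_, h2, h3⟩
    · have := h1 hp
      rw [LG.Pb, mem_filter, mem_range] at this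
      rw [mem_range]
      omega
    · have := h1 hp
      rw [LG.Pb, mem_filter, mem_range] at this
      exact this.2
  have hmain : ∑ S ∈ LG.Bal b y, ∏ p ∈ S, (1 : ℝ) / p =
      ∑ S ∈ (LG.Bal b y).filter (fun S => ∏ p ∈ S, p ≤ Y), (1 : ℝ) / ((∏ p ∈ S, p : ℕ) : ℝ) +
      ∑ S ∈ (LG.Bal b y).filter (fun S => ¬ ∏ p ∈ S, p ≤ Y), (1 : ℝ) / ((∏ p ∈ S, p : ℕ) : ℝ) := by
    rw [sum_filter_add_sum_filter_not]
    refine sum_congr rfl fun S _ => ?_
    rw [prod_div_distrib, prod_const_one]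
    push_cast
    rfl
  have hle : ∑ S ∈ (LG.Bal b y).filter (fun S => ∏ p ∈ S, p ≤ Y), (1 : ℝ) / ((∏ p ∈ S, p : ℕ) : ℝ) ≤
      ∑ S ∈ MM b Y, (1 : ℝ) / ((∏ p ∈ S, p : ℕ) : ℝ) :=
    sum_le_sum_of_subset_of_nonneg hsub fun _ _ _ => by positivity
  set q : ℝ := Real.log y / Real.sqrt (Real.log (Real.log y)) with hq
  have hsly : 0 < Real.sqrt (Real.log (Real.log y)) := Real.sqrt_pos.2 (by linarith)
  have hq0 : 0 < q := by positivity
  have hbound : c3 / 2 * q ≤ ∑ S ∈ MM b Y, (1 : ℝ) / ((∏ p ∈ S, p : ℕ) : ℝ) := by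
    have h1 : Real.exp (-(N : ℝ)) * ∑ S ∈ LG.Bal b y, ∏ p ∈ S, LG.ww s p ≤ c3 / 2 * q := by
      calc Real.exp (-(N : ℝ)) * ∑ S ∈ LG.Bal b y, ∏ p ∈ S, LG.ww s p ≤ Real.exp (-(N : ℝ)) * (C4 * q) := by
            gcongr
        _ = (Real.exp (-(N : ℝ)) * C4) * q := by ring
        _ ≤ _ := by gcongr
    linarith
  refine le_trans ?_ hbound
  have h1 : Real.sqrt (Real.log (Real.log y)) ≤ Real.sqrt (Real.log (Real.log Y)) := by
    apply Real.sqrt_le_sqrt
    apply Real.log_le_log (by linarith)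
    exact Real.log_le_log (by linarith) (by exact_mod_cast hyleY)
  have hlogY0 : 0 ≤ Real.log Y := by
    have : 0 ≤ (N : ℝ) * Real.log y := by positivity
    linarith
  calc c3 / (4 * N) * Real.log Y / Real.sqrt (Real.log (Real.log Y))
      ≤ c3 / (4 * N) * (2 * N * Real.log y) / Real.sqrt (Real.log (Real.log y)) := by gcongr
    _ = c3 / 2 * q := by
        rw [hq]
        field_simp
        ring

end Pool.Agent.NH5.PR
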