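import Pool.Agent.NH5.PR.Stm

/-!
PR-LOW2: the lower bound for the size of the class.
-/

set_option autoImplicit false

open scoped Classical

namespace Pool.Agent.NH5.PR

open Finset
open Pool.Agent.NH1 (sq2 sq7 sS sI sA sB)
open Pool.Agent.Y703.CX (sm la jj XX eL zz kk S_SIE)
open Pool.Agent.Y703.CQ (nr sg prs HB S_EQ S_MER S_CHE HD)

/-- the class of the additional prime, `m` the product of the others -/
def la2 (r m : ℕ) : ℕ :=
  if m * r % 8 = 1 then 1 else if m * r % 8 = 3 then 3 else if m * r % 8 = 5 then 45 else 15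

theorem la2_coprime (r m : ℕ) : Nat.Coprime (la2 r m) 56 ∧ la2 r m % 56 = la2 r m := by
  unfold la2
  split_ifs <;> decide

theorem odd_mul_mod {b r : ℕ} (hok : Ok b r) {m : ℕ} (hm : m % 2 = 1) :
    (m * r % 8 = 1 ∨ m * r % 8 = 3 ∨ m * r % 8 = 5 ∨ m * r % 8 = 7) ∧
      ∀ q, q % 56 = la2 r m → q * m % 8 = r ∧ (sq2 q ↔ sq7 q) := by
  have hm8 : m % 8 = 1 ∨ m % 8 = 3 ∨ m % 8 = 5 ∨ m % 8 = 7 := by omega
  have hmr : m * r % 8 = (m % 8) * (r % 8) % 8 := Nat.mul_mod _ _ _
  have hr := hok.2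
  refine ⟨?_, ?_⟩
  · rw [hmr]
    rcases hm8 with h | h | h | h <;> rcases hr with h' | h' | h' | h' <;> rw [h, h'] <;> decide
  · intro q hq
    have hqm : q * m % 8 = (q % 8) * (m % 8) % 8 := Nat.mul_mod _ _ _
    have hq8 : q % 8 = la2 r m % 8 := by
      rw [← hq, Nat.mod_mod_of_dvd q (by norm_num : 8 ∣ 56)]
    have hq7 : q % 7 = la2 r m % 7 := by
      rw [← hq, Nat.mod_mod_of_dvd q (by norm_num : 7 ∣ 56)]
    unfold la2 at hq8 hq7
    rw [hmr] at hq8 hq7
    rcases hm8 with h | h | h | h <;> rcases hr with h' | h' | h' | h' <;>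
      rw [h, h'] at hq8 hq7 <;> norm_num at hq8 hq7 <;> rw [hqm, h, hq8, h'] <;>
      refine ⟨by norm_num, ?_⟩ <;> unfold sq2 sq7 <;> rw [hq8, hq7] <;> norm_num

theorem mem_MM {b y : ℕ} {S : Finset ℕ} (h : S ∈ MM b y) :
    (∀ p ∈ S, p.Prime ∧ ¬ p ∣ 14 * b) ∧ (sA S).card = (sB S).card ∧ (∏ p ∈ S, p) ≤ y ∧
      (0 < ∏ p ∈ S, p) ∧ (∏ p ∈ S, p) % 2 = 1 ∧ ∀ p ∈ S, p ≤ y := by
  rw [MM, mem_filter, mem_powerset] at h
  obtain ⟨h0, h1, h2, h3⟩ := h
  refine ⟨h1, h2, h3, Finset.prod_pos fun p hp => (h1 p hp).1.pos, ?_, ?_⟩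
  · have h4 : ∀ p ∈ S, p % 2 = 1 := by
      intro p hp
      rcases (h1 p hp).1.eq_two_or_odd with h | h
      · exact absurd (by rw [h]; exact ⟨7 * b, by ring⟩) (h1 p hp).2
      · exact h
    have h5 : Odd (∏ p ∈ S, p) :=
      Finset.prod_induction (fun p => p) Odd (fun _ _ ha hb => ha.mul hb) odd_one
        fun p hp => Nat.odd_iff.mpr (h4 p hp)
    exact Nat.odd_iff.mp h5
  · intro p hp
    have := h0 hp
    rw [mem_range] at this
    omega

/-- the pairs -/
noncomputable def DD (b r X y : ℕ) : Finset (Σ _ : Finset ℕ, ℕ) :=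
  (MM b y).sigma fun T => (range (X / (∏ p ∈ T, p) + 1)).filter
    fun q => y < q ∧ q.Prime ∧ q % 56 = la2 r (∏ p ∈ T, p)

theorem card_DD_le {b r : ℕ} (hok : Ok b r) (X y : ℕ) (hy : 14 * b ≤ y) :
    (DD b r X y).card ≤ (SS b r X).card := by
  refine Finset.card_le_card_of_injOn (fun t => insert t.2 t.1) ?_ ?_
  · rintro ⟨T, q⟩ ht
    rw [mem_coe, DD, mem_sigma, mem_filter, mem_range] at ht
    obtain ⟨hT, hr, hqy, hqp, hq56⟩ := ht
    obtain ⟨h1, h2, h3, h4, h5, h6⟩ := mem_MM hT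
    simp only at hr hqy hqp hq56
    have hqT : q ∉ T := fun h => by have := h6 q h; omega
    have hprod : q * ∏ p ∈ T, p ≤ X := by
      have : q ≤ X / ∏ p ∈ T, p := by omega
      exact (Nat.le_div_iff_mul_le h4).mp this
    obtain ⟨k1, k2⟩ := odd_mul_mod hok h5
    obtain ⟨k3, k4⟩ := k2 q hq56
    have hb := hok.1
    have hqb : ¬ q ∣ 14 * b := by
      intro h
      have := Nat.le_of_dvd (by positivity) h
      omega
    have hprod' : ∏ p ∈ insert q T, p ≤ X := by
      rw [Finset.prod_insert hqT]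
      exact hprod
    have hall : ∀ p ∈ insert q T, p.Prime ∧ ¬ p ∣ 14 * b := by
      intro p hp
      rcases mem_insert.mp hp with rfl | hp
      · exact ⟨hqp, hqb⟩
      · exact h1 p hp
    rw [mem_coe, SS, mem_filter, mem_powerset]
    refine ⟨?_, ⟨hall, ?_, ?_⟩, hprod'⟩
    · intro p hp
      rw [mem_range]
      have h3 : p ∣ ∏ q ∈ insert q T, q := Finset.dvd_prod_of_mem _ hp
      have h4 : 0 < ∏ q ∈ insert q T, q := Finset.prod_pos fun q hq => (hall q hq).1.pos
      have := Nat.le_of_dvd h4 h3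
      omega
    · have e1 : sA (insert q T) = sA T := by
        unfold sA
        rw [Finset.filter_insert, if_neg]
        rintro ⟨ha, hb⟩
        exact hb (k4.mp ha)
      have e2 : sB (insert q T) = sB T := by
        unfold sB
        rw [Finset.filter_insert, if_neg]
        rintro ⟨ha, hb⟩
        exact ha (k4.mpr hb)
      rw [e1, e2]
      exact h2
    · rw [Finset.prod_insert hqT]
      exact k3
  · rintro ⟨T, q⟩ ht ⟨T', q'⟩ ht' he
    rw [mem_coe, DD, mem_sigma, mem_filter, mem_range] at ht ht'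
    obtain ⟨hT, hr, hqy, hqp, hq56⟩ := ht
    obtain ⟨hT', hr', hqy', hqp', hq56'⟩ := ht'
    have k1 := (mem_MM hT).2.2.2.2.2
    have k1' := (mem_MM hT').2.2.2.2.2
    simp only at hr hqy hqp hq56 hr' hqy' hqp' hq56' he k1 k1'
    have hqq : q = q' := by
      have : q ∈ insert q' T' := by rw [← he]; exact mem_insert_self _ _
      rw [mem_insert] at this
      rcases this with h | h
      · exact h
      · have := k1' q h
        omega
    subst hqq
    have hTT : T = T' := by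
      have e1 : ∀ (S : Finset ℕ), (∀ p ∈ S, p ≤ y) →
          (insert q S).filter (fun p => p ≤ y) = S := by
        intro S hS
        ext p
        simp only [mem_filter, mem_insert]
        constructor
        · rintro ⟨rfl | h, h3⟩
          · omega
          · exact h
        · intro h; exact ⟨Or.inr h, hS p h⟩
      rw [← e1 T k1, he, e1 T' k1']
    subst hTT
    rfl

theorem exists_root (X : ℕ) : ∃ y : ℕ, y ^ 8 ≤ X ∧ X < (y + 1) ^ 8 := by
  refine ⟨Nat.sqrt (Nat.sqrt (Nat.sqrt X)), ?_, ?_⟩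
  · have h1 := Nat.sqrt_le' X
    have h2 := Nat.sqrt_le' (Nat.sqrt X)
    have h3 := Nat.sqrt_le' (Nat.sqrt (Nat.sqrt X))
    calc (Nat.sqrt (Nat.sqrt (Nat.sqrt X))) ^ 8 =
        (((Nat.sqrt (Nat.sqrt (Nat.sqrt X))) ^ 2) ^ 2) ^ 2 := by ring
      _ ≤ ((Nat.sqrt (Nat.sqrt X)) ^ 2) ^ 2 :=
          Nat.pow_le_pow_left (Nat.pow_le_pow_left h3 2) 2
      _ ≤ (Nat.sqrt X) ^ 2 := Nat.pow_le_pow_left h2 2
      _ ≤ X := h1
  · have h1 := Nat.lt_succ_sqrt' X
    have h2 := Nat.lt_succ_sqrt' (Nat.sqrt X)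
    have h3 := Nat.lt_succ_sqrt' (Nat.sqrt (Nat.sqrt X))
    calc X < (Nat.sqrt X + 1) ^ 2 := h1
      _ ≤ ((Nat.sqrt (Nat.sqrt X) + 1) ^ 2) ^ 2 := Nat.pow_le_pow_left h2 2
      _ ≤ (((Nat.sqrt (Nat.sqrt (Nat.sqrt X)) + 1) ^ 2) ^ 2) ^ 2 :=
          Nat.pow_le_pow_left (Nat.pow_le_pow_left h3 2) 2
      _ = _ := by ring

theorem log_le_two_sqrt {x : ℝ} (hx : 0 < x) : Real.log x ≤ 2 * Real.sqrt x := by
  have h1 : 0 < Real.sqrt x := Real.sqrt_pos.mpr hx
  have h2 : Real.log x = 2 * Real.log (Real.sqrt x) := by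
    rw [Real.log_sqrt hx.le]; ring
  rw [h2]
  have := Real.log_le_sub_one_of_pos h1
  linarith

theorem t_LOW2 : S_LOW2 := by
  intro hM hPL hPU hLOG hche b r hok
  obtain ⟨c₁, Y₁, hc₁, hLOG⟩ := hLOG hM hPL hPU b hok.1
  obtain ⟨c, Y₀, hc, hche⟩ := hche
  obtain ⟨y₀, hy₀⟩ : ∃ y₀ : ℕ, y₀ = max (max (max 5 (14 * b)) (max Y₀ Y₁)) ⌈8 / c⌉₊ := ⟨_, rfl⟩
  refine ⟨c / 4 * (c₁ / 16), y₀ ^ 8, by positivity, ?_⟩
  intro X hX
  obtain ⟨y, hy1, hy2⟩ := exists_root X
  have hyy : y₀ ≤ y := by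
    have : y₀ ^ 8 < (y + 1) ^ 8 := lt_of_le_of_lt hX hy2
    have := lt_of_pow_lt_pow_left₀ 8 (Nat.zero_le _) this
    omega
  have hy5 : 5 ≤ y := by omega
  have hyb : 14 * b ≤ y := by omega
  have hyY : Y₀ ≤ y := by omega
  have hyY1 : Y₁ ≤ y := by omega
  have hyc : 8 / c ≤ (y : ℝ) := by
    have h1 : 8 / c ≤ (⌈8 / c⌉₊ : ℝ) := Nat.le_ceil _
    have h2 : ⌈8 / c⌉₊ ≤ y := by omega
    exact h1.trans (by exact_mod_cast h2)
  have hyR : (5 : ℝ) ≤ y := by exact_mod_cast hy5
  have hyX : y < X := by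
    have : y < y ^ 8 := by
      calc y = y ^ 1 := (pow_one y).symm
        _ < y ^ 8 := Nat.pow_lt_pow_right (by omega) (by norm_num)
    omega
  have hX1 : (1 : ℝ) < X := by exact_mod_cast (show 1 < X by omega)
  have hlogy : 0 < Real.log y := Real.log_pos (by linarith)
  have hlogX : 0 < Real.log X := Real.log_pos hX1
  have hlog16 : Real.log X ≤ 16 * Real.log y := by
    have h1 : X ≤ y ^ 16 := by
      have h2 : y + 1 ≤ y ^ 2 := by nlinarith
      calc X ≤ (y + 1) ^ 8 := hy2.le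
        _ ≤ (y ^ 2) ^ 8 := Nat.pow_le_pow_left h2 8
        _ = y ^ 16 := by ring
    have : Real.log X ≤ Real.log ((y : ℝ) ^ 16) := by
      apply Real.log_le_log (by linarith)
      exact_mod_cast h1
    rwa [Real.log_pow] at this
  -- the sum
  have hsum : ∑ T ∈ MM b y, c / 4 * (X / Real.log X) *
      ((1 : ℝ) / ((∏ p ∈ T, p : ℕ) : ℝ)) ≤ ((DD b r X y).card : ℝ) := by
    rw [DD, Finset.card_sigma, Nat.cast_sum]
    refine Finset.sum_le_sum fun T hT => ?_
    obtain ⟨h1, -, h2, hn0, h5, h6⟩ := mem_MM hT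
    obtain ⟨n, hn⟩ : ∃ n, n = ∏ p ∈ T, p := ⟨_, rfl⟩
    rw [← hn] at h2 hn0 h5
    rw [← hn]
    obtain ⟨Y, hYdef⟩ : ∃ Y, Y = X / n := ⟨_, rfl⟩
    have hYy : y ^ 6 ≤ Y := by
      rw [hYdef, Nat.le_div_iff_mul_le hn0]
      calc y ^ 6 * n ≤ y ^ 6 * y ^ 2 := by
            apply Nat.mul_le_mul_left
            nlinarith
        _ = y ^ 8 := by ring
        _ ≤ X := hy1
    have hy6 : y ≤ y ^ 6 := Nat.le_self_pow (by norm_num) y
    have hY0 : Y₀ ≤ Y := by omega
    have hYX : Y ≤ X := by rw [hYdef]; exact Nat.div_le_self _ _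
    have hY1 : (1 : ℝ) < (Y : ℝ) := by exact_mod_cast (show 1 < Y by omega)
    have hlY : 0 < Real.log (Y : ℝ) := Real.log_pos hY1
    have hlYX : Real.log (Y : ℝ) ≤ Real.log X :=
      Real.log_le_log (by linarith) (by exact_mod_cast hYX)
    obtain ⟨haco, haa⟩ := la2_coprime r n
    have h3 := hche Y hY0 (la2 r n) haco
    rw [haa] at h3
    -- discard the small primes
    have h4 : ((range (Y + 1)).filter fun p => p.Prime ∧ p % 56 = la2 r n).card ≤
        ((range (Y + 1)).filter fun q => y < q ∧ q.Prime ∧ q % 56 = la2 r n).card + (y + 1) := by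
      have h5 : ((range (Y + 1)).filter fun p => p.Prime ∧ p % 56 = la2 r n) ⊆
          ((range (Y + 1)).filter fun q => y < q ∧ q.Prime ∧ q % 56 = la2 r n) ∪
            range (y + 1) := by
        intro p hp
        rw [mem_filter] at hp
        rw [mem_union, mem_filter, mem_range]
        by_cases h : y < p
        · exact Or.inl ⟨mem_range.mp hp.1, h, hp.2⟩
        · right
          rw [mem_range]
          omega
      refine (Finset.card_le_card h5).trans ((Finset.card_union_le _ _).trans ?_)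
      rw [Finset.card_range]
    have h4' : (((range (Y + 1)).filter fun p => p.Prime ∧ p % 56 = la2 r n).card : ℝ) ≤
        (((range (Y + 1)).filter fun q => y < q ∧ q.Prime ∧ q % 56 = la2 r n).card : ℝ) +
          ((y : ℝ) + 1) := by
      exact_mod_cast h4
    have h6 : (y : ℝ) + 1 ≤ c / 2 * (Y / Real.log Y) := by
      have hs0 : 0 < Real.sqrt (Y : ℝ) := Real.sqrt_pos.mpr (by linarith)
      have hs1 : (y : ℝ) ^ 3 ≤ Real.sqrt (Y : ℝ) := by
        apply Real.le_sqrt_of_sq_le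
        have : ((y : ℝ) ^ 3) ^ 2 = (y : ℝ) ^ 6 := by ring
        rw [this]
        exact_mod_cast hYy
      have hs2 : Real.sqrt (Y : ℝ) / 2 ≤ Y / Real.log Y := by
        rw [le_div_iff₀ hlY]
        have h7 := log_le_two_sqrt (show (0 : ℝ) < Y by linarith)
        calc Real.sqrt (Y : ℝ) / 2 * Real.log Y ≤ Real.sqrt (Y : ℝ) / 2 * (2 * Real.sqrt Y) :=
              mul_le_mul_of_nonneg_left h7 (by positivity)
          _ = Real.sqrt (Y : ℝ) * Real.sqrt Y := by ring
          _ = Y := Real.mul_self_sqrt (by linarith)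
      have hs3 : 8 ≤ c * (y : ℝ) := by
        rw [div_le_iff₀ hc] at hyc
        linarith
      calc (y : ℝ) + 1 ≤ 8 / 4 * (y * 1) := by linarith
        _ ≤ c * y / 4 * (y * y) := by
            apply mul_le_mul _ _ (by positivity) (by positivity)
            · exact div_le_div_of_nonneg_right hs3 (by norm_num)
            · apply mul_le_mul_of_nonneg_left _ (by positivity)
              linarith
        _ = c / 2 * ((y : ℝ) ^ 3 / 2) := by ring
        _ ≤ c / 2 * (Real.sqrt Y / 2) := by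
            apply mul_le_mul_of_nonneg_left _ (by positivity)
            exact div_le_div_of_nonneg_right hs1 (by norm_num)
        _ ≤ c / 2 * (Y / Real.log Y) := mul_le_mul_of_nonneg_left hs2 (by positivity)
    have h7 : c / 2 * (Y / Real.log Y) ≤
        (((range (Y + 1)).filter fun q => y < q ∧ q.Prime ∧ q % 56 = la2 r n).card : ℝ) := by
      have h8 : c * Y / Real.log Y = c / 2 * (Y / Real.log Y) + c / 2 * (Y / Real.log Y) := by ring
      rw [h8] at h3
      linarith
    rw [← hYdef]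
    refine le_trans ?_ h7
    have hn' : (0 : ℝ) < n := by exact_mod_cast hn0
    have hhalf : (X : ℝ) / (2 * n) ≤ (Y : ℝ) := by
      have h9 : X < n * Y + n := by
        rw [hYdef]
        have := Nat.div_add_mod X n
        have := Nat.mod_lt X hn0
        omega
      have h10 : (X : ℝ) < n * (Y : ℝ) + n := by exact_mod_cast h9
      rw [div_le_iff₀ (by positivity)]
      nlinarith
    calc c / 4 * (X / Real.log X) * ((1 : ℝ) / (n : ℝ)) =
        c / 2 * (((X : ℝ) / (2 * n)) / Real.log X) := by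
          field_simp
          ring
      _ ≤ c / 2 * ((Y : ℝ) / Real.log X) := by
          apply mul_le_mul_of_nonneg_left _ (by positivity)
          exact div_le_div_of_nonneg_right hhalf hlogX.le
      _ ≤ c / 2 * ((Y : ℝ) / Real.log Y) := by
          apply mul_le_mul_of_nonneg_left _ (by positivity)
          apply div_le_div_of_nonneg_left (by positivity) hlY hlYX
  rw [← Finset.mul_sum] at hsum
  have hG := hLOG y hyY1
  have hcard : ((DD b r X y).card : ℝ) ≤ ((SS b r X).card : ℝ) := by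
    exact_mod_cast card_DD_le hok X y hyb
  refine le_trans ?_ (hsum.trans hcard)
  have h6 : 0 ≤ c / 4 * (X / Real.log X) := by positivity
  refine le_trans ?_ (mul_le_mul_of_nonneg_left hG h6)
  -- comparison of the logarithms
  have hlogy1 : 1 < Real.log y := by
    have h1 : Real.exp 1 < y := by
      have := Real.exp_one_lt_d9
      linarith
    rwa [Real.lt_log_iff_exp_lt (by linarith)]
  have hyXr : (y : ℝ) ≤ X := by exact_mod_cast hyX.le
  have hlyX : Real.log y ≤ Real.log X := Real.log_le_log (by linarith) hyXr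
  have hll0 : 0 < Real.log (Real.log y) := Real.log_pos hlogy1
  have hllX : Real.log (Real.log y) ≤ eL X := Real.log_le_log hlogy hlyX
  have hsq0 : 0 < Real.sqrt (Real.log (Real.log y)) := Real.sqrt_pos.mpr hll0
  have hsq : Real.sqrt (Real.log (Real.log y)) ≤ Real.sqrt (eL X) := Real.sqrt_le_sqrt hllX
  have hsqX : 0 < Real.sqrt (eL X) := hsq0.trans_le hsq
  calc c / 4 * (c₁ / 16) * X / Real.sqrt (eL X)
      = c / 4 * (X / Real.log X) * (c₁ * (Real.log X / 16) / Real.sqrt (eL X)) := by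
        field_simp
    _ ≤ c / 4 * (X / Real.log X) * (c₁ * Real.log y / Real.sqrt (Real.log (Real.log y))) := by
        apply mul_le_mul_of_nonneg_left _ h6
        apply div_le_div₀ (by positivity) _ hsq0 hsq
        apply mul_le_mul_of_nonneg_left _ hc₁.le
        linarith

end Pool.Agent.NH5.PR
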