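import Pool.Agent.NH5.PR.Stm

/-!
# The weight of the balanced subsets: local Poisson estimates
-/

set_option autoImplicit false

namespace Pool.Agent.NH5.PR.PL
open Finset
open scoped Nat

/-! ### Poisson sums -/

lemma hs0 (x : ℝ) : HasSum (fun n : ℕ => x ^ n / n !) (Real.exp x) := by
  rw [Real.exp_eq_exp_ℝ]
  exact NormedSpace.expSeries_div_hasSum_exp (x : ℝ)

lemma hs1 (x : ℝ) : HasSum (fun n : ℕ => (n : ℝ) * (x ^ n / n !)) (x * Real.exp x) := by
  have h1 : HasSum (fun n : ℕ => ((n + 1 : ℕ) : ℝ) * (x ^ (n + 1) / (n + 1)!)) (x * Real.exp x) := by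
    have h2 := (hs0 x).mul_left x
    refine h2.congr_fun fun n => ?_
    rw [Nat.factorial_succ]
    push_cast
    have : (n ! : ℝ) ≠ 0 := by positivity
    field_simp
    ring
  have h3 := (hasSum_nat_add_iff (f := fun n : ℕ => (n : ℝ) * (x ^ n / n !)) 1).1 h1
  simpa using h3

lemma hs2 (x : ℝ) : HasSum (fun n : ℕ => (n : ℝ) * (n - 1) * (x ^ n / n !)) (x ^ 2 * Real.exp x) := by
  have h1 : HasSum (fun n : ℕ => ((n + 1 : ℕ) : ℝ) * (((n + 1 : ℕ) : ℝ) - 1) *
      (x ^ (n + 1) / (n + 1)!)) (x ^ 2 * Real.exp x) := by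
    have h2 := (hs1 x).mul_left x
    have e : x ^ 2 * Real.exp x = x * (x * Real.exp x) := by ring
    rw [e]
    refine h2.congr_fun fun n => ?_
    rw [Nat.factorial_succ]
    push_cast
    have : (n ! : ℝ) ≠ 0 := by positivity
    field_simp
    ring
  have h3 := (hasSum_nat_add_iff (f := fun n : ℕ => (n : ℝ) * (n - 1) * (x ^ n / n !)) 1).1 h1
  simpa using h3

lemma hsv (x : ℝ) : HasSum (fun n : ℕ => ((n : ℝ) - x) ^ 2 * (x ^ n / n !)) (x * Real.exp x) := by
  have h := ((hs2 x).add ((hs1 x).mul_left (1 - 2 * x))).add ((hs0 x).mul_left (x ^ 2))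
  have e : x ^ 2 * Real.exp x + (1 - 2 * x) * (x * Real.exp x) + x ^ 2 * Real.exp x =
      x * Real.exp x := by ring
  rw [e] at h
  refine h.congr_fun fun n => ?_
  ring

/-- most of the mass is close to the mean -/
lemma near {x : ℝ} (hx : 1 ≤ x) (s : Finset ℕ)
    (hs : ∀ n : ℕ, |(n : ℝ) - x| ≤ 2 * Real.sqrt x → n ∈ s) :
    3 / 4 * Real.exp x ≤ ∑ n ∈ s.filter (fun n : ℕ => |(n : ℝ) - x| ≤ 2 * Real.sqrt x),
      x ^ n / n ! := by
  have hx0 : 0 < x := by linarith
  have hsq : Real.sqrt x ^ 2 = x := Real.sq_sqrt hx0.le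
  set J := s.filter (fun n : ℕ => |(n : ℝ) - x| ≤ 2 * Real.sqrt x) with hJ
  have h1 : HasSum (fun n : ℕ => if n ∈ J then x ^ n / (n ! : ℝ) else 0)
      (∑ n ∈ J, if n ∈ J then x ^ n / (n ! : ℝ) else 0) :=
    hasSum_sum_of_ne_finset_zero fun n hn => if_neg hn
  have h2 : ∑ n ∈ J, (if n ∈ J then x ^ n / (n ! : ℝ) else 0) = ∑ n ∈ J, x ^ n / (n ! : ℝ) :=
    Finset.sum_congr rfl fun n hn => if_pos hn
  rw [h2] at h1
  have h3 := h1.add ((hsv x).mul_left (1 / (4 * x)))
  have h4 := hasSum_le (fun n => ?_) (hs0 x) h3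
  · have e : 1 / (4 * x) * (x * Real.exp x) = 1 / 4 * Real.exp x := by
      field_simp
    rw [e] at h4
    linarith
  · have hpos : 0 ≤ x ^ n / (n ! : ℝ) := by positivity
    by_cases hn : n ∈ J
    · simp only [hn, if_true]
      have : 0 ≤ 1 / (4 * x) * (((n : ℝ) - x) ^ 2 * (x ^ n / (n ! : ℝ))) := by positivity
      linarith
    · simp only [hn, if_false, zero_add]
      have h5 : 2 * Real.sqrt x < |(n : ℝ) - x| := by
        by_contra hcon
        push Not at hcon
        exact hn (Finset.mem_filter.2 ⟨hs n hcon, hcon⟩)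
      have h6 : 4 * x ≤ ((n : ℝ) - x) ^ 2 := by
        rw [← sq_abs ((n : ℝ) - x)]
        nlinarith [Real.sqrt_nonneg x]
      calc x ^ n / (n ! : ℝ) = 1 / (4 * x) * (4 * x * (x ^ n / (n ! : ℝ))) := by field_simp
        _ ≤ 1 / (4 * x) * (((n : ℝ) - x) ^ 2 * (x ^ n / (n ! : ℝ))) := by gcongr

/-- the largest term -/
lemma term_le {x : ℝ} (hx : 0 ≤ x) {j : ℕ} (hj : 1 ≤ j) :
    x ^ j / j ! ≤ Real.exp x / Real.sqrt (2 * Real.pi * j) := by
  have hj0 : (0 : ℝ) < j := by exact_mod_cast hj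
  have h1 := Stirling.le_factorial_stirling j
  have h2 : 0 < Real.sqrt (2 * Real.pi * j) := Real.sqrt_pos.2 (by positivity)
  have h3 : x ^ j ≤ Real.exp x * (j / Real.exp 1) ^ j := by
    have h4 : x / j ≤ Real.exp (x / j - 1) := by
      have := Real.add_one_le_exp (x / j - 1)
      linarith
    have h5 : (x / j) ^ j ≤ Real.exp (x / j - 1) ^ j := pow_le_pow_left₀ (by positivity) h4 j
    have h6 : Real.exp (x / j - 1) ^ j = Real.exp x * (1 / Real.exp 1) ^ j := by
      rw [← Real.exp_nat_mul, one_div, ← Real.exp_neg, ← Real.exp_nat_mul, ← Real.exp_add]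
      congr 1
      field_simp
      ring
    rw [h6, div_pow, div_le_iff₀ (by positivity)] at h5
    calc x ^ j ≤ Real.exp x * (1 / Real.exp 1) ^ j * j ^ j := h5
      _ = Real.exp x * (j / Real.exp 1) ^ j := by
        rw [mul_assoc, ← mul_pow, one_div_mul_eq_div]
  rw [div_le_div_iff₀ (by positivity) h2]
  calc x ^ j * Real.sqrt (2 * Real.pi * j) ≤
      Real.exp x * (j / Real.exp 1) ^ j * Real.sqrt (2 * Real.pi * j) :=
        mul_le_mul_of_nonneg_right h3 h2.le
    _ = Real.exp x * (Real.sqrt (2 * Real.pi * j) * (j / Real.exp 1) ^ j) := by ring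
    _ ≤ Real.exp x * j ! := mul_le_mul_of_nonneg_left h1 (Real.exp_pos x).le

/-! ### elementary symmetric sums -/

/-- the elementary symmetric sums of the weights -/
noncomputable def es (w : ℕ → ℝ) (A : Finset ℕ) (j : ℕ) : ℝ :=
  ∑ T ∈ A.powersetCard j, ∏ p ∈ T, w p

lemma es_zero (w : ℕ → ℝ) (A : Finset ℕ) : es w A 0 = 1 := by simp [es]

lemma es_nonneg {w : ℕ → ℝ} (hw : ∀ p, 0 ≤ w p) (A : Finset ℕ) (j : ℕ) : 0 ≤ es w A j :=
  Finset.sum_nonneg fun _ _ => Finset.prod_nonneg fun p _ => hw p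

lemma es_empty (w : ℕ → ℝ) (j : ℕ) : es w ∅ (j + 1) = 0 := by
  unfold es
  rw [Finset.powersetCard_eq_empty.2 (by simp)]
  simp

lemma es_insert (w : ℕ → ℝ) {A : Finset ℕ} {a : ℕ} (ha : a ∉ A) (j : ℕ) :
    es w (insert a A) (j + 1) = es w A (j + 1) + w a * es w A j := by
  classical
  unfold es
  rw [Finset.powersetCard_succ_insert ha, Finset.sum_union, Finset.sum_image, Finset.mul_sum]
  · congr 1
    refine Finset.sum_congr rfl fun T hT => ?_
    rw [Finset.prod_insert fun h => ha ((Finset.mem_powersetCard.1 hT).1 h)]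
  · intro T hT T' hT' h
    have h1 : a ∉ T := fun h => ha ((Finset.mem_powersetCard.1 hT).1 h)
    have h2 : a ∉ T' := fun h => ha ((Finset.mem_powersetCard.1 hT').1 h)
    rw [← Finset.erase_insert h1, ← Finset.erase_insert h2, h]
  · rw [Finset.disjoint_left]
    intro T hT hT'
    obtain ⟨T', _, rfl⟩ := Finset.mem_image.1 hT'
    exact ha ((Finset.mem_powersetCard.1 hT).1 (Finset.mem_insert_self a T'))

lemma pow_ge {P w : ℝ} (hP : 0 ≤ P) (hw : 0 ≤ w) (n : ℕ) :
    P ^ (n + 1) + (n + 1) * w * P ^ n ≤ (P + w) ^ (n + 1) := by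
  induction n with
  | zero => simp
  | succ n ih =>
    have h1 := mul_le_mul_of_nonneg_left ih (add_nonneg hP hw)
    have h2 : 0 ≤ ((n : ℝ) + 1) * w ^ 2 * P ^ n := by positivity
    have e1 : (P + w) ^ (n + 1 + 1) = (P + w) * (P + w) ^ (n + 1) := by ring
    have e2 : (P + w) * (P ^ (n + 1) + (n + 1) * w * P ^ n) =
        P ^ (n + 1 + 1) + ((n : ℝ) + 1 + 1) * w * P ^ (n + 1) + ((n : ℝ) + 1) * w ^ 2 * P ^ n := by
      ring
    rw [e1]
    push_cast
    linarith

lemma pow_le {P w : ℝ} (hP : 0 ≤ P) (hw : 0 ≤ w) (n : ℕ) :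
    (P + w) ^ (n + 2) ≤ P ^ (n + 2) + (n + 2) * w * P ^ (n + 1) +
      w ^ 2 / 2 * ((n + 2) * (n + 1)) * (P + w) ^ n := by
  induction n with
  | zero =>
    norm_num
    nlinarith
  | succ n ih =>
    have h1 := mul_le_mul_of_nonneg_left ih (add_nonneg hP hw)
    have h2 : P ^ (n + 1) ≤ (P + w) ^ (n + 1) := pow_le_pow_left₀ hP (by linarith) _
    have h3 : w ^ 2 * ((n : ℝ) + 2) * P ^ (n + 1) ≤ w ^ 2 * ((n : ℝ) + 2) * (P + w) ^ (n + 1) :=
      mul_le_mul_of_nonneg_left h2 (by positivity)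
    have e1 : (P + w) ^ (n + 1 + 2) = (P + w) * (P + w) ^ (n + 2) := by ring
    have e2 : (P + w) * (P ^ (n + 2) + (n + 2) * w * P ^ (n + 1) +
        w ^ 2 / 2 * ((n + 2) * (n + 1)) * (P + w) ^ n) =
        P ^ (n + 1 + 2) + ((n : ℝ) + 1 + 2) * w * P ^ (n + 1 + 1) +
        w ^ 2 * ((n : ℝ) + 2) * P ^ (n + 1) +
        w ^ 2 / 2 * (((n : ℝ) + 2) * (n + 1)) * (P + w) ^ (n + 1) := by
      ring
    have e3 : w ^ 2 / 2 * (((n : ℝ) + 1 + 2) * (n + 1 + 1)) * (P + w) ^ (n + 1) =
        w ^ 2 * ((n : ℝ) + 2) * (P + w) ^ (n + 1) +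
        w ^ 2 / 2 * (((n : ℝ) + 2) * (n + 1)) * (P + w) ^ (n + 1) := by
      ring
    rw [e1]
    push_cast
    linarith

lemma es_le {w : ℕ → ℝ} (hw : ∀ p, 0 ≤ w p) (A : Finset ℕ) :
    ∀ j, es w A j ≤ (∑ p ∈ A, w p) ^ j / j ! := by
  classical
  induction A using Finset.induction_on with
  | empty =>
    intro j
    cases j with
    | zero => simp [es_zero]
    | succ j => rw [es_empty]; simp
  | insert a A ha ih =>
    intro j
    cases j with
    | zero => simp [es_zero]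
    | succ j =>
      rw [es_insert w ha, Finset.sum_insert ha]
      have hP : 0 ≤ ∑ p ∈ A, w p := Finset.sum_nonneg fun p _ => hw p
      have h1 := ih (j + 1)
      have h2 := mul_le_mul_of_nonneg_left (ih j) (hw a)
      generalize ∑ p ∈ A, w p = P at hP h1 h2
      have h3 := pow_ge hP (hw a) j
      have hf : (0 : ℝ) < j ! := by positivity
      have e1 : ((j + 1)! : ℝ) = (j + 1) * j ! := by
        rw [Nat.factorial_succ]
        push_cast
        ring
      have h4 : (P ^ (j + 1) + (j + 1) * w a * P ^ j) / (j + 1)! ≤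
          (P + w a) ^ (j + 1) / (j + 1)! := div_le_div_of_nonneg_right h3 (by positivity)
      have h5 : (P ^ (j + 1) + (j + 1) * w a * P ^ j) / (j + 1)! =
          P ^ (j + 1) / (j + 1)! + w a * (P ^ j / j !) := by
        rw [e1]
        field_simp
      rw [add_comm (w a) P]
      linarith

lemma es_one (w : ℕ → ℝ) (A : Finset ℕ) : es w A 1 = ∑ p ∈ A, w p := by
  classical
  induction A using Finset.induction_on with
  | empty => rw [es_empty w 0]; simp
  | insert a A ha ih =>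
    rw [es_insert w ha 0, Finset.sum_insert ha, es_zero, ih]
    ring

lemma es_ge {w : ℕ → ℝ} (hw : ∀ p, 0 ≤ w p) (A : Finset ℕ) :
    ∀ j, (∑ p ∈ A, w p) ^ (j + 2) / (j + 2)! - (∑ p ∈ A, w p ^ 2) / 2 *
      ((∑ p ∈ A, w p) ^ j / j !) ≤ es w A (j + 2) := by
  classical
  induction A using Finset.induction_on with
  | empty =>
    intro j
    rw [es_empty w (j + 1)]
    simp
  | insert a A ha ih =>
    intro j
    rw [es_insert w ha (j + 1), Finset.sum_insert ha, Finset.sum_insert ha]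
    have hP : 0 ≤ ∑ p ∈ A, w p := Finset.sum_nonneg fun p _ => hw p
    have hQ : 0 ≤ ∑ p ∈ A, w p ^ 2 := Finset.sum_nonneg fun p _ => sq_nonneg _
    have hwa := hw a
    cases j with
    | zero =>
      have h1 := ih 0
      rw [es_one]
      norm_num [Nat.factorial] at h1 ⊢
      nlinarith
    | succ i =>
      have h1 := ih (i + 1)
      have h2 := mul_le_mul_of_nonneg_left (ih i) hwa
      generalize ∑ p ∈ A, w p = P at *
      generalize ∑ p ∈ A, w p ^ 2 = Q at *
      have h3 := pow_le hP hwa (i + 1)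
      have h4 := pow_ge hP hwa i
      have hf : (0 : ℝ) < i ! := by positivity
      have e1 : ((i + 1)! : ℝ) = (i + 1) * i ! := by
        rw [Nat.factorial_succ]
        push_cast
        ring
      have e2 : ((i + 2)! : ℝ) = (i + 2) * ((i + 1) * i !) := by
        rw [Nat.factorial_succ, Nat.factorial_succ]
        push_cast
        ring
      have e3 : ((i + 1 + 2)! : ℝ) = (i + 3) * ((i + 2) * ((i + 1) * i !)) := by
        rw [Nat.factorial_succ, Nat.factorial_succ, Nat.factorial_succ]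
        push_cast
        ring
      rw [e1, e3] at h1
      rw [e2] at h2
      rw [e1, e3]
      push_cast at h3
      -- the inequality after division by the factorial
      have h5 : (P + w a) ^ (i + 1 + 2) / ((i + 3) * ((i + 2) * ((i + 1) * i !))) ≤
          P ^ (i + 1 + 2) / ((i + 3) * ((i + 2) * ((i + 1) * i !))) +
            w a * (P ^ (i + 2) / ((i + 2) * ((i + 1) * i !))) +
            w a ^ 2 / 2 * ((P + w a) ^ (i + 1) / ((i + 1) * i !)) := by
        have h6 := div_le_div_of_nonneg_right h3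
          (by positivity : (0 : ℝ) ≤ (i + 3) * ((i + 2) * ((i + 1) * i !)))
        refine h6.trans (le_of_eq ?_)
        field_simp
        ring
      have h7 : P ^ (i + 1) / ((i + 1) * i !) + w a * (P ^ i / i !) ≤
          (P + w a) ^ (i + 1) / ((i + 1) * i !) := by
        have h8 := div_le_div_of_nonneg_right h4 (by positivity : (0 : ℝ) ≤ (i + 1) * i !)
        refine le_trans (le_of_eq ?_) h8
        field_simp
      have h9 := mul_le_mul_of_nonneg_left h7 (by positivity : (0 : ℝ) ≤ Q / 2)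
      rw [add_comm (w a) P]
      have e4 : (w a ^ 2 + Q) / 2 * ((P + w a) ^ (i + 1) / ((i + 1) * i !)) =
          w a ^ 2 / 2 * ((P + w a) ^ (i + 1) / ((i + 1) * i !)) +
          Q / 2 * ((P + w a) ^ (i + 1) / ((i + 1) * i !)) := by ring
      have e5 : w a * (P ^ (i + 2) / ((i + 2) * ((i + 1) * i !)) - Q / 2 * (P ^ i / i !)) =
          w a * (P ^ (i + 2) / ((i + 2) * ((i + 1) * i !))) - Q / 2 * (w a * (P ^ i / i !)) := by
        ring
      rw [e5] at h2
      rw [e4]
      have e6 : i + 1 + 1 = i + 2 := rfl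
      rw [e6]
      linarith

lemma es_half {w : ℕ → ℝ} (hw : ∀ p, 0 ≤ w p) (A : Finset ℕ) (hQ : ∑ p ∈ A, w p ^ 2 ≤ 1 / 2)
    {j : ℕ} (hj : (j : ℝ) ≤ 6 / 5 * ∑ p ∈ A, w p) :
    1 / 2 * ((∑ p ∈ A, w p) ^ j / j !) ≤ es w A j := by
  have hP : 0 ≤ ∑ p ∈ A, w p := Finset.sum_nonneg fun p _ => hw p
  rcases j with _ | _ | i
  · rw [es_zero]
    norm_num
  · rw [zero_add, es_one]
    norm_num
    linarith
  · refine le_trans ?_ (es_ge hw A i)
    generalize ∑ p ∈ A, w p = P at *
    generalize ∑ p ∈ A, w p ^ 2 = Q at *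
    have hf : (0 : ℝ) < i ! := by positivity
    have e2 : ((i + 1 + 1)! : ℝ) = (i + 2) * ((i + 1) * i !) := by
      rw [Nat.factorial_succ, Nat.factorial_succ]
      push_cast
      ring
    have e6 : i + 2 = i + 1 + 1 := rfl
    rw [e6, e2]
    have h1 : Q / 2 * (P ^ i / i !) ≤ 1 / 4 * (P ^ i / i !) :=
      mul_le_mul_of_nonneg_right (by linarith) (by positivity)
    push_cast at hj
    have h2 : ((i : ℝ) + 2) * (i + 1) ≤ 2 * P ^ 2 := by nlinarith
    have h3 : 1 / 4 * (P ^ i / i !) ≤ 1 / 2 * (P ^ (i + 1 + 1) / ((i + 2) * ((i + 1) * i !))) := by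
      have e7 : 1 / 4 * (P ^ i / i !) =
          1 / 4 * (((i : ℝ) + 2) * (i + 1)) * (P ^ i / ((i + 2) * ((i + 1) * i !))) := by
        field_simp
      have e8 : 1 / 2 * (P ^ (i + 1 + 1) / ((i + 2) * ((i + 1) * i !))) =
          1 / 4 * (2 * P ^ 2) * (P ^ i / ((i + 2) * ((i + 1) * i !))) := by
        ring
      rw [e7, e8]
      exact mul_le_mul_of_nonneg_right (by linarith) (by positivity)
    linarith

/-! ### the balanced subsets -/

lemma eqs_sum (w : ℕ → ℝ) {A B : Finset ℕ} (hAB : Disjoint A B) {N : ℕ} (hN : A.card < N) :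
    ∑ T ∈ Eqs A B, ∏ p ∈ T, w p = ∑ j ∈ range N, es w A j * es w B j := by
  classical
  have h1 : ∀ T ∈ Eqs A B, (T ∩ A).card ∈ range N := fun T _ =>
    mem_range.2 ((card_le_card inter_subset_right).trans_lt hN)
  rw [← Finset.sum_fiberwise_of_maps_to h1]
  refine Finset.sum_congr rfl fun j _ => ?_
  unfold es
  rw [Finset.sum_mul_sum, ← Finset.sum_product']
  refine Finset.sum_nbij' (fun T => (T ∩ A, T ∩ B)) (fun x => x.1 ∪ x.2) ?_ ?_ ?_ ?_ ?_
  · intro T hT
    rw [mem_filter] at hT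
    unfold Eqs at hT
    rw [mem_filter, mem_powerset] at hT
    rw [mem_product, mem_powersetCard, mem_powersetCard]
    exact ⟨⟨inter_subset_right, hT.2⟩, ⟨inter_subset_right, hT.1.2.symm.trans hT.2⟩⟩
  · intro x hx
    rw [mem_product, mem_powersetCard, mem_powersetCard] at hx
    obtain ⟨⟨h1, h2⟩, h3, h4⟩ := hx
    have e1 : (x.1 ∪ x.2) ∩ A = x.1 := by
      rw [union_inter_distrib_right, inter_eq_left.2 h1,
        Finset.disjoint_iff_inter_eq_empty.1 (Finset.disjoint_of_subset_left h3 hAB.symm),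
        union_empty]
    have e2 : (x.1 ∪ x.2) ∩ B = x.2 := by
      rw [union_inter_distrib_right, inter_eq_left.2 h3,
        Finset.disjoint_iff_inter_eq_empty.1 (Finset.disjoint_of_subset_left h1 hAB),
        empty_union]
    rw [mem_filter]
    unfold Eqs
    rw [mem_filter, mem_powerset, e1, e2]
    exact ⟨⟨union_subset_union h1 h3, h2.trans h4.symm⟩, h2⟩
  · intro T hT
    rw [mem_filter] at hT
    unfold Eqs at hT
    rw [mem_filter, mem_powerset] at hT
    show T ∩ A ∪ T ∩ B = T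
    rw [← inter_union_distrib_left]
    exact inter_eq_left.2 hT.1.1
  · intro x hx
    rw [mem_product, mem_powersetCard, mem_powersetCard] at hx
    obtain ⟨⟨h1, h2⟩, h3, h4⟩ := hx
    have e1 : (x.1 ∪ x.2) ∩ A = x.1 := by
      rw [union_inter_distrib_right, inter_eq_left.2 h1,
        Finset.disjoint_iff_inter_eq_empty.1 (Finset.disjoint_of_subset_left h3 hAB.symm),
        union_empty]
    have e2 : (x.1 ∪ x.2) ∩ B = x.2 := by
      rw [union_inter_distrib_right, inter_eq_left.2 h3,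
        Finset.disjoint_iff_inter_eq_empty.1 (Finset.disjoint_of_subset_left h1 hAB),
        empty_union]
    show ((x.1 ∪ x.2) ∩ A, (x.1 ∪ x.2) ∩ B) = x
    rw [e1, e2]
  · intro T hT
    rw [mem_filter] at hT
    unfold Eqs at hT
    rw [mem_filter, mem_powerset] at hT
    show ∏ p ∈ T, w p = (∏ p ∈ T ∩ A, w p) * ∏ p ∈ T ∩ B, w p
    rw [← prod_union (Finset.disjoint_of_subset_left inter_subset_right
      (Finset.disjoint_of_subset_right inter_subset_right hAB)), ← inter_union_distrib_left,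
      inter_eq_left.2 hT.1.1]

/-! ### the upper bound -/

theorem t_PU : S_PU := by
  classical
  refine ⟨3, by norm_num, fun A B w hAB hw hP => ?_⟩
  rw [eqs_sum w hAB (Nat.lt_succ_self _)]
  have hP' : 0 ≤ ∑ p ∈ B, w p := Finset.sum_nonneg fun p _ => hw p
  have hA := es_le hw A
  have hB := es_le hw B
  have hA0 := es_nonneg hw A
  have hB0 := es_nonneg hw B
  generalize ∑ p ∈ A, w p = P at *
  generalize ∑ p ∈ B, w p = P' at *
  have hP0 : 0 < P := by linarith
  have hsq0 : 0 < Real.sqrt P := Real.sqrt_pos.2 hP0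
  have hterm : ∀ j : ℕ, es w A j * es w B j ≤
      Real.exp P' / Real.sqrt P * (P ^ j / j !) +
      16 / (9 * P ^ 2) * Real.exp P' * (((j : ℝ) - P) ^ 2 * (P ^ j / j !)) := by
    intro j
    have h1 : es w A j * es w B j ≤ (P ^ j / j !) * (P' ^ j / j !) :=
      mul_le_mul (hA j) (hB j) (hB0 j) (by positivity)
    refine h1.trans ?_
    have hpos : 0 ≤ P ^ j / (j ! : ℝ) := by positivity
    rcases le_or_gt (P / 4) j with hj | hj
    · have hj0 : (0 : ℝ) < j := by linarith
      have hj1 : 1 ≤ j := by exact_mod_cast hj0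
      have h2 := term_le hP' hj1
      have h3 : Real.sqrt P ≤ Real.sqrt (2 * Real.pi * j) := by
        refine Real.sqrt_le_sqrt ?_
        have := Real.pi_gt_three
        nlinarith
      have h4 : Real.exp P' / Real.sqrt (2 * Real.pi * j) ≤ Real.exp P' / Real.sqrt P :=
        div_le_div_of_nonneg_left (Real.exp_pos _).le hsq0 h3
      have h5 : (P ^ j / j !) * (P' ^ j / j !) ≤ (P ^ j / j !) * (Real.exp P' / Real.sqrt P) :=
        mul_le_mul_of_nonneg_left (h2.trans h4) hpos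
      have h6 : 0 ≤ 16 / (9 * P ^ 2) * Real.exp P' * (((j : ℝ) - P) ^ 2 * (P ^ j / j !)) := by
        positivity
      linarith
    · have h2 : P' ^ j / j ! ≤ Real.exp P' := Real.pow_div_factorial_le_exp P' hP' j
      have h3 : 9 * P ^ 2 / 16 ≤ ((j : ℝ) - P) ^ 2 := by nlinarith
      have h4 : 1 ≤ 16 / (9 * P ^ 2) * ((j : ℝ) - P) ^ 2 := by
        rw [div_mul_eq_mul_div, le_div_iff₀ (by positivity)]
        linarith
      have h5 : (P ^ j / j !) * (P' ^ j / j !) ≤ (P ^ j / j !) * Real.exp P' :=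
        mul_le_mul_of_nonneg_left h2 hpos
      have h6 : (P ^ j / j !) * Real.exp P' * 1 ≤
          (P ^ j / j !) * Real.exp P' * (16 / (9 * P ^ 2) * ((j : ℝ) - P) ^ 2) :=
        mul_le_mul_of_nonneg_left h4 (by positivity)
      have h7 : 0 ≤ Real.exp P' / Real.sqrt P * (P ^ j / j !) := by positivity
      linarith
  have hS := ((hs0 P).mul_left (Real.exp P' / Real.sqrt P)).add
    ((hsv P).mul_left (16 / (9 * P ^ 2) * Real.exp P'))
  have h8 : ∑ j ∈ range (A.card + 1), es w A j * es w B j ≤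
      Real.exp P' / Real.sqrt P * Real.exp P +
        16 / (9 * P ^ 2) * Real.exp P' * (P * Real.exp P) := by
    refine (Finset.sum_le_sum fun j _ => hterm j).trans ?_
    refine sum_le_hasSum _ (fun j _ => ?_) hS
    positivity
  refine h8.trans ?_
  have e1 : Real.exp P' / Real.sqrt P * Real.exp P = Real.exp (P + P') / Real.sqrt P := by
    rw [Real.exp_add]
    ring
  have e2 : 16 / (9 * P ^ 2) * Real.exp P' * (P * Real.exp P) =
      16 / 9 * (Real.exp (P + P') / P) := by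
    rw [Real.exp_add]
    field_simp
  have h9 : Real.exp (P + P') / P ≤ Real.exp (P + P') / Real.sqrt P := by
    refine div_le_div_of_nonneg_left (Real.exp_pos _).le hsq0 ?_
    rw [Real.sqrt_le_left hP0.le]
    nlinarith
  have h10 : 0 ≤ Real.exp (P + P') / Real.sqrt P := by positivity
  rw [e1, e2, mul_div_assoc]
  linarith

/-! ### the lower bound -/

theorem t_PL : S_PL := by
  classical
  intro K
  refine ⟨1 / 4 * (9 / 16) * Real.exp (-K) / 5, 100 + |K|, by positivity,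
    by linarith [abs_nonneg K], fun A B w hAB hw hQA hQB hK hP => ?_⟩
  have hA0 := es_nonneg hw A
  have hB0 := es_nonneg hw B
  have hAh := fun j => es_half hw A hQA (j := j)
  have hBh := fun j => es_half hw B hQB (j := j)
  have hKle := le_abs_self K
  rw [abs_le] at hK
  have hN : ∀ N, A.card < N →
      ∑ T ∈ Eqs A B, ∏ p ∈ T, w p = ∑ j ∈ range N, es w A j * es w B j :=
    fun N hN => eqs_sum w hAB hN
  generalize ∑ p ∈ A, w p = P at *
  generalize ∑ p ∈ B, w p = P' at *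
  obtain ⟨x, hx⟩ : ∃ x, x = min P P' := ⟨_, rfl⟩
  have hxP : x ≤ P := by rw [hx]; exact min_le_left _ _
  have hxP' : x ≤ P' := by rw [hx]; exact min_le_right _ _
  have hx100 : 100 ≤ x := by
    rw [hx]
    refine le_min ?_ ?_
    · linarith [abs_nonneg K]
    · linarith
  have hx2 : P + P' - K ≤ 2 * x := by
    rw [hx]
    rcases le_total P P' with h | h
    · rw [min_eq_left h]; linarith
    · rw [min_eq_right h]; linarith
  have hx0 : 0 < x := by linarith
  have hs10 : 10 ≤ Real.sqrt x := by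
    rw [Real.le_sqrt (by norm_num) hx0.le]
    linarith
  have hsx : Real.sqrt x ^ 2 = x := Real.sq_sqrt hx0.le
  obtain ⟨M, hM⟩ : ∃ M, M = ⌊x + 2 * Real.sqrt x⌋₊ + 1 := ⟨_, rfl⟩
  obtain ⟨J, hJ⟩ : ∃ J, J = (range M).filter (fun n : ℕ => |(n : ℝ) - x| ≤ 2 * Real.sqrt x) :=
    ⟨_, rfl⟩
  have hnear := near (x := x) (by linarith) (range M) (fun n hn => by
    rw [mem_range, hM, Nat.lt_succ_iff]
    refine Nat.le_floor ?_
    rw [abs_le] at hn
    linarith)
  rw [← hJ] at hnear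
  have hcard : (J.card : ℝ) ≤ 5 * Real.sqrt x := by
    have h1 : J ⊆ Icc ⌈x - 2 * Real.sqrt x⌉₊ ⌊x + 2 * Real.sqrt x⌋₊ := by
      intro n hn
      rw [hJ, mem_filter, abs_le] at hn
      rw [mem_Icc]
      exact ⟨Nat.ceil_le.2 (by linarith), Nat.le_floor (by linarith)⟩
    have h2 := card_le_card h1
    rw [Nat.card_Icc] at h2
    have h3 : (J.card : ℝ) + ⌈x - 2 * Real.sqrt x⌉₊ ≤ ⌊x + 2 * Real.sqrt x⌋₊ + 1 ∨ J.card = 0 := by
      rcases Nat.eq_zero_or_pos J.card with h | h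
      · exact Or.inr h
      · left
        have : J.card + ⌈x - 2 * Real.sqrt x⌉₊ ≤ ⌊x + 2 * Real.sqrt x⌋₊ + 1 := by omega
        exact_mod_cast this
    rcases h3 with h3 | h3
    · have h4 := Nat.le_ceil (x - 2 * Real.sqrt x)
      have h5 := Nat.floor_le (by positivity : 0 ≤ x + 2 * Real.sqrt x)
      linarith
    · rw [h3]
      push_cast
      positivity
  have hJj : ∀ j ∈ J, 1 / 4 * (x ^ j / j !) ^ 2 ≤ es w A j * es w B j := by
    intro j hj
    rw [hJ, mem_filter, abs_le] at hj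
    have h1 : (j : ℝ) ≤ 6 / 5 * x := by nlinarith
    have h2 := hAh j (h1.trans (by linarith))
    have h3 := hBh j (h1.trans (by linarith))
    have h4 : x ^ j / (j ! : ℝ) ≤ P ^ j / j ! :=
      div_le_div_of_nonneg_right (pow_le_pow_left₀ hx0.le hxP j) (by positivity)
    have h5 : x ^ j / (j ! : ℝ) ≤ P' ^ j / j ! :=
      div_le_div_of_nonneg_right (pow_le_pow_left₀ hx0.le hxP' j) (by positivity)
    have h6 : 0 ≤ x ^ j / (j ! : ℝ) := by positivity
    calc 1 / 4 * (x ^ j / j !) ^ 2 = (1 / 2 * (x ^ j / j !)) * (1 / 2 * (x ^ j / j !)) := by ring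
      _ ≤ es w A j * es w B j := by
        refine mul_le_mul ?_ ?_ (by positivity) (hA0 j)
        · linarith
        · linarith
  rw [hN (A.card + 1 + M) (by omega)]
  have h1 : ∑ j ∈ J, 1 / 4 * (x ^ j / (j ! : ℝ)) ^ 2 ≤
      ∑ j ∈ range (A.card + 1 + M), es w A j * es w B j := by
    refine (Finset.sum_le_sum hJj).trans ?_
    refine Finset.sum_le_sum_of_subset_of_nonneg ?_ fun j _ _ => mul_nonneg (hA0 j) (hB0 j)
    intro n hn
    rw [hJ, mem_filter, mem_range] at hn
    rw [mem_range]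
    omega
  refine le_trans ?_ h1
  rw [← Finset.mul_sum]
  have h2 := sq_sum_le_card_mul_sum_sq (s := J) (f := fun j : ℕ => x ^ j / (j ! : ℝ))
  have h3 : (3 / 4 * Real.exp x) ^ 2 ≤ (∑ j ∈ J, x ^ j / (j ! : ℝ)) ^ 2 :=
    pow_le_pow_left₀ (by positivity) hnear 2
  have hT0 : 0 ≤ ∑ j ∈ J, (x ^ j / (j ! : ℝ)) ^ 2 := Finset.sum_nonneg fun j _ => sq_nonneg _
  have h4 : (3 / 4 * Real.exp x) ^ 2 ≤ 5 * Real.sqrt x * ∑ j ∈ J, (x ^ j / (j ! : ℝ)) ^ 2 :=
    h3.trans (h2.trans (mul_le_mul_of_nonneg_right hcard hT0))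
  have hsP0 : 0 < Real.sqrt P := Real.sqrt_pos.2 (by linarith)
  have h5 : 5 * Real.sqrt x * ∑ j ∈ J, (x ^ j / (j ! : ℝ)) ^ 2 ≤
      5 * Real.sqrt P * ∑ j ∈ J, (x ^ j / (j ! : ℝ)) ^ 2 :=
    mul_le_mul_of_nonneg_right (by linarith [Real.sqrt_le_sqrt hxP]) hT0
  have h6 : Real.exp (-K) * Real.exp (P + P') ≤ Real.exp x ^ 2 := by
    rw [← Real.exp_add, ← Real.exp_nat_mul]
    refine Real.exp_le_exp.2 ?_
    push_cast
    linarith
  have h7 : (3 / 4 * Real.exp x) ^ 2 = 9 / 16 * Real.exp x ^ 2 := by ring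
  rw [h7] at h4
  rw [div_le_iff₀ hsP0]
  have h8 : 1 / 4 * (9 / 16) * Real.exp (-K) / 5 * Real.exp (P + P') =
      1 / 4 * (9 / 16) / 5 * (Real.exp (-K) * Real.exp (P + P')) := by ring
  rw [h8]
  nlinarith

end Pool.Agent.NH5.PR.PL

namespace Pool.Agent.NH5.PR

theorem t_PL : S_PL := PL.t_PL

theorem t_PU : S_PU := PL.t_PU

end Pool.Agent.NH5.PR
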