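import Pool.Agent.NH5.PR.BIL
import Pool.Agent.NH5.PR.ETA
import Pool.Agent.NH5.PR.LA
import Pool.Agent.NH5.PR.BOX
import Pool.Agent.NH5.PR.Key
import Pool.Agent.NH5.PR.CNT
import Pool.Agent.NH5.PR.HAL
import Pool.Agent.NH5.PR.BAD
import Pool.Agent.NH5.PR.FEW
import Pool.Agent.NH5.PR.PL
import Pool.Agent.NH5.PR.LOG
import Pool.Agent.NH5.PR.LOW
import Pool.Agent.NH5.PR.Asy
import Pool.Agent.Y356.CQ.EQ
import Pool.Agent.Y488.CX.Sie
import Pool.Agent.Y405.CQ.MER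
import Pool.Agent.Y302.CQ.CHE

/-!
# The exact proportion of the nonsingular matrices, unconditionally
-/

set_option autoImplicit false

open scoped Classical

namespace Pool.Agent.NH5.PR

theorem f_LA : S_LA := t_LA t_ETA

theorem f_LOW : S_LOW := t_LOW2 Pool.Agent.Y405.CQ.t_MER t_PL t_PU t_LOG Pool.Agent.Y302.CQ.t_CHE

theorem f_DQ : S_DQ := t_ASY t_BIL Pool.Agent.Y356.CQ.t_EQ f_LA t_BOX t_KEY t_CNT
  Pool.Agent.Y488.CX.t_SIE t_HAL t_BAD t_FEW Pool.Agent.Y405.CQ.t_MER f_LOW t_ETA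

end Pool.Agent.NH5.PR
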