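import Pool.Agent.NH5.PR.Stm
import Pool.Agent.NH5.GC.LA

/-!
# Project PR: invertible matrices over `𝔽₂` and averaging (helper73 for helper5)
-/

set_option autoImplicit false

open scoped Classical

namespace Pool.Agent.NH5.PR.LA1

open Finset Matrix
open Pool.Agent.NH5.GC (Tk)

/-- the probability that a square matrix of size `n` is nonsingular -/
noncomputable def pn (n : ℕ) : ℝ := ∏ i ∈ range n, (1 - (1 / 2 : ℝ) ^ (i + 1))

theorem average_sum {G T : Type} [Fintype G] [AddCommGroup G] [Fintype T] (j : T → G)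
    (P : G → Prop) :
    ∑ α : G, ((univ.filter fun t : T => P (α + j t)).card : ℝ) =
      (Fintype.card T : ℝ) * ((univ.filter P).card : ℝ) := by
  have e2 : ∀ α : G, ((univ.filter fun t : T => P (α + j t)).card : ℝ) =
      ∑ t : T, if P (α + j t) then (1 : ℝ) else 0 := by
    intro α
    rw [Finset.sum_boole]
  simp only [e2]
  rw [Finset.sum_comm]
  have e3 : ∀ t : T, ∑ α : G, (if P (α + j t) then (1 : ℝ) else 0) =
      ((univ.filter P).card : ℝ) := by
    intro t
    rw [← Finset.sum_boole]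
    exact Fintype.sum_equiv (Equiv.addRight (j t)) _ _ fun α => rfl
  rw [Finset.sum_congr rfl fun t _ => e3 t, Finset.sum_const, nsmul_eq_mul, Finset.card_univ]

theorem gl_eq (n : ℕ) : ∏ i : Fin n, ((2 : ℝ) ^ n - 2 ^ (i : ℕ)) = 2 ^ (n * n) * pn n := by
  unfold pn
  have e0 : (2 : ℝ) ^ (n * n) = ∏ _i ∈ range n, (2 : ℝ) ^ n := by
    rw [Finset.prod_const, Finset.card_range, ← pow_mul]
  rw [Fin.prod_univ_eq_prod_range (fun i => (2 : ℝ) ^ n - 2 ^ i) n, ← Finset.prod_range_reflect,
    e0, ← Finset.prod_mul_distrib]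
  refine Finset.prod_congr rfl fun i hi => ?_
  rw [Finset.mem_range] at hi
  rw [mul_sub, mul_one]
  congr 1
  rw [one_div, inv_pow, ← div_eq_mul_inv, eq_div_iff (by positivity), ← pow_add]
  congr 1
  omega

theorem gl_exact (a b : Type) [Fintype a] [Fintype b] (h : Fintype.card a = Fintype.card b) :
    (Nat.card {W : Matrix a b (ZMod 2) // Tk W} : ℝ) =
      pn (Fintype.card a) * (Nat.card (Matrix a b (ZMod 2)) : ℝ) := by
  have : Fact (Nat.Prime 2) := ⟨Nat.prime_two⟩
  obtain ⟨n, hn⟩ : ∃ n, n = Fintype.card a := ⟨_, rfl⟩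
  rw [← hn]
  have e1 : a ≃ Fin n := Fintype.equivFinOfCardEq hn.symm
  have e2 : b ≃ Fin n := Fintype.equivFinOfCardEq (h ▸ hn).symm
  have h1 : Nat.card {W : Matrix a b (ZMod 2) // Tk W} =
      Nat.card {W : Matrix (Fin n) (Fin n) (ZMod 2) // W.det ≠ 0} := by
    refine Nat.card_congr ((Matrix.reindex e1 e2).subtypeEquiv fun W => ?_)
    rw [← Pool.Agent.Y839.CQ.ns_iff]
    unfold Tk Pool.Agent.Y839.CQ.Ns
    constructor
    · intro h y hy
      have h2 : W *ᵥ (y ∘ e2) = 0 := by
        funext i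
        have h3 := congrFun hy (e1 i)
        simp only [Matrix.reindex_apply, Matrix.mulVec, dotProduct, Matrix.submatrix_apply,
          Equiv.symm_apply_apply, Pi.zero_apply] at h3 ⊢
        rw [← h3]
        exact Fintype.sum_equiv e2 _ _ fun j => by simp
      have h4 := h _ h2
      funext j
      have h5 := congrFun h4 (e2.symm j)
      simpa using h5
    · intro h y hy
      have h2 : (Matrix.reindex e1 e2 W) *ᵥ (y ∘ e2.symm) = 0 := by
        funext i
        have h3 := congrFun hy (e1.symm i)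
        simp only [Matrix.reindex_apply, Matrix.mulVec, dotProduct, Matrix.submatrix_apply,
          Pi.zero_apply] at h3 ⊢
        rw [← h3]
        exact Fintype.sum_equiv e2.symm _ _ fun j => by simp
      have h4 := h _ h2
      funext j
      have h5 := congrFun h4 (e2 j)
      simpa using h5
  have h2 : Nat.card {W : Matrix (Fin n) (Fin n) (ZMod 2) // W.det ≠ 0} =
      Nat.card (GL (Fin n) (ZMod 2)) := by
    refine Nat.card_congr ⟨fun W => Matrix.GeneralLinearGroup.mkOfDetNeZero W.1 W.2,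
      fun g => ⟨g.1, g.det.ne_zero⟩, ?_, ?_⟩
    · intro W
      rfl
    · intro g
      ext
      rfl
  have h3 := Matrix.card_GL_field (𝔽 := ZMod 2) n
  rw [h1, h2, h3, ZMod.card]
  have h4 : Nat.card (Matrix a b (ZMod 2)) = 2 ^ (n * n) := by
    rw [Nat.card_eq_fintype_card, Fintype.card_congr (Matrix.reindex e1 e2)]
    have : Fintype.card (Matrix (Fin n) (Fin n) (ZMod 2)) =
      Fintype.card (Fin n → Fin n → ZMod 2) := rfl
    rw [this, Fintype.card_fun, Fintype.card_fun, Fintype.card_fin, ZMod.card, ← pow_mul]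
  rw [h4]
  have h5 := gl_eq n
  push_cast
  rw [mul_comm, ← h5]
  refine Finset.prod_congr rfl fun i _ => ?_
  rw [Nat.cast_sub (Nat.pow_le_pow_right (by norm_num) i.2.le)]
  push_cast
  rfl

/-- the proportion of the shifts which make the map injective on a subspace -/
theorem frac {X : Type} [AddCommGroup X] [Module (ZMod 2) X] [FiniteDimensional (ZMod 2) X]
    (K : Submodule (ZMod 2) X) {r c : Type} [Fintype r] [Fintype c]
    (hK : Module.finrank (ZMod 2) K = Fintype.card r) (Ψ : X →ₗ[ZMod 2] (r → ZMod 2))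
    (π : X →ₗ[ZMod 2] (c → ZMod 2)) (hπ : ∀ z ∈ K, π z = 0 → z = 0) :
    ((univ.filter fun W : Matrix r c (ZMod 2) => ∀ z ∈ K, Ψ z + W *ᵥ π z = 0 → z = 0).card : ℝ) =
      pn (Fintype.card r) * (Fintype.card (Matrix r c (ZMod 2)) : ℝ) := by
  have hKr : Module.finrank (ZMod 2) K = Module.finrank (ZMod 2) (r → ZMod 2) := by
    rw [hK, Module.finrank_fintype_fun_eq_card]
  let e : K ≃ₗ[ZMod 2] (r → ZMod 2) := LinearEquiv.ofFinrankEq K (r → ZMod 2) hKr
  let ι : (r → ZMod 2) →ₗ[ZMod 2] (c → ZMod 2) := π ∘ₗ K.subtype ∘ₗ e.symm.toLinearMap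
  have hι : LinearMap.ker ι = ⊥ := by
    rw [LinearMap.ker_eq_bot']
    intro v hv
    have h1 := hπ (e.symm v : X) (e.symm v).2 hv
    have h2 : e.symm v = 0 := Subtype.ext h1
    simpa using h2
  obtain ⟨ρ, hρ⟩ := LinearMap.exists_leftInverse_of_injective ι hι
  let R : Matrix r c (ZMod 2) := LinearMap.toMatrix' ρ
  have hR : ∀ v, R *ᵥ ι v = v := by
    intro v
    have h1 : R *ᵥ ι v = ρ (ι v) := by
      rw [← Matrix.toLin'_apply, Matrix.toLin'_toMatrix']
    rw [h1]
    exact LinearMap.congr_fun hρ v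
  have key : ∀ W : Matrix r c (ZMod 2),
      ((univ.filter fun T : Matrix r r (ZMod 2) =>
        ∀ z ∈ K, Ψ z + (W + T * R) *ᵥ π z = 0 → z = 0).card : ℝ) =
      pn (Fintype.card r) * (Fintype.card (Matrix r r (ZMod 2)) : ℝ) := by
    intro W
    let D : Matrix r r (ZMod 2) := LinearMap.toMatrix' (Ψ ∘ₗ K.subtype ∘ₗ e.symm.toLinearMap) + W *
      LinearMap.toMatrix' ι
    have hD : ∀ v, D *ᵥ v = Ψ (e.symm v : X) + W *ᵥ ι v := by
      intro v
      simp only [D]
      rw [Matrix.add_mulVec, ← Matrix.mulVec_mulVec, ← Matrix.toLin'_apply, Matrix.toLin'_toMatrix',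
        ← Matrix.toLin'_apply (LinearMap.toMatrix' ι), Matrix.toLin'_toMatrix']
      rfl
    have h1 : ∀ T : Matrix r r (ZMod 2),
        (∀ z ∈ K, Ψ z + (W + T * R) *ᵥ π z = 0 → z = 0) ↔ Tk (T + D) := by
      intro T
      have h2 : ∀ v : r → ZMod 2, Ψ (e.symm v : X) + (W + T * R) *ᵥ π (e.symm v : X) =
          (T + D) *ᵥ v := by
        intro v
        rw [Matrix.add_mulVec, Matrix.add_mulVec, hD, ← Matrix.mulVec_mulVec]
        have h3 : R *ᵥ π (e.symm v : X) = v := hR v
        rw [h3]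
        have h4 : ι v = π (e.symm v : X) := rfl
        rw [h4]
        abel
      constructor
      · intro h v hv
        have h3 := h (e.symm v : X) (e.symm v).2 (by rw [h2]; exact hv)
        have h4 : e.symm v = 0 := Subtype.ext h3
        simpa using h4
      · intro h z hz hz2
        have h3 := h (e ⟨z, hz⟩) (by
          rw [← h2, LinearEquiv.symm_apply_apply]; exact hz2)
        have h4 : (⟨z, hz⟩ : K) = 0 := by simpa using h3
        exact congrArg Subtype.val h4
    have h5 : (univ.filter fun T : Matrix r r (ZMod 2) =>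
        ∀ z ∈ K, Ψ z + (W + T * R) *ᵥ π z = 0 → z = 0) =
        univ.filter fun T : Matrix r r (ZMod 2) => Tk (T + D) :=
      Finset.filter_congr fun T _ => h1 T
    rw [h5, ← Finset.sum_boole]
    have h6 : ∑ T : Matrix r r (ZMod 2), (if Tk (T + D) then (1 : ℝ) else 0) =
        ∑ T : Matrix r r (ZMod 2), if Tk T then (1 : ℝ) else 0 :=
      Fintype.sum_equiv (Equiv.addRight D) _ _ fun T => rfl
    rw [h6, Finset.sum_boole]
    have h7 := gl_exact r r rfl
    rw [Nat.card_eq_fintype_card, Nat.card_eq_fintype_card, Fintype.card_subtype] at h7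
    exact h7
  have h8 := average_sum (G := Matrix r c (ZMod 2)) (T := Matrix r r (ZMod 2)) (fun T => T * R)
    (fun W => ∀ z ∈ K, Ψ z + W *ᵥ π z = 0 → z = 0)
  rw [Finset.sum_congr rfl fun W _ => key W, Finset.sum_const, nsmul_eq_mul, Finset.card_univ] at h8
  have h9 : (0 : ℝ) < Fintype.card (Matrix r r (ZMod 2)) := by exact_mod_cast Fintype.card_pos
  have h10 : (Fintype.card (Matrix r r (ZMod 2)) : ℝ) *
      ((univ.filter fun W : Matrix r c (ZMod 2) => ∀ z ∈ K, Ψ z + W *ᵥ π z = 0 → z = 0).card : ℝ) =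
      (Fintype.card (Matrix r r (ZMod 2)) : ℝ) *
        (pn (Fintype.card r) * (Fintype.card (Matrix r c (ZMod 2)) : ℝ)) := by
    rw [← h8]; ring
  exact mul_left_cancel₀ h9.ne' h10

end Pool.Agent.NH5.PR.LA1
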