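import Pool.Agent.NH5.PR.Fin
import Pool.Agent.NH5.LK.Fin

/-!
# The exact proportion for the twists, natural order
-/

set_option autoImplicit false

open scoped Classical

namespace Pool.Agent.NH5.PR

open Finset Filter Topology
open Pool.Agent.NH1 (sq2 sq7 sS sI sA sB gX)
open Pool.Agent.Y703.CX (eL)
open Pool.Agent.NH5.GD (Adm Good)
open Pool.Agent.NH5.LK (nA nB NoSel pf_pr pf_pm nosel_bal gd_good)

/-- the class of the balanced discriminants -/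
def Bal (D : ℤ) : Prop := Squarefree D ∧ D % 4 = 1 ∧ ¬ (7 : ℤ) ∣ D ∧ nA D = nB D

/-- the number of the `D`, `|D| ≤ X`, with the property `Q` -/
noncomputable def ct (Q : ℤ → Prop) (X : ℕ) : ℕ := ((Icc (-(X : ℤ)) X).filter Q).card

/-- the set of the `D`, `|D| ≤ X`, with the property `Q` -/
noncomputable def cts (Q : ℤ → Prop) (X : ℕ) : Finset ℤ := (Icc (-(X : ℤ)) X).filter Q

theorem ct_cts (Q : ℤ → Prop) (X : ℕ) : ct Q X = (cts Q X).card := rfl

theorem mem_ct {Q : ℤ → Prop} {X : ℕ} {D : ℤ} : D ∈ cts Q X ↔ (-(X : ℤ) ≤ D ∧ D ≤ X) ∧ Q D := by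
  unfold cts
  rw [mem_filter, mem_Icc]

/-- a filter of the sets of the class -/
theorem mem_SSf {b r X : ℕ} {P : Finset ℕ → Prop} {S : Finset ℕ} :
    S ∈ (SS b r X).filter P ↔ S ∈ SS b r X ∧ P S := mem_filter

theorem ct_congr {Q Q' : ℤ → Prop} (h : ∀ D, Q D ↔ Q' D) (X : ℕ) : ct Q X = ct Q' X := by
  have : Q = Q' := funext fun D => propext (h D)
  rw [this]

theorem ct_mono {Q Q' : ℤ → Prop} (h : ∀ D, Q D → Q' D) (X : ℕ) : ct Q X ≤ ct Q' X := by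
  rw [ct_cts, ct_cts]
  refine Finset.card_le_card fun D hD => ?_
  rw [mem_ct] at hD ⊢
  exact ⟨hD.1, h D hD.2⟩

/-- the sign of the discriminant -/
def sgn (r : ℕ) : ℤ := if r % 4 = 1 then 1 else -1

theorem sgn_cases (r : ℕ) : sgn r = 1 ∨ sgn r = -1 := by
  unfold sgn
  split_ifs <;> simp

theorem abs_prod (r : ℕ) (S : Finset ℕ) : (sgn r * ((∏ p ∈ S, p : ℕ) : ℤ)).natAbs = ∏ p ∈ S, p := by
  rw [Int.natAbs_mul, Int.natAbs_natCast]
  rcases sgn_cases r with h | h <;> rw [h] <;> simp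

theorem sgn_natAbs {D : ℤ} {r : ℕ} (h4 : D % 4 = 1) (hr : D.natAbs % 8 = r) :
    sgn r * (D.natAbs : ℤ) = D := by
  unfold sgn
  split_ifs with h <;> omega

theorem bal_iff {D : ℤ} {b r : ℕ} (_hO : Ok b r) (hD : Bal D) (hb : Int.gcd D b = 1)
    (hr : D.natAbs % 8 = r) : Cl b r D.natAbs.primeFactors := by
  have hA : Adm D := ⟨hD.1, hD.2.1, hD.2.2.1⟩
  have h1 : ∏ p ∈ D.natAbs.primeFactors, p = D.natAbs :=
    Nat.prod_primeFactors_of_squarefree (Int.squarefree_natAbs.2 hD.1)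
  refine ⟨fun p hp => ⟨Nat.prime_of_mem_primeFactors hp, fun hd => ?_⟩, hD.2.2.2, by rw [h1]; exact hr⟩
  have hpp := Nat.prime_of_mem_primeFactors hp
  have hpd := Nat.dvd_of_mem_primeFactors hp
  have hpm := pf_pm hA p hp
  rcases hpp.dvd_mul.1 hd with h | h
  · rw [show (14 : ℕ) = 2 * 7 by norm_num] at h
    rcases hpp.dvd_mul.1 h with h | h
    · exact hpm.2.1 ((Nat.prime_dvd_prime_iff_eq hpp Nat.prime_two).1 h)
    · exact hpm.2.2 ((Nat.prime_dvd_prime_iff_eq hpp (by norm_num)).1 h)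
  · have h2 : p ∣ Int.gcd D b := Nat.dvd_gcd hpd (by simpa using h)
    rw [hb] at h2
    exact hpp.one_lt.ne' (Nat.dvd_one.1 h2)

theorem cl_bal {b r : ℕ} (hO : Ok b r) {S : Finset ℕ} (h : Cl b r S) :
    Bal (sgn r * ((∏ p ∈ S, p : ℕ) : ℤ)) ∧ Int.gcd (sgn r * ((∏ p ∈ S, p : ℕ) : ℤ)) b = 1 ∧
    (sgn r * ((∏ p ∈ S, p : ℕ) : ℤ)).natAbs % 8 = r ∧
    (sgn r * ((∏ p ∈ S, p : ℕ) : ℤ)).natAbs.primeFactors = S := by
  have ha := abs_prod r S
  have hpf : (∏ p ∈ S, p).primeFactors = S := Nat.primeFactors_prod fun p hp => (h.1 p hp).1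
  have h0 : ∏ p ∈ S, p ≠ 0 := (Finset.prod_pos fun p hp => (h.1 p hp).1.pos).ne'
  have hsq : Squarefree (∏ p ∈ S, p) := by
    apply Finset.squarefree_prod_of_pairwise_isCoprime
    · intro p hp q hq hpq
      exact Nat.coprime_iff_isRelPrime.1 ((Nat.coprime_primes (h.1 p hp).1 (h.1 q hq).1).2 hpq)
    · intro p hp
      exact (h.1 p hp).1.prime.squarefree
  have hm := h.2.2
  refine ⟨⟨?_, ?_, ?_, ?_⟩, ?_, by rw [ha]; exact hm, by rw [ha]; exact hpf⟩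
  · rw [← Int.squarefree_natAbs, ha]
    exact hsq
  · unfold sgn
    have h8 := hO.2
    split_ifs with h4 <;> omega
  · intro hd
    have hd' : 7 ∣ ∏ p ∈ S, p := by
      rw [← ha]
      exact Int.natCast_dvd.1 (by exact_mod_cast hd)
    obtain ⟨q, hq, h7q⟩ := (Nat.Prime.prime (by norm_num : Nat.Prime 7)).exists_mem_finset_dvd hd'
    have := (Nat.prime_dvd_prime_iff_eq (by norm_num) (h.1 q hq).1).1 h7q
    exact (h.1 q hq).2 (by rw [← this]; exact ⟨2 * b, by ring⟩)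
  · unfold nA nB
    rw [ha, hpf]
    exact h.2.1
  · unfold Int.gcd
    rw [ha, Int.natAbs_natCast]
    refine Nat.Coprime.prod_left fun p hp => ?_
    rw [Nat.Prime.coprime_iff_not_dvd (h.1 p hp).1]
    intro hd
    exact (h.1 p hp).2 (hd.mul_left 14)

/-- the translation for one residue class -/
theorem ct_eq {b r : ℕ} (hO : Ok b r) (P : Finset ℕ → Prop) (X : ℕ) :
    ct (fun D => Bal D ∧ Int.gcd D b = 1 ∧ D.natAbs % 8 = r ∧ P D.natAbs.primeFactors) X =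
      ((SS b r X).filter P).card := by
  rw [ct_cts]
  unfold SS
  refine Finset.card_nbij' (fun D => D.natAbs.primeFactors)
    (fun S => sgn r * ((∏ p ∈ S, p : ℕ) : ℤ)) ?_ ?_ ?_ ?_
  · intro D hD
    rw [Finset.mem_coe, mem_ct] at hD
    obtain ⟨hX, hB, hb, hr, hP⟩ := hD
    have h1 : ∏ p ∈ D.natAbs.primeFactors, p = D.natAbs :=
      Nat.prod_primeFactors_of_squarefree (Int.squarefree_natAbs.2 hB.1)
    have hn : D.natAbs ≤ X := by omega
    rw [Finset.mem_coe, mem_filter, mem_filter, mem_powerset]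
    refine ⟨⟨fun p hp => ?_, bal_iff hO hB hb hr, by rw [h1]; exact hn⟩, hP⟩
    rw [mem_range]
    have := Nat.le_of_mem_primeFactors hp
    omega
  · intro S hS
    rw [Finset.mem_coe, mem_filter, mem_filter, mem_powerset] at hS
    obtain ⟨⟨-, hC, hX⟩, hP⟩ := hS
    obtain ⟨h1, h2, h3, h4⟩ := cl_bal hO hC
    rw [Finset.mem_coe, mem_ct]
    refine ⟨?_, h1, h2, h3, by rw [h4]; exact hP⟩
    have h5 := abs_prod r S
    show -(X : ℤ) ≤ sgn r * ((∏ p ∈ S, p : ℕ) : ℤ) ∧ sgn r * ((∏ p ∈ S, p : ℕ) : ℤ) ≤ X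
    omega
  · intro D hD
    rw [Finset.mem_coe, mem_ct] at hD
    obtain ⟨-, hB, hb, hr, hP⟩ := hD
    have h1 : ∏ p ∈ D.natAbs.primeFactors, p = D.natAbs :=
      Nat.prod_primeFactors_of_squarefree (Int.squarefree_natAbs.2 hB.1)
    show sgn r * ((∏ p ∈ D.natAbs.primeFactors, p : ℕ) : ℤ) = D
    rw [h1]
    exact sgn_natAbs hB.2.1 hr
  · intro S hS
    rw [Finset.mem_coe, mem_filter, mem_filter] at hS
    exact (cl_bal hO hS.1.2.1).2.2.2

theorem ct_nosel {b r : ℕ} (hO : Ok b r) (X : ℕ) :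
    ct (fun D => Bal D ∧ Int.gcd D b = 1 ∧ D.natAbs % 8 = r ∧ NoSel D) X =
      ((SS b r X).filter (Gd gX)).card := by
  rw [← ct_eq hO (Gd gX) X]
  refine ct_congr (fun D => ?_) X
  constructor
  · rintro ⟨h1, h2, h3, h4⟩
    have hA : Adm D := ⟨h1.1, h1.2.1, h1.2.2.1⟩
    exact ⟨h1, h2, h3, (gd_good hA h1.2.2.2).2 ((nosel_bal hA h1.2.2.2).1 h4)⟩
  · rintro ⟨h1, h2, h3, h4⟩
    have hA : Adm D := ⟨h1.1, h1.2.1, h1.2.2.1⟩
    exact ⟨h1, h2, h3, (nosel_bal hA h1.2.2.2).2 ((gd_good hA h1.2.2.2).1 h4)⟩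

theorem ct_all {b r : ℕ} (hO : Ok b r) (X : ℕ) :
    ct (fun D => Bal D ∧ Int.gcd D b = 1 ∧ D.natAbs % 8 = r) X = (SS b r X).card := by
  have h := ct_eq hO (fun _ => True) X
  have h3 : ct (fun D => Bal D ∧ Int.gcd D b = 1 ∧ D.natAbs % 8 = r) X =
      ct (fun D => Bal D ∧ Int.gcd D b = 1 ∧ D.natAbs % 8 = r ∧ True) X :=
    ct_congr (fun D => by tauto) X
  rw [h3, h]
  congr 1
  ext S
  exact mem_SSf.trans (and_iff_left trivial)

/-- several residue classes -/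
theorem ct_sum (Q : ℤ → Prop) (R : Finset ℕ) (X : ℕ) :
    ct (fun D => Q D ∧ D.natAbs % 8 ∈ R) X = ∑ r ∈ R, ct (fun D => Q D ∧ D.natAbs % 8 = r) X := by
  simp only [ct_cts]
  rw [Finset.card_eq_sum_card_fiberwise (f := fun D : ℤ => D.natAbs % 8) (t := R)]
  · refine Finset.sum_congr rfl fun r hr => ?_
    congr 1
    ext D
    rw [mem_filter, mem_ct, mem_ct]
    constructor
    · rintro ⟨⟨h1, h2, h3⟩, h4⟩
      exact ⟨h1, h2, h4⟩
    · rintro ⟨h1, h2, h3⟩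
      exact ⟨⟨h1, h2, by rw [h3]; exact hr⟩, h3⟩
  · intro D hD
    rw [Finset.mem_coe, mem_ct] at hD
    exact hD.2.2

/-- sums of sequences with the same quotient -/
theorem quot_sum {R : Finset ℕ} (hR : R.Nonempty) {f g : ℕ → ℕ → ℝ} {e : ℝ}
    (hg : ∀ r ∈ R, ∀ᶠ X in atTop, 0 < g r X)
    (h : ∀ r ∈ R, Tendsto (fun X => f r X / g r X) atTop (𝓝 e)) :
    Tendsto (fun X => (∑ r ∈ R, f r X) / ∑ r ∈ R, g r X) atTop (𝓝 e) := by
  rw [Metric.tendsto_atTop]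
  intro ε hε
  have h1 : ∀ᶠ X in atTop, ∀ r ∈ R, 0 < g r X ∧ |f r X / g r X - e| < ε := by
    rw [Filter.eventually_all_finset]
    intro r hr
    refine (hg r hr).and ?_
    have := (Metric.tendsto_nhds.1 (h r hr)) ε hε
    exact this
  obtain ⟨X₀, hX₀⟩ := eventually_atTop.1 h1
  refine ⟨X₀, fun X hX => ?_⟩
  have h2 := hX₀ X hX
  have hG : 0 < ∑ r ∈ R, g r X := Finset.sum_pos (fun r hr => (h2 r hr).1) hR
  rw [Real.dist_eq]
  have e1 : (∑ r ∈ R, f r X) / ∑ r ∈ R, g r X - e =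
      (∑ r ∈ R, (f r X / g r X - e) * g r X) / ∑ r ∈ R, g r X := by
    have : ∑ r ∈ R, (f r X / g r X - e) * g r X = ∑ r ∈ R, f r X - e * ∑ r ∈ R, g r X := by
      rw [Finset.mul_sum, ← Finset.sum_sub_distrib]
      refine Finset.sum_congr rfl fun r hr => ?_
      have := (h2 r hr).1.ne'
      field_simp
    rw [this]
    field_simp
  rw [e1, abs_div, abs_of_pos hG, div_lt_iff₀ hG, Finset.mul_sum]
  refine (Finset.abs_sum_le_sum_abs _ _).trans_lt (Finset.sum_lt_sum_of_nonempty hR fun r hr => ?_)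
  rw [abs_mul, abs_of_pos (h2 r hr).1]
  exact mul_lt_mul_of_pos_right (h2 r hr).2 (h2 r hr).1

/-- **the law in natural order** -/
theorem law {b : ℕ} (hb : 0 < b) {R : Finset ℕ} (hR : R.Nonempty)
    (hR8 : ∀ r ∈ R, r = 1 ∨ r = 3 ∨ r = 5 ∨ r = 7) :
    Tendsto (fun X : ℕ =>
      (ct (fun D => (Bal D ∧ Int.gcd D b = 1 ∧ NoSel D) ∧ D.natAbs % 8 ∈ R) X : ℝ) /
      (ct (fun D => (Bal D ∧ Int.gcd D b = 1) ∧ D.natAbs % 8 ∈ R) X : ℝ)) atTop (𝓝 eta) ∧
    ∃ (c : ℝ) (X₀ : ℕ), 0 < c ∧ ∀ X : ℕ, X₀ ≤ X → c * X / Real.sqrt (Real.log (Real.log X)) ≤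
      (ct (fun D => (Bal D ∧ Int.gcd D b = 1 ∧ NoSel D) ∧ D.natAbs % 8 ∈ R) X : ℝ) := by
  have e1 : ∀ r ∈ R, ∀ X, ct (fun D => (Bal D ∧ Int.gcd D b = 1 ∧ NoSel D) ∧ D.natAbs % 8 = r) X =
      ((SS b r X).filter (Gd gX)).card := by
    intro r hr X
    rw [← ct_nosel ⟨hb, hR8 r hr⟩ X]
    refine ct_congr (fun D => ?_) X
    tauto
  have e2 : ∀ r ∈ R, ∀ X, ct (fun D => (Bal D ∧ Int.gcd D b = 1) ∧ D.natAbs % 8 = r) X =
      (SS b r X).card := by
    intro r hr X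
    rw [← ct_all ⟨hb, hR8 r hr⟩ X]
    refine ct_congr (fun D => ?_) X
    tauto
  have hlow : ∀ r ∈ R, ∃ (c : ℝ) (X₀ : ℕ), 0 < c ∧ ∀ X : ℕ, X₀ ≤ X →
      c * X / Real.sqrt (Real.log (Real.log X)) ≤ ((SS b r X).card : ℝ) :=
    fun r hr => f_LOW b r ⟨hb, hR8 r hr⟩
  have hpos : ∀ c : ℝ, 0 < c → ∀ᶠ X : ℕ in atTop, 0 < c * X / Real.sqrt (Real.log (Real.log X)) := by
    intro c hc
    have h1 : Tendsto (fun X : ℕ => Real.log (Real.log (X : ℝ))) atTop atTop :=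
      Real.tendsto_log_atTop.comp (Real.tendsto_log_atTop.comp tendsto_natCast_atTop_atTop)
    filter_upwards [h1.eventually_gt_atTop 0, eventually_gt_atTop 0] with X h2 h3
    have h4 : (0 : ℝ) < X := by exact_mod_cast h3
    have := Real.sqrt_pos.2 h2
    positivity
  have hgpos : ∀ r ∈ R, ∀ᶠ X : ℕ in atTop, (0 : ℝ) < ((SS b r X).card : ℝ) := by
    intro r hr
    obtain ⟨c, X₀, hc, h⟩ := hlow r hr
    filter_upwards [hpos c hc, eventually_ge_atTop X₀] with X h1 h2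
    exact h1.trans_le (h X h2)
  have hlim : ∀ r ∈ R, Tendsto (fun X : ℕ => (((SS b r X).filter (Gd gX)).card : ℝ) /
      ((SS b r X).card : ℝ)) atTop (𝓝 eta) := fun r hr => f_DQ b r gX ⟨hb, hR8 r hr⟩
  have heta : 0 < eta := t_ETA.2.1
  refine ⟨?_, ?_⟩
  · have h := quot_sum hR (f := fun r X => (((SS b r X).filter (Gd gX)).card : ℝ))
      (g := fun r X => ((SS b r X).card : ℝ)) hgpos hlim
    refine h.congr fun X => ?_
    rw [ct_sum, ct_sum]
    push_cast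
    congr 1
    · exact Finset.sum_congr rfl fun r hr => by rw [e1 r hr X]
    · exact Finset.sum_congr rfl fun r hr => by rw [e2 r hr X]
  · obtain ⟨r, hr⟩ := hR
    obtain ⟨c, X₀, hc, h⟩ := hlow r hr
    have h1 : ∀ᶠ X : ℕ in atTop, eta / 2 < (((SS b r X).filter (Gd gX)).card : ℝ) /
        ((SS b r X).card : ℝ) := (hlim r hr).eventually_const_lt (by linarith)
    obtain ⟨X₁, hX₁⟩ := eventually_atTop.1 (h1.and (hgpos r hr))
    refine ⟨eta / 2 * c, max X₀ X₁, by positivity, fun X hX => ?_⟩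
    obtain ⟨h2, h3⟩ := hX₁ X ((le_max_right _ _).trans hX)
    have h4 := h X ((le_max_left _ _).trans hX)
    rw [lt_div_iff₀ h3] at h2
    have h5 : ct (fun D => (Bal D ∧ Int.gcd D b = 1 ∧ NoSel D) ∧ D.natAbs % 8 = r) X ≤
        ct (fun D => (Bal D ∧ Int.gcd D b = 1 ∧ NoSel D) ∧ D.natAbs % 8 ∈ R) X := by
      refine ct_mono ?_ X
      rintro D ⟨h6, h7⟩
      exact ⟨h6, by rw [h7]; exact hr⟩
    rw [e1 r hr X] at h5
    have h6 : (((SS b r X).filter (Gd gX)).card : ℝ) ≤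
        (ct (fun D => (Bal D ∧ Int.gcd D b = 1 ∧ NoSel D) ∧ D.natAbs % 8 ∈ R) X : ℝ) := by
      exact_mod_cast h5
    calc eta / 2 * c * X / Real.sqrt (Real.log (Real.log X)) =
          eta / 2 * (c * X / Real.sqrt (Real.log (Real.log X))) := by ring
      _ ≤ eta / 2 * ((SS b r X).card : ℝ) := mul_le_mul_of_nonneg_left h4 (by linarith)
      _ ≤ _ := h2.le.trans h6

/-- leaving out one number -/
theorem ct_ne (Q : ℤ → Prop) (X : ℕ) :
    |(ct (fun D => D ≠ 1 ∧ Q D) X : ℝ) - (ct Q X : ℝ)| ≤ 1 := by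
  have h1 : ct (fun D => D ≠ 1 ∧ Q D) X ≤ ct Q X := ct_mono (fun D h => h.2) X
  have h2 : ct Q X ≤ ct (fun D => D ≠ 1 ∧ Q D) X + 1 := by
    rw [ct_cts, ct_cts]
    have h3 : cts Q X ⊆ cts (fun D => D ≠ 1 ∧ Q D) X ∪ {1} := by
      intro D hD
      rw [mem_ct] at hD
      rw [mem_union, mem_ct, mem_singleton]
      by_cases h : D = 1
      · exact Or.inr h
      · exact Or.inl ⟨hD.1, h, hD.2⟩
    exact (Finset.card_le_card h3).trans ((Finset.card_union_le _ _).trans (by simp))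
  have h1' : (ct (fun D => D ≠ 1 ∧ Q D) X : ℝ) ≤ ct Q X := by exact_mod_cast h1
  have h2' : (ct Q X : ℝ) ≤ ct (fun D => D ≠ 1 ∧ Q D) X + 1 := by exact_mod_cast h2
  rw [abs_le]
  constructor <;> linarith

theorem quot_shift {a b a' b' : ℕ → ℝ} {e : ℝ} (hb : Tendsto b atTop atTop)
    (h : Tendsto (fun n => a n / b n) atTop (𝓝 e)) (ha' : ∀ n, |a' n - a n| ≤ 1)
    (hb' : ∀ n, |b' n - b n| ≤ 1) : Tendsto (fun n => a' n / b' n) atTop (𝓝 e) := by
  have hinv : Tendsto (fun n => 1 / b n) atTop (𝓝 0) := by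
    refine hb.inv_tendsto_atTop.congr fun n => ?_
    rw [Pi.inv_apply, one_div]
  have h1 : ∀ c : ℕ → ℝ, (∀ n, |c n| ≤ 1) → Tendsto (fun n => c n / b n) atTop (𝓝 0) := by
    intro c hc
    rw [tendsto_zero_iff_abs_tendsto_zero]
    refine squeeze_zero' (Eventually.of_forall fun n => abs_nonneg _) ?_ hinv
    filter_upwards [hb.eventually_gt_atTop 0] with n hn
    show |c n / b n| ≤ _
    rw [abs_div, abs_of_pos hn]
    gcongr
    exact hc n
  have h2 := h.add (h1 _ ha')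
  have h3 := (tendsto_const_nhds (x := (1 : ℝ))).add (h1 _ hb')
  have h4 := h2.div h3 (by norm_num)
  rw [add_zero, add_zero, div_one] at h4
  refine h4.congr' ?_
  filter_upwards [hb.eventually_gt_atTop 0] with n hn
  have hn' := hn.ne'
  show (a n / b n + (a' n - a n) / b n) / (1 + (b' n - b n) / b n) = a' n / b' n
  have e1 : a n / b n + (a' n - a n) / b n = a' n / b n := by
    rw [← add_div]
    ring
  have e2 : 1 + (b' n - b n) / b n = b' n / b n := by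
    field_simp
    ring
  rw [e1, e2, div_div_div_cancel_right₀ hn']

/-- `c X / √(log log X)` tends to infinity -/
theorem main_tendsto {c : ℝ} (hc : 0 < c) :
    Tendsto (fun X : ℕ => c * X / Real.sqrt (Real.log (Real.log X))) atTop atTop := by
  have h1 : Tendsto (fun X : ℕ => Real.log (Real.log (X : ℝ))) atTop atTop :=
    Real.tendsto_log_atTop.comp (Real.tendsto_log_atTop.comp tendsto_natCast_atTop_atTop)
  have h2 : Tendsto (fun X : ℕ => c * Real.sqrt (X : ℝ)) atTop atTop :=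
    (Real.tendsto_sqrt_atTop.comp tendsto_natCast_atTop_atTop).const_mul_atTop hc
  refine tendsto_atTop_mono' _ ?_ h2
  filter_upwards [h1.eventually_gt_atTop 0, eventually_ge_atTop 3] with X h3 h4
  have hX : (3 : ℝ) ≤ X := by exact_mod_cast h4
  have h5 : Real.log (Real.log X) ≤ X := by
    have hl : 0 < Real.log (X : ℝ) := Real.log_pos (by linarith)
    have h6 := Real.log_le_sub_one_of_pos hl
    have h7 := Real.log_le_sub_one_of_pos (show (0 : ℝ) < X by linarith)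
    linarith
  have h6 := Real.sqrt_pos.2 h3
  have h7 := Real.sqrt_le_sqrt h5
  have h8 : Real.sqrt (X : ℝ) * Real.sqrt X = X := Real.mul_self_sqrt (by linarith)
  rw [le_div_iff₀ h6]
  calc c * Real.sqrt X * Real.sqrt (Real.log (Real.log X)) ≤ c * Real.sqrt X * Real.sqrt X := by
        gcongr
    _ = c * X := by rw [mul_assoc, h8]

/-- **the law in natural order**, without `D = 1` -/
theorem law' {b : ℕ} (hb : 0 < b) {R : Finset ℕ} (hR : R.Nonempty)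
    (hR8 : ∀ r ∈ R, r = 1 ∨ r = 3 ∨ r = 5 ∨ r = 7) :
    Tendsto (fun X : ℕ =>
      (ct (fun D => D ≠ 1 ∧ (Bal D ∧ Int.gcd D b = 1 ∧ NoSel D) ∧ D.natAbs % 8 ∈ R) X : ℝ) /
      (ct (fun D => D ≠ 1 ∧ (Bal D ∧ Int.gcd D b = 1) ∧ D.natAbs % 8 ∈ R) X : ℝ)) atTop (𝓝 eta) ∧
    ∃ (c : ℝ) (X₀ : ℕ), 0 < c ∧ ∀ X : ℕ, X₀ ≤ X → c * X / Real.sqrt (Real.log (Real.log X)) ≤
      (ct (fun D => D ≠ 1 ∧ (Bal D ∧ Int.gcd D b = 1 ∧ NoSel D) ∧ D.natAbs % 8 ∈ R) X : ℝ) := by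
  obtain ⟨h1, c, X₀, hc, h2⟩ := law hb hR hR8
  have h3 : Tendsto (fun X : ℕ =>
      (ct (fun D => (Bal D ∧ Int.gcd D b = 1) ∧ D.natAbs % 8 ∈ R) X : ℝ)) atTop atTop := by
    refine tendsto_atTop_mono' _ ?_ (main_tendsto hc)
    filter_upwards [eventually_ge_atTop X₀] with X hX
    refine (h2 X hX).trans ?_
    have : ct (fun D => (Bal D ∧ Int.gcd D b = 1 ∧ NoSel D) ∧ D.natAbs % 8 ∈ R) X ≤
        ct (fun D => (Bal D ∧ Int.gcd D b = 1) ∧ D.natAbs % 8 ∈ R) X :=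
      ct_mono (fun D h => ⟨⟨h.1.1, h.1.2.1⟩, h.2⟩) X
    exact_mod_cast this
  refine ⟨quot_shift h3 h1 (fun X => ct_ne _ X) (fun X => ct_ne _ X), ?_⟩
  obtain ⟨X₁, hX₁⟩ := eventually_atTop.1 ((main_tendsto (half_pos hc)).eventually_ge_atTop 1)
  refine ⟨c / 2, max X₀ X₁, half_pos hc, fun X hX => ?_⟩
  have h4 := h2 X ((le_max_left _ _).trans hX)
  have h5 := hX₁ X ((le_max_right _ _).trans hX)
  have h6 := (abs_le.1 (ct_ne (fun D => (Bal D ∧ Int.gcd D b = 1 ∧ NoSel D) ∧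
    D.natAbs % 8 ∈ R) X)).1
  have h7 : c * X / Real.sqrt (Real.log (Real.log X)) =
      c / 2 * X / Real.sqrt (Real.log (Real.log X)) + c / 2 * X / Real.sqrt (Real.log (Real.log X)) := by
    ring
  linarith

end Pool.Agent.NH5.PR
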